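import Mathlib
import Pool.Agent.Helper82.BorsukUlam

/-! Quaternion tools and an odd-map obstruction used for the belt trick example. -/

set_option autoImplicit false

open Set unitInterval Quaternion Filter Topology

namespace Pool.Agent.H4Z.Belt

abbrev E3 := EuclideanSpace ℝ (Fin 3)
abbrev S2 := Metric.sphere (0 : E3) 1

/-- the pure quaternion with the given coordinates -/
def io (v : E3) : ℍ := ⟨0, v 0, v 1, v 2⟩

/-- the imaginary part as a vector -/
noncomputable def pr (q : ℍ) : E3 := !₂[q.imI, q.imJ, q.imK]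

@[simp] theorem io_re (v : E3) : (io v).re = 0 := rfl
@[simp] theorem io_imI (v : E3) : (io v).imI = v 0 := rfl
@[simp] theorem io_imJ (v : E3) : (io v).imJ = v 1 := rfl
@[simp] theorem io_imK (v : E3) : (io v).imK = v 2 := rfl
@[simp] theorem pr_0 (q : ℍ) : pr q 0 = q.imI := rfl
@[simp] theorem pr_1 (q : ℍ) : pr q 1 = q.imJ := rfl
@[simp] theorem pr_2 (q : ℍ) : pr q 2 = q.imK := rfl

theorem io_pr (q : ℍ) (h : q.re = 0) : io (pr q) = q := by
  ext <;> simp [h]

theorem pr_io (v : E3) : pr (io v) = v := by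
  ext i; fin_cases i <;> simp

theorem io_neg (v : E3) : io (-v) = - io v := by
  ext <;> simp

theorem io_injective : Function.Injective io := fun v w h => by
  rw [← pr_io v, h, pr_io]

/-- quaternion with given coordinates -/
def mkq (a b c d : ℝ) : ℍ := ⟨a, b, c, d⟩

@[simp] theorem mkq_re (a b c d : ℝ) : (mkq a b c d).re = a := rfl
@[simp] theorem mkq_imI (a b c d : ℝ) : (mkq a b c d).imI = b := rfl
@[simp] theorem mkq_imJ (a b c d : ℝ) : (mkq a b c d).imJ = c := rfl
@[simp] theorem mkq_imK (a b c d : ℝ) : (mkq a b c d).imK = d := rfl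

theorem io_eq : io = fun v : E3 =>
    v 0 • mkq 0 1 0 0 + v 1 • mkq 0 0 1 0 + v 2 • mkq 0 0 0 1 := by
  funext x; ext <;> simp

@[fun_prop] theorem continuous_io : Continuous io := by
  rw [io_eq]; fun_prop

theorem normsq3 (v : E3) : ‖v‖ ^ 2 = v 0 ^ 2 + v 1 ^ 2 + v 2 ^ 2 := by
  rw [EuclideanSpace.norm_sq_eq, Fin.sum_univ_three]; simp

theorem normSq_io (v : E3) : normSq (io v) = ‖v‖ ^ 2 := by
  rw [normSq_def', normsq3]; simp

theorem norm_io (v : E3) : ‖io v‖ = ‖v‖ := by
  have h := normSq_io v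
  rw [normSq_eq_norm_mul_self] at h
  have : ‖io v‖ ^ 2 = ‖v‖ ^ 2 := by rw [← h]; ring
  exact (pow_left_inj₀ (norm_nonneg _) (norm_nonneg _) two_ne_zero).1 this

theorem sph (s : S2) : (s : E3) 0 ^ 2 + (s : E3) 1 ^ 2 + (s : E3) 2 ^ 2 = 1 := by
  have h : ‖(s : E3)‖ = 1 := by simp
  rw [← normsq3, h]; norm_num

theorem io_mul_self (s : S2) : io s * io s = -1 := by
  have h := sph s
  ext <;> simp <;> nlinarith

theorem one_sub_ne (a b : S2) (h : dist a b < 2) : 1 - io b * io a ≠ 0 := by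
  intro h0
  have h1 : io b * io a = 1 := (sub_eq_zero.1 h0).symm
  have h2 : io b = - io a := by
    have h3 : io b * io a * io a = io a := by rw [h1, one_mul]
    rw [mul_assoc, io_mul_self, mul_neg_one] at h3
    rw [← h3, neg_neg]
  rw [← io_neg] at h2
  have h4 : (b : E3) = -a := io_injective h2
  have h5 : dist a b = 2 := by
    rw [Subtype.dist_eq, h4, dist_eq_norm, sub_neg_eq_add, ← two_smul ℝ, norm_smul]
    have : ‖(a : E3)‖ = 1 := by simp
    rw [this]; norm_num
  linarith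

theorem step_comm (a b : S2) : (1 - io b * io a) * io a = io b * (1 - io b * io a) := by
  rw [sub_mul, mul_sub, mul_assoc, io_mul_self, ← mul_assoc, io_mul_self]
  noncomm_ring

/-- Lifting a homotopy of maps to the sphere to nonzero quaternions. -/
theorem exists_lift {X : Type*} [PseudoMetricSpace X] [CompactSpace X] (h : I × X → S2)
    (hc : Continuous h) :
    ∃ U : I × X → ℍ, Continuous U ∧ (∀ p, U p ≠ 0) ∧ (∀ x y, U (0, x) = U (0, y)) ∧
      (∀ τ x, U (τ, x) * io (h (0, x)) = io (h (τ, x)) * U (τ, x)) ∧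
      (∀ x y, (∀ τ, h (τ, x) = h (τ, y)) → ∀ τ, U (τ, x) = U (τ, y)) := by
  have huc : UniformContinuous h := CompactSpace.uniformContinuous_of_continuous hc
  obtain ⟨δ, hδ, hδ'⟩ := Metric.uniformContinuous_iff.1 huc 2 (by norm_num)
  obtain ⟨N, hN⟩ := exists_nat_one_div_lt hδ
  let m : ℕ → I → I := fun j τ => min τ (projIcc 0 1 zero_le_one ((j : ℝ) / ((N : ℝ) + 1)))
  have mc : ∀ j, Continuous (m j) := fun j => by fun_prop
  have m0 : ∀ τ, m 0 τ = 0 := fun τ => by
    simp only [m, Nat.cast_zero, zero_div, projIcc_left]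
    exact min_eq_right τ.2.1
  have mN : ∀ τ, m (N + 1) τ = τ := fun τ => by
    have : (((N + 1 : ℕ) : ℝ) / ((N : ℝ) + 1)) = 1 := by
      push_cast; exact div_self (by positivity)
    simp only [m, this, projIcc_right]
    exact min_eq_left τ.2.2
  have mz : ∀ j, m j 0 = 0 := fun j => min_eq_left unitInterval.nonneg'
  have md : ∀ j τ, dist (m j τ) (m (j + 1) τ) < δ := fun j τ => by
    refine lt_of_le_of_lt ?_ hN
    have h1 : dist (m j τ) (m (j + 1) τ) ≤ dist (projIcc 0 1 zero_le_one ((j : ℝ) / ((N : ℝ) + 1)))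
        (projIcc 0 1 zero_le_one (((j + 1 : ℕ) : ℝ) / ((N : ℝ) + 1))) := by
      have e : ∀ a b : I, ((min a b : I) : ℝ) = min (a : ℝ) (b : ℝ) := fun a b =>
        (Subtype.mono_coe _).map_min
      simp only [m, Subtype.dist_eq, Real.dist_eq, e]
      refine (abs_min_sub_min_le_max _ _ _ _).trans ?_
      simp
    refine h1.trans ?_
    refine (abs_projIcc_sub_projIcc zero_le_one).trans ?_
    rw [← sub_div, abs_div, abs_of_pos (by positivity : (0 : ℝ) < (N : ℝ) + 1)]
    push_cast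
    simp
  let V : ℕ → I × X → ℍ := fun j => Nat.rec (fun _ => 1)
    (fun j Vj p => (1 - io (h (m (j + 1) p.1, p.2)) * io (h (m j p.1, p.2))) * Vj p) j
  have V0 : ∀ p, V 0 p = 1 := fun p => rfl
  have Vs : ∀ j p, V (j + 1) p =
      (1 - io (h (m (j + 1) p.1, p.2)) * io (h (m j p.1, p.2))) * V j p := fun j p => rfl
  have key : ∀ j, Continuous (V j) ∧ (∀ p, V j p ≠ 0) ∧ (∀ x, V j (0, x) = 2 ^ j) ∧
      (∀ τ x, V j (τ, x) * io (h (0, x)) = io (h (m j τ, x)) * V j (τ, x)) ∧
      (∀ x y, (∀ τ, h (τ, x) = h (τ, y)) → ∀ τ, V j (τ, x) = V j (τ, y)) := by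
    intro j
    induction j with
    | zero =>
      refine ⟨continuous_const, fun p => one_ne_zero, fun x => by simp [V0], fun τ x => ?_,
        fun x y _ τ => rfl⟩
      rw [V0, m0, one_mul, mul_one]
    | succ j ih =>
      obtain ⟨i1, i2, i3, i4, i5⟩ := ih
      refine ⟨?_, fun p => ?_, fun x => ?_, fun τ x => ?_, fun x y hxy τ => ?_⟩
      · have e : V (j + 1) = fun p =>
          (1 - io (h (m (j + 1) p.1, p.2)) * io (h (m j p.1, p.2))) * V j p := funext (Vs j)
        rw [e]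
        have := mc j
        have := mc (j + 1)
        fun_prop
      · rw [Vs]
        refine mul_ne_zero (one_sub_ne _ _ (hδ' ?_)) (i2 p)
        rw [Prod.dist_eq]
        simp only [dist_self]
        exact max_lt (md j p.1) hδ
      · rw [Vs, i3]
        simp only [mz, io_mul_self]
        rw [pow_succ']; norm_num
      · rw [Vs, mul_assoc, i4, ← mul_assoc, step_comm, mul_assoc]
      · rw [Vs, Vs]
        simp only [hxy, i5 x y hxy τ]
  obtain ⟨i1, i2, i3, i4, i5⟩ := key (N + 1)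
  refine ⟨V (N + 1), i1, i2, fun x y => by rw [i3, i3], fun τ x => ?_, i5⟩
  rw [i4, mN]

/-- evaluation of a complex number along a unit pure quaternion -/
noncomputable def ph (s : S2) (z : ℂ) : ℍ := z.re • (1 : ℍ) + z.im • io s

theorem ph_ne (s : S2) {z : ℂ} (hz : z ≠ 0) : ph s z ≠ 0 := by
  intro h
  have h0 : z.re = 0 := by simpa [ph] using congrArg (fun q : ℍ => q.re) h
  have h1 : z.im * (s : E3) 0 = 0 := by simpa [ph] using congrArg (fun q : ℍ => q.imI) h
  have h2 : z.im * (s : E3) 1 = 0 := by simpa [ph] using congrArg (fun q : ℍ => q.imJ) h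
  have h3 : z.im * (s : E3) 2 = 0 := by simpa [ph] using congrArg (fun q : ℍ => q.imK) h
  have h4 := sph s
  have h5 : z.im = 0 := by
    have : z.im = z.im * ((s : E3) 0 ^ 2 + (s : E3) 1 ^ 2 + (s : E3) 2 ^ 2) := by rw [h4, mul_one]
    rw [this]
    linear_combination (s : E3) 0 * h1 + (s : E3) 1 * h2 + (s : E3) 2 * h3
  exact hz (Complex.ext h0 h5)

/-- the complex coordinate of a quaternion along a unit pure quaternion -/
noncomputable def co (s : S2) (W : ℍ) : ℂ :=
  ⟨W.re, W.imI * (s : E3) 0 + W.imJ * (s : E3) 1 + W.imK * (s : E3) 2⟩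

theorem ph_co (s : S2) (W : ℍ) (h : W * io s = io s * W) : ph s (co s W) = W := by
  have h1 := congrArg (fun q : ℍ => q.imI) h
  have h2 := congrArg (fun q : ℍ => q.imJ) h
  have h3 := congrArg (fun q : ℍ => q.imK) h
  have h4 := sph s
  simp at h1 h2 h3
  ext
  · simp [ph, co]
  · simp [ph, co]
    linear_combination W.imI * h4 - (s : E3) 1 / 2 * h3 + (s : E3) 2 / 2 * h2
  · simp [ph, co]
    linear_combination W.imJ * h4 - (s : E3) 2 / 2 * h1 + (s : E3) 0 / 2 * h3
  · simp [ph, co]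
    linear_combination W.imK * h4 - (s : E3) 0 / 2 * h2 + (s : E3) 1 / 2 * h1

/-- a unit vector in the direction of `v` -/
noncomputable def nv (v : E3) : S2 := by
  classical
  exact if h : v = 0 then ⟨EuclideanSpace.single 0 1, by simp⟩
    else ⟨‖v‖⁻¹ • v, by
      have : ‖v‖ ≠ 0 := norm_ne_zero_iff.2 h
      simp [norm_smul, this]⟩

theorem nv_spec (v : E3) : v = ‖v‖ • (nv v : E3) := by
  by_cases h : v = 0
  · simp [h]
  · have : ‖v‖ ≠ 0 := norm_ne_zero_iff.2 h
    simp [nv, h, smul_smul, this]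

theorem nv_eq {v : E3} (hv : v ≠ 0) (s : S2) (h : v = ‖v‖ • (s : E3)) : nv v = s := by
  have h0 : ‖v‖ ≠ 0 := norm_ne_zero_iff.2 hv
  apply Subtype.ext
  have h1 := nv_spec v
  have h2 : ‖v‖ • (nv v : E3) = ‖v‖ • (s : E3) := h1.symm.trans h
  exact smul_right_injective E3 h0 h2

theorem nv_continuousAt {v : E3} (hv : v ≠ 0) : ContinuousAt nv v := by
  rw [Topology.IsInducing.subtypeVal.continuousAt_iff]
  have h0 : ‖v‖ ≠ 0 := norm_ne_zero_iff.2 hv
  have h1 : ContinuousAt (fun w : E3 => ‖w‖⁻¹ • w) v :=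
    (continuous_norm.continuousAt.inv₀ h0).smul continuousAt_id
  refine h1.congr ?_
  filter_upwards [isOpen_ne.mem_nhds hv] with w hw
  simp [nv, hw]

theorem polar_continuous {Y : Type*} [TopologicalSpace Y] [CompactSpace Y] (Ψ : Y × S2 → ℍ)
    (hΨ : Continuous Ψ) :
    Continuous (fun p : Y × E3 => min 1 (5 * ‖p.2‖) • Ψ (p.1, nv p.2)) := by
  obtain ⟨C, hC⟩ := (isCompact_univ.image hΨ).isBounded.exists_norm_le
  rw [continuous_iff_continuousAt]
  rintro ⟨y, v⟩
  by_cases hv : v = 0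
  · subst hv
    have h1 : Tendsto (fun p : Y × E3 => min 1 (5 * ‖p.2‖)) (𝓝 (y, 0)) (𝓝 0) := by
      have : Continuous (fun p : Y × E3 => min 1 (5 * ‖p.2‖)) := by fun_prop
      simpa using this.tendsto (y, 0)
    have h2 := h1.zero_smul_isBoundedUnder_le (g := fun p : Y × E3 => Ψ (p.1, nv p.2))
      (isBoundedUnder_of ⟨C, fun p => hC _ ⟨_, mem_univ _, rfl⟩⟩)
    unfold ContinuousAt
    simpa using h2
  · have h1 : ContinuousAt (fun p : Y × E3 => nv p.2) (y, v) :=
      ContinuousAt.comp (g := nv) (nv_continuousAt hv) continuousAt_snd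
    have h2 : ContinuousAt (fun p : Y × E3 => Ψ (p.1, nv p.2)) (y, v) :=
      hΨ.continuousAt.comp (continuousAt_fst.prodMk h1)
    have h3 : Continuous (fun p : Y × E3 => min 1 (5 * ‖p.2‖)) := by fun_prop
    exact h3.continuousAt.smul h2

end Pool.Agent.H4Z.Belt
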