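import Pool.Agent.H4Z.BeltA

/-! The rotation family on the sphere cannot be deformed to a family of points. -/

set_option autoImplicit false

open Set unitInterval Quaternion Filter Topology

namespace Pool.Agent.H4Z.Belt

theorem no_family (Ψ : (I × I) × S2 → ℍ) (hΨ : Continuous Ψ) (hne : ∀ p, Ψ p ≠ 0)
    (h0 : ∀ a s s', Ψ ((a, 0), s) = Ψ ((a, 0), s'))
    (h1 : ∀ a s s', Ψ ((a, 1), s) = Ψ ((a, 1), s'))
    (h2 : ∀ t s s', Ψ ((1, t), s) = Ψ ((1, t), s'))
    (hodd : ∀ t s, Ψ ((0, σ t), -s) = - Ψ ((0, t), s)) : False := by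
  let v : (Fin 5 → ℝ) → E3 := fun x => !₂[x 2, x 3, x 4]
  let y : (Fin 5 → ℝ) → I × I := fun x =>
    (projIcc 0 1 zero_le_one (10 * x 0 - 1), projIcc 0 1 zero_le_one (1 / 2 + 5 * x 1))
  let e0 : S2 := nv 0
  let D : (I × I) × E3 → ℍ := fun p =>
    Ψ (p.1, e0) - min 1 (5 * ‖p.2‖) • Ψ (p.1, e0) + min 1 (5 * ‖p.2‖) • Ψ (p.1, nv p.2)
  have Dc : Continuous D := by
    have := polar_continuous Ψ hΨ
    refine Continuous.add ?_ this
    fun_prop
  have vc : Continuous v := by fun_prop
  have yc : Continuous y := by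
    have := continuous_projIcc (a := (0 : ℝ)) (b := 1) (h := zero_le_one)
    fun_prop
  let F : (Fin 5 → ℝ) → ℍ := fun x => max 0 (x 0 + 1 / 10) • D (y x, v x)
  have Fc : Continuous F := by fun_prop
  let G : (Fin 5 → ℝ) → ℍ := fun x => F x - F (-x)
  have Gc : Continuous G := by fun_prop
  let f : (Fin 5 → ℝ) → (Fin 4 → ℝ) := fun x => ![(G x).re, (G x).imI, (G x).imJ, (G x).imK]
  have fc : Continuous f := by
    refine continuous_pi fun i => ?_
    fin_cases i
    · exact continuous_re.comp Gc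
    · exact continuous_imI.comp Gc
    · exact continuous_imJ.comp Gc
    · exact continuous_imK.comp Gc
  have fodd : ∀ x, f (-x) = - f x := by
    intro x
    have : G (-x) = - G x := by simp [G]
    funext i
    fin_cases i <;> simp [f, this]
  obtain ⟨x, hxK, hx⟩ := Helper82.BorsukUlam.borsuk_ulam 4 f fc fodd
  have hG : G x = 0 := by
    ext
    · simpa [f] using congrFun hx 0
    · simpa [f] using congrFun hx 1
    · simpa [f] using congrFun hx 2
    · simpa [f] using congrFun hx 3
  -- on the cross polytope `D` is given by `Ψ`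
  have hD : ∀ z : Fin 5 → ℝ, (∑ i, |z i| = 1) → -(1 / 10) ≤ z 0 → ∀ s : S2,
      v z = ‖v z‖ • (s : E3) → D (y z, v z) = Ψ (y z, s) := by
    intro z hz hz0 s hs
    by_cases hc : ∀ s s', Ψ (y z, s) = Ψ (y z, s')
    · simp only [D]
      rw [hc (nv (v z)) e0, hc s e0]
      abel
    · have c1 : z 0 < 1 / 5 := by
        by_contra hh
        apply hc
        have : (y z).1 = 1 := projIcc_of_right_le zero_le_one (by linarith)
        intro s s'
        have e : y z = (1, (y z).2) := Prod.ext this rfl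
        rw [e]; exact h2 _ _ _
      have c2 : z 1 < 1 / 10 := by
        by_contra hh
        apply hc
        have : (y z).2 = 1 := projIcc_of_right_le zero_le_one (by linarith)
        intro s s'
        have e : y z = ((y z).1, 1) := Prod.ext rfl this
        rw [e]; exact h1 _ _ _
      have c3 : -(1 / 10) < z 1 := by
        by_contra hh
        apply hc
        have : (y z).2 = 0 := projIcc_of_le_left zero_le_one (by linarith)
        intro s s'
        have e : y z = ((y z).1, 0) := Prod.ext rfl this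
        rw [e]; exact h0 _ _ _
      rw [Fin.sum_univ_five] at hz
      have b0 : |z 0| ≤ 1 / 5 := abs_le.2 ⟨by linarith, c1.le⟩
      have b1 : |z 1| ≤ 1 / 10 := abs_le.2 ⟨c3.le, c2.le⟩
      have b2 : |z 2| ≤ ‖v z‖ := by simpa [v] using PiLp.norm_apply_le (v z) 0
      have b3 : |z 3| ≤ ‖v z‖ := by simpa [v] using PiLp.norm_apply_le (v z) 1
      have b4 : |z 4| ≤ ‖v z‖ := by simpa [v] using PiLp.norm_apply_le (v z) 2
      have b5 : 1 ≤ 5 * ‖v z‖ := by linarith
      have b6 : v z ≠ 0 := by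
        intro hh; rw [hh] at b5; norm_num at b5
      simp only [D]
      rw [min_eq_left b5, nv_eq b6 s hs]
      simp
  have hxK' : ∑ i, |x i| = 1 := hxK
  have hxK'' : ∑ i, |(-x) i| = 1 := by simpa using hxK'
  have vneg : v (-x) = - v x := by
    ext i; fin_cases i <;> simp [v]
  have hs := nv_spec (v x)
  have hs' : v (-x) = ‖v (-x)‖ • ((-(nv (v x)) : S2) : E3) := by
    rw [vneg, norm_neg, coe_neg_sphere, smul_neg, ← hs]
  have hF : F x = F (-x) := sub_eq_zero.1 hG
  simp only [F, Pi.neg_apply] at hF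
  rcases lt_or_ge (1 / 10) (x 0) with hc | hc
  · rw [max_eq_left (by linarith : -x 0 + 1 / 10 ≤ 0), zero_smul,
      max_eq_right (by linarith : 0 ≤ x 0 + 1 / 10), hD x hxK' (by linarith) _ hs] at hF
    rcases smul_eq_zero.1 hF with h | h
    · linarith
    · exact hne _ h
  rcases lt_or_ge (x 0) (-(1 / 10)) with hc' | hc'
  · rw [max_eq_left (by linarith : x 0 + 1 / 10 ≤ 0), zero_smul,
      max_eq_right (by linarith : 0 ≤ -x 0 + 1 / 10),
      hD (-x) hxK'' (by simp only [Pi.neg_apply]; linarith) _ hs'] at hF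
    rcases smul_eq_zero.1 hF.symm with h | h
    · linarith
    · exact hne _ h
  · rw [max_eq_right (by linarith : 0 ≤ -x 0 + 1 / 10),
      max_eq_right (by linarith : 0 ≤ x 0 + 1 / 10), hD x hxK' (by linarith) _ hs,
      hD (-x) hxK'' (by simp only [Pi.neg_apply]; linarith) _ hs'] at hF
    have e1 : y x = (0, (y x).2) := Prod.ext (projIcc_of_le_left zero_le_one (by linarith)) rfl
    have e2 : y (-x) = (0, σ (y x).2) := by
      refine Prod.ext (projIcc_of_le_left zero_le_one (by simp only [Pi.neg_apply]; linarith)) ?_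
      apply Subtype.ext
      simp only [y, coe_symm_eq, coe_projIcc, Pi.neg_apply]
      rcases le_total (1 / 10) (x 1) with h | h
      · rw [min_eq_left (by linarith : 1 ≤ 1 / 2 + 5 * x 1),
          min_eq_right (by linarith : 1 / 2 + 5 * -x 1 ≤ 1),
          max_eq_left (by linarith : 1 / 2 + 5 * -x 1 ≤ 0)]
        simp
      rcases le_total (x 1) (-(1 / 10)) with h' | h'
      · rw [min_eq_left (by linarith : 1 ≤ 1 / 2 + 5 * -x 1),
          min_eq_right (by linarith : 1 / 2 + 5 * x 1 ≤ 1),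
          max_eq_left (by linarith : 1 / 2 + 5 * x 1 ≤ 0)]
        simp
      · rw [min_eq_right (by linarith : 1 / 2 + 5 * -x 1 ≤ 1),
          min_eq_right (by linarith : 1 / 2 + 5 * x 1 ≤ 1),
          max_eq_right (by linarith : 0 ≤ 1 / 2 + 5 * x 1),
          max_eq_right (by linarith : 0 ≤ 1 / 2 + 5 * -x 1)]
        ring
    rw [e2, hodd, ← e1, smul_neg, eq_neg_iff_add_eq_zero, ← add_smul] at hF
    rcases smul_eq_zero.1 hF with h | h
    · linarith
    · exact hne _ h

/-- the unit quaternion `cos (π t) + sin (π t) i` -/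
noncomputable def ee (t : ℝ) : ℍ := mkq (Real.cos (Real.pi * t)) (Real.sin (Real.pi * t)) 0 0

theorem ee_eq : ee = fun t : ℝ => Real.cos (Real.pi * t) • (1 : ℍ) +
    Real.sin (Real.pi * t) • mkq 0 1 0 0 := by
  funext t; ext <;> simp [ee]

@[fun_prop] theorem continuous_ee : Continuous ee := by
  rw [ee_eq]; fun_prop

theorem ee_zero : ee 0 = 1 := by ext <;> simp [ee]
theorem ee_one : ee 1 = -1 := by ext <;> simp [ee]

theorem star_mul_ee (t : ℝ) : star (ee t) * ee t = 1 := by
  have := Real.sin_sq_add_cos_sq (Real.pi * t)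
  ext <;> simp [ee] <;> nlinarith

theorem ee_ne (t : ℝ) : ee t ≠ 0 := fun h => by
  have := star_mul_ee t
  rw [h, mul_zero] at this
  exact zero_ne_one this

theorem no_contraction (H : I × (S2 × I) → S2) (hH : Continuous H)
    (hcl : ∀ τ s, H (τ, s, 0) = H (τ, s, 1))
    (hzero : ∀ s (t : I), io (H (0, s, t)) = ee t * io s * star (ee t))
    (hone : ∀ s t, H (1, s, t) = H (1, s, 0)) : False := by
  obtain ⟨U, Uc, Une, U0, Ucomm, Unat⟩ := exists_lift H hH
  let G : I × (S2 × I) → ℍ := fun p => (U (p.1, p.2.1, 0))⁻¹ * U p * ee p.2.2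
  have Gc : Continuous G := by
    refine Continuous.mul (Continuous.mul (Continuous.inv₀ (by fun_prop) fun p => Une _) Uc) ?_
    fun_prop
  have Gne : ∀ p, G p ≠ 0 := fun p =>
    mul_ne_zero (mul_ne_zero (inv_ne_zero (Une _)) (Une _)) (ee_ne _)
  have G0 : ∀ τ s, G (τ, s, 0) = 1 := fun τ s => by
    simp only [G]
    rw [inv_mul_cancel₀ (Une _)]
    simp [ee_zero]
  have G1 : ∀ τ s, G (τ, s, 1) = -1 := fun τ s => by
    simp only [G]
    rw [Unat (s, 0) (s, 1) (fun τ => hcl τ s) τ, inv_mul_cancel₀ (Une _)]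
    simp [ee_one]
  have Gz : ∀ s t, G (0, s, t) = ee t := fun s t => by
    simp only [G]
    rw [U0 (s, 0) (s, t), inv_mul_cancel₀ (Une _), one_mul]
  have Gcomm : ∀ s t, G (1, s, t) * io s = io s * G (1, s, t) := fun s t => by
    have a1 := Ucomm 1 (s, t)
    have a2 := Ucomm 1 (s, 0)
    rw [hzero, hone] at a1
    rw [hzero] at a2
    simp only [Set.Icc.coe_zero, ee_zero, one_mul, star_one, mul_one] at a2
    have a3 : (U (1, s, 0))⁻¹ * io (H (1, s, 0)) = io s * (U (1, s, 0))⁻¹ := by
      rw [inv_mul_eq_iff_eq_mul₀ (Une _), ← mul_assoc, a2, mul_assoc, mul_inv_cancel₀ (Une _),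
        mul_one]
    have a4 : U (1, s, t) * ee t * io s = io (H (1, s, 0)) * U (1, s, t) * ee t := by
      rw [← a1]
      simp only [mul_assoc, star_mul_ee, mul_one]
    simp only [G]
    calc (U (1, s, 0))⁻¹ * U (1, s, t) * ee t * io s
        = (U (1, s, 0))⁻¹ * (U (1, s, t) * ee t * io s) := by simp only [mul_assoc]
      _ = ((U (1, s, 0))⁻¹ * io (H (1, s, 0))) * U (1, s, t) * ee t := by
        rw [a4]; simp only [mul_assoc]
      _ = io s * ((U (1, s, 0))⁻¹ * U (1, s, t) * ee t) := by rw [a3]; simp only [mul_assoc]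
  -- the complex coordinate and its logarithm
  let z : I × S2 → ℂ := fun p => co p.2 (G (1, p.2, p.1))
  have hz : ∀ t s, ph s (z (t, s)) = G (1, s, t) := fun t s => ph_co _ _ (Gcomm s t)
  have zne : ∀ p, z p ≠ 0 := by
    rintro ⟨t, s⟩ h
    have := hz t s
    rw [h] at this
    apply Gne (1, s, t)
    rw [← this]; simp [ph]
  have zc : Continuous z := by
    have g1 : Continuous (fun p : I × S2 => G (1, p.2, p.1)) := by fun_prop
    have r1 := continuous_re.comp g1
    have r2 := continuous_imI.comp g1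
    have r3 := continuous_imJ.comp g1
    have r4 := continuous_imK.comp g1
    have e : z = fun p => (((G (1, p.2, p.1)).re : ℝ) : ℂ) +
        (((G (1, p.2, p.1)).imI * (p.2 : E3) 0 + (G (1, p.2, p.1)).imJ * (p.2 : E3) 1 +
          (G (1, p.2, p.1)).imK * (p.2 : E3) 2 : ℝ) : ℂ) * Complex.I := by
      funext p
      apply Complex.ext <;> simp [z, co]
    rw [e]
    refine (Complex.continuous_ofReal.comp r1).add
      ((Complex.continuous_ofReal.comp ?_).mul continuous_const)
    exact ((r2.mul (by fun_prop)).add (r3.mul (by fun_prop))).add (r4.mul (by fun_prop))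
  have z0 : ∀ s, z (0, s) = 1 := fun s => by
    simp only [z, G0]
    apply Complex.ext <;> simp [co]
  have z1 : ∀ s, z (1, s) = -1 := fun s => by
    simp only [z, G1]
    apply Complex.ext <;> simp [co]
  let Z : C(I × S2, {z : ℂ // z ≠ 0}) := ⟨fun p => ⟨z p, zne p⟩, zc.subtype_mk _⟩
  have cov := Complex.isCoveringMap_exp
  have HZ : ∀ s, Z (0, s) = (fun w : ℂ => (⟨_, w.exp_ne_zero⟩ : {z : ℂ // z ≠ 0}))
      ((ContinuousMap.const S2 (0 : ℂ)) s) := fun s => by
    apply Subtype.ext
    simp [Z, z0]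
  let ζ := cov.liftHomotopy Z (ContinuousMap.const S2 0) HZ
  have ζexp : ∀ p, Complex.exp (ζ p) = z p := fun p =>
    congrArg Subtype.val (congrFun (cov.liftHomotopy_lifts Z (ContinuousMap.const S2 0) HZ) p)
  have ζ0 : ∀ s, ζ (0, s) = 0 := fun s => cov.liftHomotopy_zero Z _ HZ s
  have ζc : Continuous ζ := ζ.continuous
  have hconn : PreconnectedSpace S2 := by
    refine isPreconnected_iff_preconnectedSpace.1 (isPreconnected_sphere ?_ _ _)
    rw [← Module.finrank_eq_rank, finrank_euclideanSpace_fin]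
    norm_num
  have ζ1 : ∀ s s', ζ (1, s) = ζ (1, s') :=
    cov.const_of_comp (g := fun s => ζ (1, s)) (by fun_prop) (fun s s' => by
      apply Subtype.ext
      simp only [ζexp, z1])
  obtain ⟨c, hc⟩ : ∃ c, c = ζ (1, nv 0) := ⟨_, rfl⟩
  have cexp : Complex.exp c = -1 := by rw [hc, ζexp, z1]
  have cre : c.re = 0 := by
    have := congrArg norm cexp
    rw [Complex.norm_exp] at this
    simpa using this
  let X : (I × I) × S2 → ℍ := fun p => ph p.2 (Complex.exp
    (((1 - (p.1.1 : ℝ) : ℝ) : ℂ) * (c * ((p.1.2 : ℝ) : ℂ)) + ((p.1.1 : ℝ) : ℂ) * ζ (p.1.2, p.2)))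
  have Xc : Continuous X := by
    simp only [X, ph]
    fun_prop
  refine no_family (fun p => X p * (G (1, p.2, p.1.2))⁻¹ * G (σ p.1.1, p.2, p.1.2)) ?_ ?_ ?_ ?_
    ?_ ?_
  · refine (Xc.mul (Continuous.inv₀ (by fun_prop) fun p => Gne _)).mul ?_
    have := continuous_symm
    fun_prop
  · intro p
    exact mul_ne_zero (mul_ne_zero (ph_ne _ (Complex.exp_ne_zero _)) (inv_ne_zero (Gne _))) (Gne _)
  · intro a s s'
    simp [X, G0, ζ0, ph]
  · intro a s s'
    have e : ∀ s, (((1 - (a : ℝ) : ℝ) : ℂ) * (c * (((1 : I) : ℝ) : ℂ)) + ((a : ℝ) : ℂ) * ζ (1, s))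
        = c := fun s => by
      rw [ζ1 s (nv 0), ← hc]; push_cast; simp; ring
    simp only [X, G1, e, cexp]
    simp [ph]
  · intro t s s'
    have e : ∀ s, X ((1, t), s) = G (1, s, t) := fun s => by
      simp only [X]
      rw [← hz, ← ζexp]
      simp
    simp only [e, symm_one, Gz]
    rw [mul_inv_cancel₀ (Gne _), mul_inv_cancel₀ (Gne _)]
  · intro t s
    simp only [symm_zero]
    rw [mul_assoc, mul_assoc, inv_mul_cancel₀ (Gne _), inv_mul_cancel₀ (Gne _), mul_one, mul_one]
    simp only [X, Set.Icc.coe_zero, sub_zero, Complex.ofReal_one, one_mul, Complex.ofReal_zero,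
      zero_mul, add_zero, coe_symm_eq]
    have e : Complex.exp (c * ((1 - (t : ℝ) : ℝ) : ℂ)) =
        - (starRingEnd ℂ) (Complex.exp (c * ((t : ℝ) : ℂ))) := by
      rw [← Complex.exp_conj, ← neg_one_mul, ← cexp, ← Complex.exp_add]
      congr 1
      apply Complex.ext <;> simp [cre]
      ring
    rw [e]
    simp only [ph, coe_neg_sphere, io_neg]
    simp
    abel

end Pool.Agent.H4Z.Belt
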