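import Pool.Agent.H4Z.BeltB

/-! The doubled rotation family contracts smoothly (the belt trick). -/

set_option autoImplicit false

open Set unitInterval Quaternion Filter Topology
open scoped ContDiff

namespace Pool.Agent.H4Z.Belt

noncomputable def ioL : E3 →ₗ[ℝ] ℍ where
  toFun := io
  map_add' v w := by ext <;> simp
  map_smul' a v := by ext <;> simp

noncomputable def prL : ℍ →ₗ[ℝ] E3 where
  toFun := pr
  map_add' v w := by ext i; fin_cases i <;> simp
  map_smul' a v := by ext i; fin_cases i <;> simp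

noncomputable def stL : ℍ →ₗ[ℝ] ℍ where
  toFun := star
  map_add' v w := by simp
  map_smul' a v := by simp

@[fun_prop] theorem contDiff_io : ContDiff ℝ ∞ io :=
  (LinearMap.toContinuousLinearMap ioL).contDiff

@[fun_prop] theorem contDiff_pr : ContDiff ℝ ∞ pr :=
  (LinearMap.toContinuousLinearMap prL).contDiff

theorem contDiff_st : ContDiff ℝ ∞ (fun q : ℍ => star q) :=
  (LinearMap.toContinuousLinearMap stL).contDiff

/-- the second factor of the contracting loop of unit quaternions -/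
noncomputable def ff (τ t : ℝ) : ℍ := mkq (Real.cos (Real.pi * t))
  (Real.sin (Real.pi * t) * Real.cos (Real.pi * τ))
  (Real.sin (Real.pi * t) * Real.sin (Real.pi * τ)) 0

theorem ff_eq (τ t : ℝ) : ff τ t = Real.cos (Real.pi * t) • (1 : ℍ) +
    (Real.sin (Real.pi * t) * Real.cos (Real.pi * τ)) • mkq 0 1 0 0 +
    (Real.sin (Real.pi * t) * Real.sin (Real.pi * τ)) • mkq 0 0 1 0 := by
  ext <;> simp [ff]

theorem normSq_ee (t : ℝ) : normSq (ee t) = 1 := by
  have := Real.sin_sq_add_cos_sq (Real.pi * t)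
  rw [normSq_def']; simp [ee]

theorem normSq_ff (τ t : ℝ) : normSq (ff τ t) = 1 := by
  have h1 := Real.sin_sq_add_cos_sq (Real.pi * t)
  have h2 := Real.sin_sq_add_cos_sq (Real.pi * τ)
  rw [normSq_def']; simp only [ff, mkq_re, mkq_imI, mkq_imJ, mkq_imK]
  linear_combination h1 + Real.sin (Real.pi * t) ^ 2 * h2

/-- rotation of a vector by a quaternion -/
noncomputable def rot (q : ℍ) (v : E3) : E3 := pr (q * io v * star q)

theorem io_rot (q : ℍ) (v : E3) : io (rot q v) = q * io v * star q := by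
  apply io_pr
  simp; ring

theorem rot_mem (q : ℍ) (hq : normSq q = 1) (s : S2) : rot q s ∈ S2 := by
  have h1 : normSq (io (rot q s)) = 1 := by
    rw [io_rot, map_mul, map_mul, normSq_star, hq, normSq_io]
    simp
  rw [normSq_io] at h1
  have h2 : ‖rot q s‖ = 1 := by
    have := norm_nonneg (rot q s)
    nlinarith
  simpa using h2

theorem rot_one (v : E3) : rot 1 v = v := by simp [rot, pr_io]

theorem rot_neg (q : ℍ) (v : E3) : rot (-q) v = rot q v := by simp [rot]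

/-- the rotation family -/
noncomputable def Gam (p : E3 × ℝ) : E3 := rot (ee p.2) p.1

/-- the contraction of the doubled family -/
noncomputable def Con (p : (ℝ × E3) × ℝ) : E3 := rot (ee p.2 * ff p.1.1 p.2) p.1.2

theorem contDiff_ee : ContDiff ℝ ∞ ee := by
  rw [ee_eq]; fun_prop

theorem contDiff_rot {X : Type*} [NormedAddCommGroup X] [NormedSpace ℝ X] {q : X → ℍ}
    {v : X → E3} (hq : ContDiff ℝ ∞ q) (hv : ContDiff ℝ ∞ v) :
    ContDiff ℝ ∞ (fun x => rot (q x) (v x)) :=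
  contDiff_pr.comp ((hq.mul (contDiff_io.comp hv)).mul (contDiff_st.comp hq))

theorem contDiff_Gam : ContDiff ℝ ∞ Gam :=
  contDiff_rot (contDiff_ee.comp contDiff_snd) contDiff_fst

theorem contDiff_Con : ContDiff ℝ ∞ Con := by
  refine contDiff_rot ((contDiff_ee.comp contDiff_snd).mul ?_) (by fun_prop)
  simp only [ff_eq]
  fun_prop

theorem Gam_mem (s : S2) (t : ℝ) : Gam (s, t) ∈ S2 := rot_mem _ (normSq_ee t) s

theorem Con_mem (τ : ℝ) (s : S2) (t : ℝ) : Con ((τ, s), t) ∈ S2 :=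
  rot_mem _ (by rw [map_mul, normSq_ee, normSq_ff, one_mul]) s

theorem Gam_explicit (v : E3) (t : ℝ) : Gam (v, t) = !₂[v 0,
    Real.cos (2 * Real.pi * t) * v 1 - Real.sin (2 * Real.pi * t) * v 2,
    Real.sin (2 * Real.pi * t) * v 1 + Real.cos (2 * Real.pi * t) * v 2] := by
  have h1 := Real.sin_sq_add_cos_sq (Real.pi * t)
  rw [mul_assoc, Real.cos_two_mul, Real.sin_two_mul]
  ext i; fin_cases i
  · simp [Gam, rot, ee]; linear_combination v 0 * h1
  · simp [Gam, rot, ee]; linear_combination -v 1 * h1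
  · simp [Gam, rot, ee]; linear_combination -v 2 * h1

theorem Gam_closed (v : E3) : Gam (v, 0) = Gam (v, 1) := by
  simp [Gam, ee_zero, ee_one, rot_neg]

theorem Con_closed (τ : ℝ) (v : E3) : Con ((τ, v), 0) = Con ((τ, v), 1) := by
  have h0 : ff τ 0 = 1 := by ext <;> simp [ff]
  have h1 : ff τ 1 = -1 := by ext <;> simp [ff]
  simp [Con, ee_zero, ee_one, h0, h1]

theorem Con_one (v : E3) (t : ℝ) : Con ((1, v), t) = v := by
  have h : ee t * ff 1 t = 1 := by
    have h1 := Real.sin_sq_add_cos_sq (Real.pi * t)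
    ext <;> simp [ee, ff] <;> nlinarith
  simp only [Con, h, rot_one]

theorem Gam_fract (v : E3) (t : ℝ) : Gam (v, Int.fract t) = Gam (v, t) := by
  rw [Gam_explicit, Gam_explicit]
  have e : 2 * Real.pi * Int.fract t = 2 * Real.pi * t - (⌊t⌋ : ℤ) * (2 * Real.pi) := by
    rw [Int.fract]; ring
  rw [e, Real.cos_sub_int_mul_two_pi, Real.sin_sub_int_mul_two_pi]

theorem Con_zero (v : E3) (t : ℝ) : Con ((0, v), t) = Gam (v, Int.fract (2 * t)) := by
  rw [Gam_fract]
  have h : ee t * ff 0 t = ee (2 * t) := by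
    have e : Real.pi * (2 * t) = 2 * (Real.pi * t) := by ring
    have h1 := Real.sin_sq_add_cos_sq (Real.pi * t)
    ext <;> simp [ee, ff, e, Real.cos_two_mul, Real.sin_two_mul] <;> nlinarith
  simp only [Con, h, Gam]

theorem deriv_slice {A B : Type*} [NormedAddCommGroup A] [NormedSpace ℝ A] [NormedAddCommGroup B]
    [NormedSpace ℝ B] (F : A × ℝ → B) (hF : ContDiff ℝ ∞ F) (a : A) (t : ℝ) :
    ‖deriv (fun u => F (a, u)) t‖ ≤ ‖fderiv ℝ F (a, t)‖ := by
  have hd : HasFDerivAt F (fderiv ℝ F (a, t)) (a, t) :=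
    (hF.differentiable (by simp) _).hasFDerivAt
  have h2 : HasDerivAt (fun u : ℝ => ((a, u) : A × ℝ)) ((0 : A), (1 : ℝ)) t :=
    (hasDerivAt_const t _).prodMk (hasDerivAt_id t)
  have h3 : HasDerivAt (fun u => F (a, u)) (fderiv ℝ F (a, t) ((0 : A), (1 : ℝ))) t :=
    HasFDerivAt.comp_hasDerivAt (l := F) (f := fun u : ℝ => ((a, u) : A × ℝ)) t hd h2
  rw [h3.deriv]
  refine (ContinuousLinearMap.le_opNorm _ _).trans ?_
  have h5 : ‖(((0 : A), (1 : ℝ)) : A × ℝ)‖ = 1 := by simp [Prod.norm_def]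
  rw [h5, mul_one]

theorem speed_aux {A B : Type*} [NormedAddCommGroup A] [NormedSpace ℝ A] [NormedAddCommGroup B]
    [NormedSpace ℝ B] (F : (ℝ × A) × ℝ → B) (hF : ContDiff ℝ ∞ F) (K : Set A) (hK : IsCompact K) :
    ∃ C : ℝ, 0 ≤ C ∧ ∀ τ ∈ Icc (0 : ℝ) 1, ∀ s ∈ K, ∀ t ∈ Icc (0 : ℝ) 1,
    ‖deriv (fun u => F ((τ, s), u)) t‖ ≤ C := by
  have hc : Continuous (fderiv ℝ F) := hF.continuous_fderiv (by simp)
  have hK' : IsCompact ((Icc (0 : ℝ) 1 ×ˢ K) ×ˢ Icc (0 : ℝ) 1) :=
    (isCompact_Icc.prod hK).prod isCompact_Icc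
  obtain ⟨C, hC⟩ := hK'.exists_bound_of_continuousOn hc.continuousOn
  refine ⟨max C 0, le_max_right _ _, fun τ hτ s hs t ht => ?_⟩
  refine (deriv_slice F hF _ t).trans ?_
  exact (hC _ ⟨⟨hτ, hs⟩, ht⟩).trans (le_max_left _ _)

theorem speed_bound : ∃ C : ℝ, 0 ≤ C ∧ ∀ τ ∈ Icc (0 : ℝ) 1, ∀ s ∈ S2, ∀ t ∈ Icc (0 : ℝ) 1,
    ‖deriv (fun u => Con ((τ, s), u)) t‖ ≤ C :=
  speed_aux Con contDiff_Con S2 (isCompact_sphere _ _)

end Pool.Agent.H4Z.Belt
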