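import Mathlib

/-! Chains of cliques in an ordered two-coloured complete graph: basic definitions and lemmas. -/

set_option autoImplicit false

namespace Pool.Agent.H4Z.OR

open Finset

/-- `z` is a clique of the relation `r` (read on increasing pairs). -/
def Cl (r : ℕ → ℕ → Prop) (z : Finset ℕ) : Prop := ∀ u ∈ z, ∀ v ∈ z, u < v → r u v

/-- every element of `A` is smaller than every element of `B`. -/
def Lt (A B : Finset ℕ) : Prop := ∀ u ∈ A, ∀ v ∈ B, u < v

/-- `x` lies below `y` and is completely joined to it. -/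
def Conn (r : ℕ → ℕ → Prop) (x y : Finset ℕ) : Prop := ∀ u ∈ x, ∀ v ∈ y, u < v ∧ r u v

/-- `x` is a `t`-clique inside `U`. -/
def TS (r : ℕ → ℕ → Prop) (t : ℕ) (U x : Finset ℕ) : Prop := x ⊆ U ∧ x.card = t ∧ Cl r x

/-- a block: two `t`-cliques with an `m`-clique between them, all joined. -/
def Blk (r : ℕ → ℕ → Prop) (t m : ℕ) (U X M Y : Finset ℕ) : Prop :=
  TS r t U X ∧ TS r t U Y ∧ M ⊆ U ∧ M.card = m ∧ Cl r M ∧ Conn r X M ∧ Conn r M Y ∧ Conn r X Y

/-- chains of `t`-cliques; the number counts blocks. -/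
inductive Ch (r : ℕ → ℕ → Prop) (t m : ℕ) (U : Finset ℕ) : Finset ℕ → Finset ℕ → ℕ → Prop
  | refl (x : Finset ℕ) : TS r t U x → Ch r t m U x x 0
  | step (x y z : Finset ℕ) (l : ℕ) : Ch r t m U x y l → TS r t U z → Conn r y z →
      Ch r t m U x z l
  | block (x y M z : Finset ℕ) (l : ℕ) : Ch r t m U x y l → Blk r t m U y M z →
      Ch r t m U x z (l + 1)

/-- `U` holds a chain with `l` blocks. -/
def Has (r : ℕ → ℕ → Prop) (t m : ℕ) (U : Finset ℕ) (l : ℕ) : Prop := ∃ x y, Ch r t m U x y l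

variable {r : ℕ → ℕ → Prop} {t m : ℕ}

theorem Cl.mono {z z' : Finset ℕ} (h : Cl r z) (hs : z' ⊆ z) : Cl r z' :=
  fun u hu v hv huv => h u (hs hu) v (hs hv) huv

theorem Conn.mono {x y x' y' : Finset ℕ} (h : Conn r x y) (hx : x' ⊆ x) (hy : y' ⊆ y) :
    Conn r x' y' := fun u hu v hv => h u (hx hu) v (hy hv)

theorem TS.mono {U V x : Finset ℕ} (h : TS r t U x) (hs : U ⊆ V) : TS r t V x :=
  ⟨h.1.trans hs, h.2.1, h.2.2⟩

theorem Blk.mono {U V X M Y : Finset ℕ} (h : Blk r t m U X M Y) (hs : U ⊆ V) :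
    Blk r t m V X M Y :=
  ⟨h.1.mono hs, h.2.1.mono hs, h.2.2.1.trans hs, h.2.2.2⟩

theorem Ch.mono {U V x y : Finset ℕ} {l : ℕ} (h : Ch r t m U x y l) (hs : U ⊆ V) :
    Ch r t m V x y l := by
  induction h with
  | refl hx => exact Ch.refl _ (hx.mono hs)
  | step y z l _ hz hc ih => exact Ch.step _ y z l ih (hz.mono hs) hc
  | block y M z l _ hb ih => exact Ch.block _ y M z l ih (hb.mono hs)

theorem Has.mono {U V : Finset ℕ} {l : ℕ} (h : Has r t m U l) (hs : U ⊆ V) : Has r t m V l := by
  obtain ⟨x, y, h⟩ := h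
  exact ⟨x, y, h.mono hs⟩

theorem Ch.ts {U x y : Finset ℕ} {l : ℕ} (h : Ch r t m U x y l) : TS r t U y := by
  induction h with
  | refl hx => exact hx
  | step y z l _ hz _ _ => exact hz
  | block y M z l _ hb _ => exact hb.2.1

theorem Ch.trans {U x y z : Finset ℕ} {l l' : ℕ} (h : Ch r t m U x y l) (h' : Ch r t m U y z l') :
    Ch r t m U x z (l + l') := by
  induction h' with
  | refl _ => exact h
  | step y' z l' _ hz hc ih => exact Ch.step _ y' z _ ih hz hc
  | block y' M z l' _ hb ih => exact Ch.block _ y' M z _ ih hb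

theorem Ch.drop {U x y : Finset ℕ} {l : ℕ} (h : Ch r t m U x y l) :
    ∀ l' ≤ l, Ch r t m U x y l' := by
  induction h with
  | refl hx =>
    intro l' hl
    obtain rfl : l' = 0 := by omega
    exact Ch.refl _ hx
  | step y z l _ hz hc ih => exact fun l' hl => Ch.step _ y z _ (ih l' hl) hz hc
  | block y M z l _ hb ih =>
    intro l' hl
    rcases l' with _ | l'
    · exact Ch.step _ y z _ (ih 0 (by omega)) hb.2.1 hb.2.2.2.2.2.2.2
    · exact Ch.block _ y M z _ (ih l' (by omega)) hb

theorem Has.drop {U : Finset ℕ} {l l' : ℕ} (h : Has r t m U l) (hl : l' ≤ l) :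
    Has r t m U l' := by
  obtain ⟨x, y, h⟩ := h
  exact ⟨x, y, h.drop l' hl⟩

theorem TS.nonempty {U x : Finset ℕ} (ht : 1 ≤ t) (h : TS r t U x) : x.Nonempty := by
  rw [← card_pos, h.2.1]; omega

theorem Ch.order {U x y : Finset ℕ} {l : ℕ} (ht : 1 ≤ t) (h : Ch r t m U x y l) (u : ℕ)
    (hu : ∀ v ∈ x, u < v) : ∀ v ∈ y, u < v := by
  induction h with
  | refl _ => exact hu
  | step y z l hc _ hcn ih =>
    intro v hv
    obtain ⟨w, hw⟩ := hc.ts.nonempty ht
    exact (ih w hw).trans (hcn w hw v hv).1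
  | block y M z l hc hb ih =>
    intro v hv
    obtain ⟨w, hw⟩ := hc.ts.nonempty ht
    exact (ih w hw).trans (hb.2.2.2.2.2.2.2 w hw v hv).1

/-- the data of a chain with `l` blocks. -/
def CD (r : ℕ → ℕ → Prop) (t m : ℕ) (U : Finset ℕ) (l : ℕ) (X M Y : ℕ → Finset ℕ) : Prop :=
  (∀ i < l, Blk r t m U (X i) (M i) (Y i)) ∧
    (∀ i j, i < j → j < l → Ch r t m U (Y i) (X j) (j - i - 1))

theorem CD.mono {U V : Finset ℕ} {l : ℕ} {X M Y : ℕ → Finset ℕ} (h : CD r t m U l X M Y)
    (hs : U ⊆ V) : CD r t m V l X M Y :=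
  ⟨fun i hi => (h.1 i hi).mono hs, fun i j hij hj => (h.2 i j hij hj).mono hs⟩

theorem Ch.data {U x y : Finset ℕ} {l : ℕ} (h : Ch r t m U x y l) :
    ∃ X M Y : ℕ → Finset ℕ, CD r t m U l X M Y ∧ ∀ i < l, Ch r t m U (Y i) y (l - i - 1) := by
  induction h with
  | refl _ =>
    exact ⟨fun _ => ∅, fun _ => ∅, fun _ => ∅, ⟨fun i hi => by omega, fun i j _ hj => by omega⟩,
      fun i hi => by omega⟩
  | step y z l _ hz hc ih =>
    obtain ⟨X, M, Y, hd, he⟩ := ih
    exact ⟨X, M, Y, hd, fun i hi => Ch.step _ y z _ (he i hi) hz hc⟩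
  | block y M' z l _ hb ih =>
    obtain ⟨X, M, Y, hd, he⟩ := ih
    refine ⟨fun i => if i = l then y else X i, fun i => if i = l then M' else M i,
      fun i => if i = l then z else Y i, ⟨?_, ?_⟩, ?_⟩
    · intro i hi
      by_cases hil : i = l
      · simp only [hil, if_true]; exact hb
      · simp only [hil, if_false]; exact hd.1 i (by omega)
    · intro i j hij hj
      have hil : i ≠ l := by omega
      by_cases hjl : j = l
      · simp only [hil, hjl, if_true, if_false]; exact he i (by omega)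
      · simp only [hil, hjl, if_false]; exact hd.2 i j hij (by omega)
    · intro i hi
      by_cases hil : i = l
      · simp only [hil, if_true]
        have : l + 1 - l - 1 = 0 := by omega
        rw [this]; exact Ch.refl _ hb.2.1
      · simp only [hil, if_false]
        have : l + 1 - i - 1 = (l - i - 1) + 1 := by omega
        rw [this]; exact Ch.block _ y M' z _ (he i (by omega)) hb

theorem CD.lt {U : Finset ℕ} {l : ℕ} {X M Y : ℕ → Finset ℕ} (ht : 1 ≤ t)
    (h : CD r t m U l X M Y) {i j : ℕ} (hij : i < j) (hj : j < l) : Lt (M i) (M j) := by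
  intro u hu v hv
  have hbi := h.1 i (by omega)
  have hbj := h.1 j hj
  have h1 := (h.2 i j hij hj).order ht u (fun w hw => (hbi.2.2.2.2.2.2.1 u hu w hw).1)
  obtain ⟨w, hw⟩ := hbj.1.nonempty ht
  exact (h1 w hw).trans (hbj.2.2.2.2.2.1 w hw v hv).1

theorem Lt.disjoint {A B : Finset ℕ} (h : Lt A B) : Disjoint A B := by
  rw [disjoint_left]
  intro u hu hv
  exact lt_irrefl _ (h u hu u hv)

theorem CD.xx {U : Finset ℕ} {l : ℕ} {X M Y : ℕ → Finset ℕ}
    (h : CD r t m U l X M Y) {i j : ℕ} (hij : i ≤ j) (hj : j < l) :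
    Ch r t m U (X i) (X j) 0 := by
  have hbi := h.1 i (by omega)
  rcases hij.eq_or_lt with rfl | hij
  · exact Ch.refl _ hbi.1
  · exact ((Ch.block _ _ _ _ _ (Ch.refl _ hbi.1) hbi).trans (h.2 i j hij hj)).drop 0 (by omega)

/-- jump from the middle of one block to the middle of another. -/
theorem jump {U X M Y X' M' Y' z z' : Finset ℕ} (h : Blk r t m U X M Y)
    (h' : Blk r t m U X' M' Y') (hz : z ⊆ M) (hz' : z' ⊆ M') (hc : z.card = t)
    (hc' : z'.card = t) (hzz : Conn r z z') : Ch r t m U X Y' 0 := by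
  have t1 : TS r t U z := ⟨hz.trans h.2.2.1, hc, h.2.2.2.2.1.mono hz⟩
  have t2 : TS r t U z' := ⟨hz'.trans h'.2.2.1, hc', h'.2.2.2.2.1.mono hz'⟩
  refine Ch.step _ z' _ _ (Ch.step _ z _ _ (Ch.step _ X _ _ (Ch.refl _ h.1) t1 ?_) t2 hzz)
    h'.2.1 ?_
  · exact h.2.2.2.2.2.1.mono subset_rfl hz
  · exact h'.2.2.2.2.2.2.1.mono hz' subset_rfl

/-- a family of `p` chains with `l` blocks each whose middles are pairwise disjoint. -/
def Fam (r : ℕ → ℕ → Prop) (t m : ℕ) (V : Finset ℕ) (l p : ℕ)
    (X M Y : ℕ → ℕ → Finset ℕ) : Prop :=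
  (∀ q < p, CD r t m V l (X q) (M q) (Y q)) ∧
    ∀ q < p, ∀ q' < p, ∀ i < l, ∀ i' < l, (q, i) ≠ (q', i') → Disjoint (M q i) (M q' i')

theorem cover (ht : 1 ≤ t) (hm : 1 ≤ m) {l : ℕ} (hl : 1 ≤ l) (N c : ℕ) (n : ℕ) :
    ∀ V : Finset ℕ, V.card = n → (∀ U ⊆ V, N ≤ c * U.card → Has r t m U l) →
      ∃ (p : ℕ) (X M Y : ℕ → ℕ → Finset ℕ), Fam r t m V l p X M Y ∧
        c * V.card < N + c * (p * l * m) := by
  induction n using Nat.strong_induction_on with
  | _ n ih =>
  intro V hV hU
  by_cases hN : c * V.card < N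
  · exact ⟨0, fun _ _ => ∅, fun _ _ => ∅, fun _ _ => ∅,
      ⟨fun q hq => by omega, fun q hq => by omega⟩, by simpa using hN⟩
  obtain ⟨x, y, hc⟩ := hU V subset_rfl (by omega)
  obtain ⟨X0, M0, Y0, hd, -⟩ := hc.data
  set D := (range l).biUnion M0 with hD
  have hDV : D ⊆ V := by
    intro u hu
    obtain ⟨i, hi, hu⟩ := mem_biUnion.1 hu
    exact (hd.1 i (mem_range.1 hi)).2.2.1 hu
  have hdis : ∀ i < l, ∀ i' < l, i ≠ i' → Disjoint (M0 i) (M0 i') := by
    intro i hi i' hi' hne
    rcases lt_or_gt_of_ne hne with h | h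
    · exact (hd.lt ht h hi').disjoint
    · exact (hd.lt ht h hi).disjoint.symm
  have hDc : D.card = l * m := by
    rw [hD, card_biUnion]
    · rw [sum_congr rfl (fun i hi => (hd.1 i (mem_range.1 hi)).2.2.2.1)]
      simp
    · intro i hi i' hi' hne
      exact hdis i (by simpa using hi) i' (by simpa using hi') hne
  have hcard : (V \ D).card + l * m = V.card := by
    rw [← hDc]; exact card_sdiff_add_card_eq_card hDV
  have hpos : 1 ≤ l * m := Nat.mul_pos hl hm
  obtain ⟨p, X, M, Y, hF, hlt⟩ := ih (V \ D).card (by omega) (V \ D) rfl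
    (fun U hUs => hU U (hUs.trans sdiff_subset))
  have hMD : ∀ q < p, ∀ i < l, ∀ i' < l, Disjoint (M q i) (M0 i') := by
    intro q hq i hi i' hi'
    rw [disjoint_left]
    intro u hu hu'
    have := ((hF.1 q hq).1 i hi).2.2.1 hu
    exact (mem_sdiff.1 this).2 (mem_biUnion.2 ⟨i', mem_range.2 hi', hu'⟩)
  refine ⟨p + 1, fun q => if q = p then X0 else X q, fun q => if q = p then M0 else M q,
    fun q => if q = p then Y0 else Y q, ⟨?_, ?_⟩, ?_⟩
  · intro q hq
    by_cases hqp : q = p
    · simp only [hqp, if_true]; exact hd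
    · simp only [hqp, if_false]; exact (hF.1 q (by omega)).mono sdiff_subset
  · intro q hq q' hq' i hi i' hi' hne
    by_cases hqp : q = p <;> by_cases hqp' : q' = p
    · simp only [hqp, hqp', if_true]
      refine hdis i hi i' hi' ?_
      rintro rfl
      exact hne (by rw [hqp, hqp'])
    · simp only [hqp, hqp', if_true, if_false]
      exact (hMD q' (by omega) i' hi' i hi).symm
    · simp only [hqp, hqp', if_true, if_false]
      exact hMD q (by omega) i hi i' hi'
    · simp only [hqp, hqp', if_false]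
      exact hF.2 q (by omega) q' (by omega) i hi i' hi' hne
  · rw [← hcard]
    have : c * ((V \ D).card + l * m) = c * (V \ D).card + c * (l * m) := by ring
    have h2 : c * ((p + 1) * l * m) = c * (p * l * m) + c * (l * m) := by ring
    omega

/-- the union of a set of middles of a family has the expected size. -/
theorem Fam.card_union {V : Finset ℕ} {l p : ℕ} {X M Y : ℕ → ℕ → Finset ℕ}
    (h : Fam r t m V l p X M Y) (T : Finset (ℕ × ℕ)) (hT : ∀ τ ∈ T, τ.1 < p ∧ τ.2 < l) :
    (T.biUnion (fun τ => M τ.1 τ.2)).card = T.card * m ∧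
      T.biUnion (fun τ => M τ.1 τ.2) ⊆ V := by
  constructor
  · rw [card_biUnion]
    · rw [sum_congr rfl (fun τ hτ => ((h.1 τ.1 (hT τ hτ).1).1 τ.2 (hT τ hτ).2).2.2.2.1)]
      simp
    · intro τ hτ τ' hτ' hne
      exact h.2 τ.1 (hT τ hτ).1 τ'.1 (hT τ' hτ').1 τ.2 (hT τ hτ).2 τ'.2 (hT τ' hτ').2 hne
  · intro u hu
    obtain ⟨τ, hτ, hu⟩ := mem_biUnion.1 hu
    exact ((h.1 τ.1 (hT τ hτ).1).1 τ.2 (hT τ hτ).2).2.2.1 hu

theorem Fam.size_le {V : Finset ℕ} {l p : ℕ} {X M Y : ℕ → ℕ → Finset ℕ}
    (h : Fam r t m V l p X M Y) : p * l * m ≤ V.card := by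
  have := h.card_union (range p ×ˢ range l) (by simp)
  have h2 := card_le_card this.2
  rw [this.1] at h2
  simpa using h2

/-! ### ranks, cuts, enumerations -/

theorem exists_enum (z : Finset ℕ) (k : ℕ) (hk : k ≤ z.card) :
    ∃ g : ℕ → ℕ, (∀ i < k, g i ∈ z) ∧ ∀ i j, i < j → j < k → g i < g j := by
  refine ⟨fun i => if h : i < z.card then z.orderEmbOfFin rfl ⟨i, h⟩ else 0, ?_, ?_⟩
  · intro i hi
    have : i < z.card := by omega
    simp only [this, dif_pos]
    exact orderEmbOfFin_mem _ _ _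
  · intro i j hij hj
    have h1 : i < z.card := by omega
    have h2 : j < z.card := by omega
    simp only [h1, h2, dif_pos]
    exact (z.orderEmbOfFin rfl).strictMono (by simpa using hij)

/-- rank of `x` in `E`. -/
def rk (E : Finset ℕ) (x : ℕ) : ℕ := (E.filter (· < x)).card

theorem rk_mono (E : Finset ℕ) {x y : ℕ} (h : x ≤ y) : rk E x ≤ rk E y := by
  apply card_le_card
  intro u hu
  simp only [mem_filter] at hu ⊢
  exact ⟨hu.1, by omega⟩

theorem rk_lt (E : Finset ℕ) {x y : ℕ} (hx : x ∈ E) (h : x < y) : rk E x < rk E y := by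
  apply card_lt_card
  refine ⟨?_, ?_⟩
  · intro u hu
    simp only [mem_filter] at hu ⊢
    exact ⟨hu.1, by omega⟩
  · intro hs
    have := hs (mem_filter.2 ⟨hx, h⟩)
    simp at this

theorem rk_inj (E : Finset ℕ) : Set.InjOn (rk E) E := by
  intro x hx y hy hxy
  rcases lt_trichotomy x y with h | h | h
  · have := rk_lt E hx h; omega
  · exact h
  · have := rk_lt E hy h; omega

theorem rk_image (E : Finset ℕ) : E.image (rk E) = range E.card := by
  apply eq_of_subset_of_card_le
  · intro k hk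
    obtain ⟨x, hx, rfl⟩ := mem_image.1 hk
    rw [mem_range]
    apply card_lt_card
    refine ⟨filter_subset _ _, fun hs => ?_⟩
    have := hs hx
    simp at this
  · rw [card_image_of_injOn (rk_inj E)]; simp

theorem exists_cut (E : Finset ℕ) (k : ℕ) (hk : k < E.card) :
    ∃ c, (E.filter (· < c)).card = k := by
  have : k ∈ E.image (rk E) := by rw [rk_image]; simpa using hk
  obtain ⟨x, -, hx⟩ := mem_image.1 this
  exact ⟨x, hx⟩

theorem card_level (E : Finset ℕ) (e i : ℕ) (he : 1 ≤ e) (hi : (i + 1) * e ≤ E.card) :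
    (E.filter (fun x => rk E x / e = i)).card = e := by
  have h1 : (E.filter (fun x => rk E x / e = i)).image (rk E) = Ico (i * e) ((i + 1) * e) := by
    ext k
    simp only [mem_image, mem_filter, mem_Ico]
    constructor
    · rintro ⟨x, ⟨-, hx⟩, rfl⟩
      rw [Nat.div_eq_iff (by omega)] at hx
      constructor
      · exact hx.1
      · have : (i + 1) * e = i * e + e := by ring
        omega
    · rintro ⟨h1, h2⟩
      have : k ∈ E.image (rk E) := by rw [rk_image, mem_range]; omega
      obtain ⟨x, hx, rfl⟩ := mem_image.1 this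
      refine ⟨x, ⟨hx, ?_⟩, rfl⟩
      rw [Nat.div_eq_iff (by omega)]
      have : (i + 1) * e = i * e + e := by ring
      omega
  have h2 := congrArg card h1
  rw [card_image_of_injOn ((rk_inj E).mono (by intro x hx; exact (mem_filter.1 hx).1))] at h2
  rw [h2, Nat.card_Ico]
  have : (i + 1) * e = i * e + e := by ring
  omega

/-- a large clique holds a long chain. -/
theorem has_of_clique (ht : 1 ≤ t) (a : ℕ) :
    ∀ C : Finset ℕ, Cl r C → C.card = t + a * (m + t) → Has r t m C a := by
  induction a with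
  | zero =>
    intro C hC hc
    exact ⟨C, C, Ch.refl _ ⟨subset_rfl, by simpa using hc, hC⟩⟩
  | succ a ih =>
    intro C hC hc
    have e1 : (a + 1) * (m + t) = a * (m + t) + m + t := by ring
    obtain ⟨c1, h1⟩ := exists_cut C (t + a * (m + t)) (by omega)
    obtain ⟨c2, h2⟩ := exists_cut C (t + a * (m + t) + m) (by omega)
    have hsub : C.filter (· < c1) ⊆ C.filter (· < c2) ∨ C.filter (· < c2) ⊆ C.filter (· < c1) := by
      rcases le_total c1 c2 with h | h
      · left; intro u hu; simp only [mem_filter] at hu ⊢; exact ⟨hu.1, by omega⟩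
      · right; intro u hu; simp only [mem_filter] at hu ⊢; exact ⟨hu.1, by omega⟩
    have hsub' : C.filter (· < c1) ⊆ C.filter (· < c2) := by
      rcases hsub with h | h
      · exact h
      · rw [eq_of_subset_of_card_le h (by omega)]
    obtain ⟨x, y, hch⟩ := ih (C.filter (· < c1)) (hC.mono (filter_subset _ _)) h1
    have hy := hch.ts
    refine ⟨x, C \ C.filter (· < c2), Ch.block _ y (C.filter (· < c2) \ C.filter (· < c1)) _ _
      (hch.mono (filter_subset _ _)) ⟨hy.mono (filter_subset _ _), ⟨sdiff_subset, ?_,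
        hC.mono sdiff_subset⟩, sdiff_subset.trans (filter_subset _ _), ?_,
        hC.mono (sdiff_subset.trans (filter_subset _ _)), ?_, ?_, ?_⟩⟩
    · have := card_sdiff_add_card_eq_card (filter_subset (· < c2) C); omega
    · have := card_sdiff_add_card_eq_card hsub'; omega
    · intro u hu v hv
      have hu' := hy.1 hu
      simp only [mem_filter, mem_sdiff, not_and, not_lt] at hu' hv
      have : u < v := by have := hv.2 hv.1.1; omega
      exact ⟨this, hC u hu'.1 v hv.1.1 this⟩
    · intro u hu v hv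
      simp only [mem_filter, mem_sdiff, not_and, not_lt] at hu hv
      have : u < v := by have := hv.2 hv.1; omega
      exact ⟨this, hC u hu.1.1 v hv.1 this⟩
    · intro u hu v hv
      have hu' := hsub' (hy.1 hu)
      simp only [mem_filter, mem_sdiff, not_and, not_lt] at hu' hv
      have : u < v := by have := hv.2 hv.1; omega
      exact ⟨this, hC u hu'.1 v hv.1 this⟩

/-- a chain gives a power of a monotone path. -/
theorem Ch.path {U x y : Finset ℕ} {l : ℕ} (ht : 1 ≤ t) (h : Ch r t m U x y l) :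
    ∃ (n : ℕ) (f : ℕ → ℕ), l + t ≤ n ∧ (∀ i < n, f i ∈ U) ∧ (∀ i j, i < j → j < n → f i < f j) ∧
      (∀ i j, i < j → j < n → j ≤ i + t → r (f i) (f j)) ∧ ∀ i < n, n ≤ i + t → f i ∈ y := by
  have key : ∀ (y z : Finset ℕ) (n : ℕ) (f : ℕ → ℕ), t ≤ n → (∀ i < n, f i ∈ U) →
      (∀ i j, i < j → j < n → f i < f j) →
      (∀ i j, i < j → j < n → j ≤ i + t → r (f i) (f j)) → (∀ i < n, n ≤ i + t → f i ∈ y) →
      TS r t U z → Conn r y z → ∃ f : ℕ → ℕ, (∀ i < n + t, f i ∈ U) ∧
        (∀ i j, i < j → j < n + t → f i < f j) ∧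
        (∀ i j, i < j → j < n + t → j ≤ i + t → r (f i) (f j)) ∧
        ∀ i < n + t, n + t ≤ i + t → f i ∈ z := by
    intro y z n f hn h1 h2 h3 h4 hz hc
    obtain ⟨g, hg1, hg2⟩ := exists_enum z t hz.2.1.ge
    refine ⟨fun i => if i < n then f i else g (i - n), ?_, ?_, ?_, ?_⟩
    · intro i hi
      by_cases hin : i < n
      · simp only [hin, if_true]; exact h1 i hin
      · simp only [hin, if_false]; exact hz.1 (hg1 _ (by omega))
    · intro i j hij hj
      by_cases hjn : j < n
      · have hin : i < n := by omega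
        simp only [hin, hjn, if_true]; exact h2 i j hij hjn
      · by_cases hin : i < n
        · simp only [hin, hjn, if_true, if_false]
          have hl := (hc _ (h4 (n - 1) (by omega) (by omega)) _ (hg1 (j - n) (by omega))).1
          rcases (show i = n - 1 ∨ i < n - 1 by omega) with h | h
          · rw [h]; exact hl
          · exact (h2 i (n - 1) h (by omega)).trans hl
        · simp only [hin, hjn, if_false]; exact hg2 _ _ (by omega) (by omega)
    · intro i j hij hj hji
      by_cases hjn : j < n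
      · have hin : i < n := by omega
        simp only [hin, hjn, if_true]; exact h3 i j hij hjn hji
      · by_cases hin : i < n
        · simp only [hin, hjn, if_true, if_false]
          exact (hc _ (h4 i hin (by omega)) _ (hg1 (j - n) (by omega))).2
        · simp only [hin, hjn, if_false]
          exact hz.2.2 _ (hg1 _ (by omega)) _ (hg1 _ (by omega)) (hg2 _ _ (by omega) (by omega))
    · intro i hi hi'
      have hin : ¬ i < n := by omega
      simp only [hin, if_false]; exact hg1 _ (by omega)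
  induction h with
  | refl hx =>
    obtain ⟨g, hg1, hg2⟩ := exists_enum x t hx.2.1.ge
    exact ⟨t, g, by omega, fun i hi => hx.1 (hg1 i hi), hg2,
      fun i j hij hj _ => hx.2.2 _ (hg1 _ (by omega)) _ (hg1 _ hj) (hg2 _ _ hij hj),
      fun i hi _ => hg1 i hi⟩
  | step y z l _ hz hc ih =>
    obtain ⟨n, f, hn, h1, h2, h3, h4⟩ := ih
    obtain ⟨f', h⟩ := key y z n f (by omega) h1 h2 h3 h4 hz hc
    exact ⟨n + t, f', by omega, h⟩
  | block y M z l _ hb ih =>
    obtain ⟨n, f, hn, h1, h2, h3, h4⟩ := ih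
    obtain ⟨f', h⟩ := key y z n f (by omega) h1 h2 h3 h4 hb.2.1 hb.2.2.2.2.2.2.2
    exact ⟨n + t, f', by omega, h⟩

/-- Ramsey's theorem with the bound `2 ^ (s + s')`. -/
theorem ramsey {b : ℕ → ℕ → Prop} (hrb : ∀ u v, r u v ∨ b u v) (n : ℕ) :
    ∀ s s' : ℕ, s + s' = n → ∀ S : Finset ℕ, 2 ^ n ≤ S.card →
      (∃ C ⊆ S, Cl r C ∧ C.card = s) ∨ (∃ C ⊆ S, Cl b C ∧ C.card = s') := by
  classical
  induction n with
  | zero =>
    intro s s' h S _
    left
    exact ⟨∅, empty_subset _, fun u hu => by simp at hu, by simp; omega⟩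
  | succ n ih =>
    intro s s' h S hS
    rcases s with _ | s
    · left; exact ⟨∅, empty_subset _, fun u hu => by simp at hu, by simp⟩
    rcases s' with _ | s'
    · right; exact ⟨∅, empty_subset _, fun u hu => by simp at hu, by simp⟩
    have hne : S.Nonempty := by
      rw [← card_pos]; have := Nat.two_pow_pos (n + 1); omega
    set v := S.min' hne with hv
    have hvS : v ∈ S := min'_mem _ _
    have hlt : ∀ u ∈ S.erase v, v < u := by
      intro u hu
      have h1 := min'_le S u (mem_of_mem_erase hu)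
      have h2 := ne_of_mem_erase hu
      omega
    have ext : ∀ (ρ : ℕ → ℕ → Prop) (C : Finset ℕ), C ⊆ S.erase v → (∀ u ∈ C, ρ v u) → Cl ρ C →
        insert v C ⊆ S ∧ Cl ρ (insert v C) ∧ (insert v C).card = C.card + 1 := by
      intro ρ C hC h1 h2
      refine ⟨insert_subset hvS (hC.trans (erase_subset _ _)), ?_, ?_⟩
      · intro a ha c hc hac
        rcases mem_insert.1 ha with rfl | ha <;> rcases mem_insert.1 hc with hc | hc
        · omega
        · exact h1 c hc
        · have := hlt a (hC ha); omega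
        · exact h2 a ha c hc hac
      · rw [card_insert_of_notMem]
        intro hvC
        exact lt_irrefl _ (hlt v (hC hvC))
    have hsplit := card_filter_add_card_filter_not (s := S.erase v) (fun u => r v u)
    have hce := card_erase_add_one hvS
    have hp : 2 ^ (n + 1) = 2 * 2 ^ n := by ring
    by_cases hbig : 2 ^ n ≤ ((S.erase v).filter (fun u => r v u)).card
    · rcases ih s (s' + 1) (by omega) _ hbig with ⟨C, hC, h1, h2⟩ | ⟨C, hC, h1, h2⟩
      · left
        obtain ⟨e1, e2, e3⟩ := ext r C (hC.trans (filter_subset _ _))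
          (fun u hu => (mem_filter.1 (hC hu)).2) h1
        exact ⟨_, e1, e2, by omega⟩
      · right
        exact ⟨C, hC.trans ((filter_subset _ _).trans (erase_subset _ _)), h1, h2⟩
    · have hbig' : 2 ^ n ≤ ((S.erase v).filter (fun u => ¬ r v u)).card := by omega
      rcases ih (s + 1) s' (by omega) _ hbig' with ⟨C, hC, h1, h2⟩ | ⟨C, hC, h1, h2⟩
      · left
        exact ⟨C, hC.trans ((filter_subset _ _).trans (erase_subset _ _)), h1, h2⟩
      · right
        obtain ⟨e1, e2, e3⟩ := ext b C (hC.trans (filter_subset _ _))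
          (fun u hu => (hrb v u).resolve_left (mem_filter.1 (hC hu)).2) h1
        exact ⟨_, e1, e2, by omega⟩

end Pool.Agent.H4Z.OR
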