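import Pool.Agent.H4Z.ORA

/-! Edge counts, a Kovari-Sos-Turan bound and the interval splitting lemma. -/

set_option autoImplicit false

namespace Pool.Agent.H4Z.OR

open Finset

open Classical in
/-- number of `r`-pairs from `A` to `B`. -/
noncomputable def ed (r : ℕ → ℕ → Prop) (A B : Finset ℕ) : ℕ :=
  ((A ×ˢ B).filter (fun p => r p.1 p.2)).card

/-- no two `t`-sets `z ⊆ A`, `z' ⊆ B` with `z` below and completely joined to `z'`. -/
def Free (r : ℕ → ℕ → Prop) (t : ℕ) (A B : Finset ℕ) : Prop :=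
  ¬ ∃ z ⊆ A, ∃ z' ⊆ B, z.card = t ∧ z'.card = t ∧ Conn r z z'

/-- the density bound for `Free` pairs of sets of size at most `m`. -/
def KST (t m κ : ℕ) : Prop :=
  ∀ (r : ℕ → ℕ → Prop) (A B : Finset ℕ), A.card ≤ m → B.card ≤ m → Lt A B → Free r t A B →
    κ * ed r A B ≤ m ^ 2

variable {r : ℕ → ℕ → Prop} {t m : ℕ}

theorem Free.mono {A B A' B' : Finset ℕ} (h : Free r t A B) (hA : A' ⊆ A) (hB : B' ⊆ B) :
    Free r t A' B' := by
  rintro ⟨z, hz, z', hz', h'⟩
  exact h ⟨z, hz.trans hA, z', hz'.trans hB, h'⟩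

open Classical in
theorem ed_eq_sum (A B : Finset ℕ) : ed r A B = ∑ u ∈ A, (B.filter (r u)).card := by
  unfold ed
  rw [card_filter, sum_product]
  refine sum_congr rfl (fun u _ => ?_)
  rw [card_filter]

theorem ed_add {b : ℕ → ℕ → Prop} (hrb : ∀ u v, r u v ∨ b u v) (A B : Finset ℕ) :
    A.card * B.card ≤ ed r A B + ed b A B := by
  classical
  unfold ed
  rw [← card_product]
  refine le_trans (card_le_card ?_) (card_union_le _ _)
  intro p hp
  rcases hrb p.1 p.2 with h | h
  · exact mem_union_left _ (mem_filter.2 ⟨hp, h⟩)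
  · exact mem_union_right _ (mem_filter.2 ⟨hp, h⟩)

theorem ed_le_sum {ι κ : Type} (I J : Finset ℕ) (T : Finset ι) (T' : Finset κ)
    (A : ι → Finset ℕ) (B : κ → Finset ℕ) (hI : ∀ u ∈ I, ∃ τ ∈ T, u ∈ A τ)
    (hJ : ∀ u ∈ J, ∃ σ ∈ T', u ∈ B σ) :
    ed r I J ≤ ∑ p ∈ T ×ˢ T', ed r (A p.1 ∩ I) (B p.2 ∩ J) := by
  classical
  unfold ed
  refine le_trans (card_le_card ?_) card_biUnion_le
  intro p hp
  simp only [mem_filter, mem_product] at hp
  obtain ⟨τ, hτ, h1⟩ := hI _ hp.1.1
  obtain ⟨σ, hσ, h2⟩ := hJ _ hp.1.2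
  refine mem_biUnion.2 ⟨(τ, σ), mem_product.2 ⟨hτ, hσ⟩, ?_⟩
  simp only [mem_filter, mem_product, mem_inter]
  exact ⟨⟨⟨h1, hp.1.1⟩, h2, hp.1.2⟩, hp.2⟩

theorem sum_le_ed {ι κ : Type} (I J : Finset ℕ) (T : Finset ι) (T' : Finset κ)
    (A : ι → Finset ℕ) (B : κ → Finset ℕ) (hI : ∀ τ ∈ T, A τ ⊆ I) (hJ : ∀ σ ∈ T', B σ ⊆ J)
    (hA : ∀ τ ∈ T, ∀ τ' ∈ T, τ ≠ τ' → Disjoint (A τ) (A τ'))
    (hB : ∀ σ ∈ T', ∀ σ' ∈ T', σ ≠ σ' → Disjoint (B σ) (B σ')) :
    ∑ p ∈ T ×ˢ T', ed r (A p.1) (B p.2) ≤ ed r I J := by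
  classical
  unfold ed
  rw [← card_biUnion]
  · apply card_le_card
    intro p hp
    obtain ⟨x, hx, hp⟩ := mem_biUnion.1 hp
    simp only [mem_filter, mem_product] at hp hx ⊢
    exact ⟨⟨hI _ hx.1 hp.1.1, hJ _ hx.2 hp.1.2⟩, hp.2⟩
  · intro x hx y hy hne
    simp only [coe_product, Set.mem_prod, mem_coe] at hx hy
    rw [Function.onFun, disjoint_left]
    intro p hp hp'
    simp only [mem_filter, mem_product] at hp hp'
    by_cases h1 : x.1 = y.1
    · have h2 : x.2 ≠ y.2 := fun h2 => hne (Prod.ext h1 h2)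
      exact disjoint_left.1 (hB _ hx.2 _ hy.2 h2) hp.1.2 hp'.1.2
    · exact disjoint_left.1 (hA _ hx.1 _ hy.1 h1) hp.1.1 hp'.1.1

theorem exists_kst (t κ : ℕ) (ht : 1 ≤ t) (hκ : 1 ≤ κ) : ∃ m, 1 ≤ m ∧ KST t m κ := by
  classical
  set d := t * (4 * κ) ^ t with hd
  have hd1 : t ≤ d := Nat.le_mul_of_pos_right _ (by positivity)
  refine ⟨4 * κ * d, Nat.mul_pos (by omega) (by omega), ?_⟩
  intro r A B hA hB hlt hfree
  set m := 4 * κ * d with hm
  set H := A.filter (fun u => 2 * d ≤ (B.filter (r u)).card) with hH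
  have hcount : H.card * (2 * d).choose t ≤ t * m.choose t := by
    have h1 : ∑ u ∈ H, ((B.powersetCard t).filter (fun z => z ⊆ B.filter (r u))).card =
        ∑ z ∈ B.powersetCard t, (H.filter (fun u => z ⊆ B.filter (r u))).card := by
      simp only [card_filter]
      exact sum_comm
    have h2 : H.card * (2 * d).choose t ≤
        ∑ u ∈ H, ((B.powersetCard t).filter (fun z => z ⊆ B.filter (r u))).card := by
      rw [← smul_eq_mul]
      apply card_nsmul_le_sum
      intro u hu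
      have hu2 := (mem_filter.1 hu).2
      refine le_trans (Nat.choose_le_choose t hu2) ?_
      rw [← card_powersetCard]
      apply card_le_card
      intro z hz
      rw [mem_powersetCard] at hz
      exact mem_filter.2 ⟨mem_powersetCard.2 ⟨hz.1.trans (filter_subset _ _), hz.2⟩, hz.1⟩
    have h3 : ∑ z ∈ B.powersetCard t, (H.filter (fun u => z ⊆ B.filter (r u))).card ≤
        (B.powersetCard t).card * t := by
      rw [← smul_eq_mul]
      apply sum_le_card_nsmul
      intro z' hz'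
      rw [mem_powersetCard] at hz'
      by_contra hcon
      obtain ⟨z, hz, hzc⟩ := exists_subset_card_eq
        (show t ≤ (H.filter (fun u => z' ⊆ B.filter (r u))).card by omega)
      refine hfree ⟨z, hz.trans ((filter_subset _ _).trans (filter_subset _ _)), z', hz'.1, hzc,
        hz'.2, fun u hu v hv => ?_⟩
      have hu' := mem_filter.1 (hz hu)
      exact ⟨hlt u (mem_filter.1 hu'.1).1 v (hz'.1 hv), (mem_filter.1 (hu'.2 hv)).2⟩
    rw [card_powersetCard] at h3
    have h4 : B.card.choose t * t ≤ m.choose t * t :=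
      Nat.mul_le_mul_right _ (Nat.choose_le_choose t hB)
    rw [mul_comm t]
    omega
  have hHd : H.card ≤ d := by
    have h1 : H.card * (2 * d).descFactorial t ≤ t * m.descFactorial t := by
      rw [Nat.descFactorial_eq_factorial_mul_choose, Nat.descFactorial_eq_factorial_mul_choose]
      calc H.card * (t.factorial * (2 * d).choose t)
          = t.factorial * (H.card * (2 * d).choose t) := by ring
        _ ≤ t.factorial * (t * m.choose t) := Nat.mul_le_mul_left _ hcount
        _ = _ := by ring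
    have h2 : d ^ t ≤ (2 * d).descFactorial t :=
      le_trans (Nat.pow_le_pow_left (by omega) t) (Nat.pow_sub_le_descFactorial _ _)
    have h3 : m.descFactorial t ≤ m ^ t := Nat.descFactorial_le_pow _ _
    have h4 : H.card * d ^ t ≤ d * d ^ t := by
      calc H.card * d ^ t ≤ H.card * (2 * d).descFactorial t := Nat.mul_le_mul_left _ h2
        _ ≤ t * m ^ t := h1.trans (Nat.mul_le_mul_left _ h3)
        _ = t * (4 * κ) ^ t * d ^ t := by rw [hm, mul_pow (4 * κ) d]; ring
        _ = d * d ^ t := by rw [← hd]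
    exact Nat.le_of_mul_le_mul_right h4 (pow_pos (by omega) _)
  have hed : ed r A B ≤ d * m + m * (2 * d) := by
    rw [ed_eq_sum, ← sum_filter_add_sum_filter_not A (fun u => 2 * d ≤ (B.filter (r u)).card)]
    apply add_le_add
    · refine le_trans (sum_le_card_nsmul _ _ m ?_) ?_
      · intro u _
        exact (card_filter_le _ _).trans hB
      · rw [smul_eq_mul]; exact Nat.mul_le_mul_right _ hHd
    · refine le_trans (sum_le_card_nsmul _ _ (2 * d) ?_) ?_
      · intro u hu
        have := (mem_filter.1 hu).2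
        omega
      · rw [smul_eq_mul]
        exact Nat.mul_le_mul_right _ ((card_filter_le _ _).trans hA)
  calc κ * ed r A B ≤ κ * (d * m + m * (2 * d)) := Nat.mul_le_mul_left _ hed
    _ = 3 * κ * d * m := by ring
    _ ≤ 4 * κ * d * m := by gcongr; omega
    _ = m ^ 2 := by rw [← hm]; ring

open Classical in
/-- pieces meeting level `i`. -/
noncomputable def meet (T : Finset (ℕ × ℕ)) (A : ℕ × ℕ → Finset ℕ) (idx : ℕ → ℕ) (i : ℕ) :
    Finset (ℕ × ℕ) := T.filter (fun τ => ∃ u ∈ A τ, idx u = i)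

theorem stair (T : Finset (ℕ × ℕ)) (A : ℕ × ℕ → Finset ℕ) (idx : ℕ → ℕ) (hidx : Monotone idx)
    (p R : ℕ) (hp : ∀ τ ∈ T, τ.1 < p)
    (hord : ∀ τ ∈ T, ∀ τ' ∈ T, τ.1 = τ'.1 → τ.2 < τ'.2 → Lt (A τ) (A τ')) :
    ∑ i ∈ range R, (meet T A idx i).card ≤ T.card + p * R := by
  classical
  have hsplit : ∀ i, (meet T A idx i).card =
      ((meet T A idx i).filter (fun τ => ∀ u ∈ A τ, i ≤ idx u)).card +
      ((meet T A idx i).filter (fun τ => ¬ ∀ u ∈ A τ, i ≤ idx u)).card :=
    fun i => (card_filter_add_card_filter_not _).symm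
  rw [sum_congr rfl (fun i _ => hsplit i), sum_add_distrib]
  apply add_le_add
  · rw [← card_biUnion]
    · apply card_le_card
      intro τ hτ
      obtain ⟨i, -, hτ⟩ := mem_biUnion.1 hτ
      exact (mem_filter.1 (mem_filter.1 hτ).1).1
    · intro i _ i' _ hne
      rw [Function.onFun, disjoint_left]
      intro τ h1 h2
      simp only [meet, mem_filter] at h1 h2
      obtain ⟨⟨-, u, hu, e1⟩, h1⟩ := h1
      obtain ⟨⟨-, u', hu', e2⟩, h2⟩ := h2
      have := h1 u' hu'
      have := h2 u hu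
      omega
  · refine le_trans (sum_le_card_nsmul _ _ p ?_) (by simp [mul_comm])
    intro i _
    rw [← card_range p]
    apply card_le_card_of_injOn (fun τ => τ.1)
    · intro τ hτ
      simp only [meet, coe_filter, mem_filter, Set.mem_ofPred_eq] at hτ
      simpa using hp τ hτ.1.1
    · intro τ h1 τ' h2 he
      simp only [meet, coe_filter, mem_filter, Set.mem_ofPred_eq, not_forall, not_le] at h1 h2
      obtain ⟨⟨t1, u, hu, e1⟩, v, hv, h1⟩ := h1
      obtain ⟨⟨t2, u', hu', e2⟩, v', hv', h2⟩ := h2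
      rcases lt_trichotomy τ.2 τ'.2 with h | h | h
      · have := hidx (hord τ t1 τ' t2 he h u hu v' hv').le
        omega
      · exact Prod.ext he h
      · have := hidx (hord τ' t2 τ t1 he.symm h u' hu' v hv).le
        omega

theorem few_bad (c : ℕ → ℕ) (R e m : ℕ) (he : 1 ≤ e)
    (h : m * ∑ i ∈ range R, c i ≤ 22 * R * e) :
    4 * ((range R).filter (fun i => ¬ m * c i ≤ 88 * e)).card ≤ R := by
  have h1 : ((range R).filter (fun i => ¬ m * c i ≤ 88 * e)).card * (88 * e) ≤
      ∑ i ∈ (range R).filter (fun i => ¬ m * c i ≤ 88 * e), m * c i := by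
    rw [← smul_eq_mul]
    apply card_nsmul_le_sum
    intro i hi
    have := (mem_filter.1 hi).2
    omega
  have h2 : ∑ i ∈ (range R).filter (fun i => ¬ m * c i ≤ 88 * e), m * c i ≤
      m * ∑ i ∈ range R, c i := by
    rw [mul_sum]
    exact sum_le_sum_of_subset (filter_subset _ _)
  have h3 : 4 * ((range R).filter (fun i => ¬ m * c i ≤ 88 * e)).card * (22 * e) ≤
      R * (22 * e) := by
    calc _ = ((range R).filter (fun i => ¬ m * c i ≤ 88 * e)).card * (88 * e) := by ring
      _ ≤ 22 * R * e := h1.trans (h2.trans h)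
      _ = _ := by ring
  exact Nat.le_of_mul_le_mul_right h3 (by omega)

/-- the splitting lemma. -/
theorem split (hK : KST t m (288 * 88 ^ 2)) (E : Finset ℕ) (ρ : ℕ) (hρ : 1 ≤ ρ)
    (hE : 2 * ρ ≤ E.card) (T T' : Finset (ℕ × ℕ)) (A B : ℕ × ℕ → Finset ℕ) (p p' : ℕ)
    (hEA : ∀ u ∈ E, ∃ τ ∈ T, u ∈ A τ) (hEB : ∀ u ∈ E, ∃ σ ∈ T', u ∈ B σ)
    (hA : ∀ τ ∈ T, (A τ).card ≤ m) (hB : ∀ σ ∈ T', (B σ).card ≤ m)
    (hp : ∀ τ ∈ T, τ.1 < p) (hp' : ∀ τ ∈ T', τ.1 < p')
    (hord : ∀ τ ∈ T, ∀ τ' ∈ T, τ.1 = τ'.1 → τ.2 < τ'.2 → Lt (A τ) (A τ'))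
    (hord' : ∀ τ ∈ T', ∀ τ' ∈ T', τ.1 = τ'.1 → τ.2 < τ'.2 → Lt (B τ) (B τ'))
    (hs : m * (T.card + p * (2 * ρ)) ≤ 11 * E.card)
    (hs' : m * (T'.card + p' * (2 * ρ)) ≤ 11 * E.card)
    (hfree : ∀ τ ∈ T, ∀ σ ∈ T', Free r t (A τ) (B σ)) :
    ∃ (e : ℕ) (F : ℕ → Finset ℕ), E.card ≤ 4 * ρ * e ∧ (∀ i < ρ, F i ⊆ E ∧ (F i).card = e) ∧
      ∀ i j, i < j → j < ρ → Lt (F i) (F j) ∧ 288 * ed r (F i) (F j) ≤ e ^ 2 := by
  classical
  set R := 2 * ρ with hR
  set e := E.card / R with he
  have he1 : 1 ≤ e := (Nat.le_div_iff_mul_le (by omega)).2 (by omega)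
  have hle : e * R ≤ E.card := Nat.div_mul_le_self _ _
  have hlt : E.card < R * (e + 1) := Nat.lt_mul_div_succ _ (by omega)
  have hE2 : E.card ≤ 2 * R * e := by nlinarith
  set idx : ℕ → ℕ := fun x => rk E x / e with hidx
  have hmono : Monotone idx := fun x y h => Nat.div_le_div_right (rk_mono E h)
  have b1 := few_bad (fun i => (meet T A idx i).card) R e m he1 (by
    have := Nat.mul_le_mul_left m (stair T A idx hmono p R hp hord)
    nlinarith)
  have b2 := few_bad (fun i => (meet T' B idx i).card) R e m he1 (by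
    have := Nat.mul_le_mul_left m (stair T' B idx hmono p' R hp' hord')
    nlinarith)
  set G := (range R).filter (fun i => m * (meet T A idx i).card ≤ 88 * e ∧
    m * (meet T' B idx i).card ≤ 88 * e) with hG
  have hGc : ρ ≤ G.card := by
    have : range R ⊆ G ∪ ((range R).filter (fun i => ¬ m * (meet T A idx i).card ≤ 88 * e) ∪
        (range R).filter (fun i => ¬ m * (meet T' B idx i).card ≤ 88 * e)) := by
      intro i hi
      simp only [hG, mem_union, mem_filter]
      tauto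
    have h1 := (card_le_card this).trans ((card_union_le _ _).trans
      (Nat.add_le_add_left (card_union_le _ _) _))
    rw [card_range] at h1
    omega
  obtain ⟨g, hg1, hg2⟩ := exists_enum G ρ hGc
  refine ⟨e, fun i => E.filter (fun x => idx x = g i), by nlinarith, ?_, ?_⟩
  · intro i hi
    refine ⟨filter_subset _ _, card_level E e (g i) he1 ?_⟩
    have : g i < R := mem_range.1 (mem_filter.1 (hg1 i hi)).1
    exact le_trans (Nat.mul_le_mul_right e this) (by rw [mul_comm]; exact hle)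
  · intro i j hij hj
    have hlt : Lt (E.filter (fun x => idx x = g i)) (E.filter (fun x => idx x = g j)) := by
      intro u hu v hv
      have h1 := (mem_filter.1 hu).2
      have h2 := (mem_filter.1 hv).2
      have h3 := hg2 i j hij hj
      by_contra hcon
      have := hmono (not_lt.1 hcon)
      omega
    refine ⟨hlt, ?_⟩
    have c1 := (mem_filter.1 (hg1 i (by omega))).2.1
    have c2 := (mem_filter.1 (hg1 j hj)).2.2
    have h1 := ed_le_sum (r := r) (E.filter (fun x => idx x = g i))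
      (E.filter (fun x => idx x = g j)) (meet T A idx (g i)) (meet T' B idx (g j)) A B
      (by
        intro u hu
        obtain ⟨τ, hτ, h⟩ := hEA u (mem_filter.1 hu).1
        exact ⟨τ, mem_filter.2 ⟨hτ, u, h, (mem_filter.1 hu).2⟩, h⟩)
      (by
        intro u hu
        obtain ⟨τ, hτ, h⟩ := hEB u (mem_filter.1 hu).1
        exact ⟨τ, mem_filter.2 ⟨hτ, u, h, (mem_filter.1 hu).2⟩, h⟩)
    have h2 : (288 * 88 ^ 2) * ∑ p ∈ meet T A idx (g i) ×ˢ meet T' B idx (g j),
        ed r (A p.1 ∩ E.filter (fun x => idx x = g i)) (B p.2 ∩ E.filter (fun x => idx x = g j))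
        ≤ (meet T A idx (g i)).card * (meet T' B idx (g j)).card * m ^ 2 := by
      rw [mul_sum, ← card_product, ← smul_eq_mul]
      apply sum_le_card_nsmul
      intro x hx
      rw [mem_product] at hx
      have t1 : x.1 ∈ T := (mem_filter.1 hx.1).1
      have t2 : x.2 ∈ T' := (mem_filter.1 hx.2).1
      refine hK r _ _ ((card_le_card inter_subset_left).trans (hA _ t1))
        ((card_le_card inter_subset_left).trans (hB _ t2)) ?_
        ((hfree _ t1 _ t2).mono inter_subset_left inter_subset_left)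
      intro u hu v hv
      exact hlt u (mem_inter.1 hu).2 v (mem_inter.1 hv).2
    have h3 : (meet T A idx (g i)).card * (meet T' B idx (g j)).card * m ^ 2 ≤ 88 ^ 2 * e ^ 2 := by
      calc _ = (m * (meet T A idx (g i)).card) * (m * (meet T' B idx (g j)).card) := by ring
        _ ≤ (88 * e) * (88 * e) := Nat.mul_le_mul c1 c2
        _ = _ := by ring
    have h4 := (Nat.mul_le_mul_left (288 * 88 ^ 2) h1).trans (h2.trans h3)
    have h5 : 88 ^ 2 * (288 * ed r (E.filter (fun x => idx x = g i))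
        (E.filter (fun x => idx x = g j))) ≤ 88 ^ 2 * e ^ 2 := by
      refine le_trans (le_of_eq ?_) h4
      ring
    exact Nat.le_of_mul_le_mul_left h5 (by norm_num)

end Pool.Agent.H4Z.OR
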