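import Pool.Agent.H4Z.ORB

/-! The step lemma and the concatenation lemma. -/

set_option autoImplicit false

namespace Pool.Agent.H4Z.OR

open Finset

variable {r : ℕ → ℕ → Prop} {t m : ℕ}

theorem step_num (L n P P' V E : ℕ) (hL : 1 ≤ L) (h1 : 16 * L * n < n + 16 * L * (4 * P))
    (h2 : 3 * P ≤ L * V) (h3 : 16 * L * V < n + 16 * L * (4 * P')) (h4 : P' ≤ 2 * E) :
    V ≤ 10 * E ∧ n ≤ 20 * L * E := by
  have a1 : 15 * n ≤ 64 * P := by
    have : L * (15 * n) ≤ L * (64 * P) := by nlinarith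
    exact Nat.le_of_mul_le_mul_left this (by omega)
  have a2 : L * P' ≤ L * (2 * E) := Nat.mul_le_mul_left _ h4
  constructor
  · have : L * V ≤ L * (10 * E) := by nlinarith
    exact Nat.le_of_mul_le_mul_left this (by omega)
  · nlinarith

theorem step_num2 (L n p h m ρ E : ℕ) (hL : 1 ≤ L) (h1 : p * (4 * h) * m ≤ n)
    (h2 : n ≤ 20 * L * E) (hh : 10 * L * ρ ≤ h) : m * (p * (2 * ρ)) ≤ E := by
  have a1 : p * m * (10 * L * ρ) ≤ p * m * h := Nat.mul_le_mul_left _ hh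
  have : (20 * L) * (m * (p * (2 * ρ))) ≤ (20 * L) * E := by nlinarith
  exact Nat.le_of_mul_le_mul_left this (by omega)

theorem exists_label (S : Finset ℕ) (a : ℕ) (hno : ¬ Has r t m S a) :
    ∃ f : Finset ℕ → ℕ, (∀ x, TS r t S x → f x < a) ∧
      ∀ x x' l, TS r t S x → Ch r t m S x x' l → f x + l ≤ f x' := by
  classical
  have hlt : ∀ y x l, Ch r t m S y x l → l < a := by
    intro y x l h
    by_contra hcon
    exact hno ⟨y, x, h.drop a (by omega)⟩
  have hspec : ∀ x, TS r t S x →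
      ∃ y, Ch r t m S y x (Nat.findGreatest (fun l => ∃ y, Ch r t m S y x l) a) := by
    intro x hx
    exact Nat.findGreatest_spec (P := fun l => ∃ y, Ch r t m S y x l) (Nat.zero_le a)
      ⟨x, Ch.refl _ hx⟩
  refine ⟨fun x => Nat.findGreatest (fun l => ∃ y, Ch r t m S y x l) a, ?_, ?_⟩
  · intro x hx
    obtain ⟨y, hy⟩ := hspec x hx
    exact hlt _ _ _ hy
  · intro x x' l hx hc
    obtain ⟨y, hy⟩ := hspec x hx
    have := hy.trans hc
    exact Nat.le_findGreatest (hlt _ _ _ this).le ⟨y, this⟩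

theorem bad_count (S : Finset ℕ) (a L h : ℕ) (f : Finset ℕ → ℕ)
    (hf1 : ∀ x, TS r t S x → f x < a)
    (hf2 : ∀ x x' l, TS r t S x → Ch r t m S x x' l → f x + l ≤ f x') (ha : a ≤ L * h)
    (hLh : L ≤ h) (h1 : 1 ≤ h) {X M Y : ℕ → Finset ℕ} (hd : CD r t m S (4 * h) X M Y) :
    ((range (4 * h)).filter (fun i => ¬ f (Y i) / h = f (X i) / h)).card ≤ h := by
  have key : ∀ n < 4 * h,
      ((range n).filter (fun i => ¬ f (Y i) / h = f (X i) / h)).card ≤ f (X n) / h := by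
    intro n
    induction n with
    | zero => intro _; simp
    | succ n ih =>
      intro hn
      have hb := hd.1 n (by omega)
      have e1 : f (X n) ≤ f (Y n) := by
        have := hf2 _ _ _ hb.1 (Ch.block _ _ _ _ _ (Ch.refl _ hb.1) hb); omega
      have e2 : f (Y n) ≤ f (X (n + 1)) := by
        have := hf2 _ _ _ hb.2.1 (hd.2 n (n + 1) (by omega) hn); omega
      have d1 : f (X n) / h ≤ f (Y n) / h := Nat.div_le_div_right e1
      have d2 : f (Y n) / h ≤ f (X (n + 1)) / h := Nat.div_le_div_right e2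
      have := ih (by omega)
      rw [range_add_one, filter_insert]
      split_ifs with hbad
      · omega
      · rw [card_insert_of_notMem (by simp)]; omega
  obtain ⟨n, hn⟩ : ∃ n, 4 * h = n + 1 := ⟨4 * h - 1, by omega⟩
  have k1 := key n (by omega)
  have k2 : f (X n) / h < L := by
    rw [Nat.div_lt_iff_lt_mul (by omega)]
    have := hf1 _ (hd.1 n (by omega)).1
    omega
  rw [hn, range_add_one, filter_insert]
  split_ifs with hbad
  · omega
  · rw [card_insert_of_notMem (by simp)]; omega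

theorem exists_window (S : Finset ℕ) (a L h p : ℕ) (f : Finset ℕ → ℕ)
    (hf1 : ∀ x, TS r t S x → f x < a)
    (hf2 : ∀ x x' l, TS r t S x → Ch r t m S x x' l → f x + l ≤ f x') (ha : a ≤ L * h)
    (hL : 1 ≤ L) (hLh : L ≤ h) {X M Y : ℕ → ℕ → Finset ℕ} (hF : Fam r t m S (4 * h) p X M Y) :
    ∃ (w : ℕ) (W : Finset (ℕ × ℕ)), 3 * (p * h) ≤ L * W.card ∧
      ∀ τ ∈ W, τ.1 < p ∧ τ.2 < 4 * h ∧ f (X τ.1 τ.2) / h = w ∧ f (Y τ.1 τ.2) / h = w := by
  classical
  set good := (range p ×ˢ range (4 * h)).filter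
    (fun τ => f (Y τ.1 τ.2) / h = f (X τ.1 τ.2) / h) with hgood
  have hbad : ((range p ×ˢ range (4 * h)).filter
      (fun τ => ¬ f (Y τ.1 τ.2) / h = f (X τ.1 τ.2) / h)).card ≤ p * h := by
    rw [card_filter, sum_product]
    refine le_trans (sum_le_card_nsmul _ _ h ?_) (by simp)
    intro q hq
    have := bad_count S a L h f hf1 hf2 ha hLh (by omega) (hF.1 q (mem_range.1 hq))
    rwa [card_filter] at this
  have hsum := card_filter_add_card_filter_not (s := range p ×ˢ range (4 * h))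
    (fun τ => f (Y τ.1 τ.2) / h = f (X τ.1 τ.2) / h)
  rw [card_product, card_range, card_range, ← hgood] at hsum
  have hg : 3 * (p * h) ≤ good.card := by
    have : p * (4 * h) = 4 * (p * h) := by ring
    omega
  obtain ⟨w, -, hw⟩ := exists_max_image (range L)
    (fun w => (good.filter (fun τ => f (X τ.1 τ.2) / h = w)).card) ⟨0, by simp; omega⟩
  refine ⟨w, good.filter (fun τ => f (X τ.1 τ.2) / h = w), ?_, ?_⟩
  · refine hg.trans ?_
    have := card_le_mul_card_image_of_maps_to (s := good) (t := range L)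
      (f := fun τ => f (X τ.1 τ.2) / h) (by
        intro τ hτ
        have hτ' := mem_product.1 (mem_filter.1 hτ).1
        have := hf1 _ ((hF.1 _ (mem_range.1 hτ'.1)).1 _ (mem_range.1 hτ'.2)).1
        rw [mem_range, Nat.div_lt_iff_lt_mul (by omega)]
        omega) _ hw
    rw [card_range, mul_comm] at this
    exact this
  · intro τ hτ
    have h1 := mem_filter.1 hτ
    have h2 := mem_filter.1 h1.1
    have h3 := mem_product.1 h2.1
    exact ⟨mem_range.1 h3.1, mem_range.1 h3.2, h1.2, h2.2.trans h1.2⟩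

/-- the step lemma. -/
theorem step (ht : 1 ≤ t) (hm : 1 ≤ m) (hK : KST t m (288 * 88 ^ 2)) (S : Finset ℕ)
    (a L ρ h : ℕ) (hL : 1 ≤ L) (hρ : 1 ≤ ρ) (ha : a ≤ L * h) (hh : 10 * L * ρ ≤ h)
    (hn : 40 * L * ρ ≤ S.card) (hno : ¬ Has r t m S a) :
    (∃ U ⊆ S, S.card ≤ 16 * L * U.card ∧ ¬ Has r t m U (4 * h)) ∨
    ∃ (e : ℕ) (F : ℕ → Finset ℕ), S.card ≤ 80 * L * ρ * e ∧ (∀ i < ρ, F i ⊆ S ∧ (F i).card = e) ∧
      ∀ i j, i < j → j < ρ → Lt (F i) (F j) ∧ 288 * ed r (F i) (F j) ≤ e ^ 2 := by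
  classical
  by_cases hU : ∀ U ⊆ S, S.card ≤ 16 * L * U.card → Has r t m U (4 * h)
  swap
  · left
    push Not at hU
    exact hU
  right
  have hLh : L ≤ h := by nlinarith
  have h1 : 1 ≤ h := by omega
  obtain ⟨p, X, M, Y, hF, hc⟩ := cover ht hm (show 1 ≤ 4 * h by omega) S.card (16 * L) _ S rfl hU
  obtain ⟨f, hf1, hf2⟩ := exists_label S a hno
  obtain ⟨w, W, hW, hWp⟩ := exists_window S a L h p f hf1 hf2 ha hL hLh hF
  obtain ⟨hVc, hVS⟩ := hF.card_union W (fun τ hτ => ⟨(hWp τ hτ).1, (hWp τ hτ).2.1⟩)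
  set V := W.biUnion (fun τ => M τ.1 τ.2) with hV
  obtain ⟨p', X', M', Y', hF', hc'⟩ := cover ht hm (show 1 ≤ 4 * h by omega) S.card (16 * L) _ V
    rfl (fun U hUV => hU U (hUV.trans hVS))
  set Q1 := (range p').filter (fun q => ∀ τ ∈ W, ∀ i < h, Free r t (M τ.1 τ.2) (M' q i)) with hQ1
  set Q2 := (range p').filter
    (fun q => ∀ τ ∈ W, ∀ i, 3 * h ≤ i → i < 4 * h → Free r t (M' q i) (M τ.1 τ.2)) with hQ2
  have hQ : range p' ⊆ Q1 ∪ Q2 := by
    intro q hq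
    by_contra hcon
    simp only [hQ1, hQ2, mem_union, mem_filter, hq, true_and, not_or, not_forall, Free,
      not_not] at hcon
    obtain ⟨⟨τ, hτ, i, hi, z, hz, z', hz', c1, c2, c3⟩,
      σ, hσ, j, hj, hj', y, hy, y', hy', d1, d2, d3⟩ := hcon
    have hd := (hF'.1 q (mem_range.1 hq)).mono hVS
    obtain ⟨t1, t2, t3, -⟩ := hWp τ hτ
    obtain ⟨s1, s2, -, s4⟩ := hWp σ hσ
    have bτ := (hF.1 _ t1).1 _ t2
    have bσ := (hF.1 _ s1).1 _ s2
    have k1 := jump bτ (hd.1 i (by omega)) hz hz' c1 c2 c3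
    have k2 := hd.2 i j (by omega) hj'
    have k3 := jump (hd.1 j hj') bσ hy hy' d1 d2 d3
    have k4 := hf2 _ _ _ bτ.1 ((k1.trans k2).trans k3)
    have k5 : (f (X τ.1 τ.2) + h) / h ≤ f (Y σ.1 σ.2) / h := Nat.div_le_div_right (by omega)
    rw [Nat.add_div_right _ (by omega)] at k5
    omega
  have hQc : p' ≤ Q1.card + Q2.card := by
    have := (card_le_card hQ).trans (card_union_le _ _)
    rwa [card_range] at this
  have hsz := hF.size_le
  have hsz' := hF'.size_le.trans (card_le_card hVS)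
  have hordW : ∀ τ ∈ W, ∀ τ' ∈ W, τ.1 = τ'.1 → τ.2 < τ'.2 →
      Lt (M τ.1 τ.2) (M τ'.1 τ'.2) := by
    intro τ hτ τ' hτ' e1 e2
    rw [← e1]
    exact (hF.1 _ (hWp τ hτ).1).lt ht e2 (hWp τ' hτ').2.1
  have hWm : ∀ τ ∈ W, (M τ.1 τ.2).card ≤ m :=
    fun τ hτ => ((hF.1 _ (hWp τ hτ).1).1 _ (hWp τ hτ).2.1).2.2.2.1.le
  have main : ∀ T : Finset (ℕ × ℕ), (∀ τ ∈ T, τ.1 < p' ∧ τ.2 < 4 * h) → p' * h ≤ 2 * T.card →
      let E := T.biUnion (fun τ => M' τ.1 τ.2)
      E ⊆ S ∧ S.card ≤ 20 * L * E.card ∧ 2 * ρ ≤ E.card ∧ (∀ u ∈ E, ∃ τ ∈ W, u ∈ M τ.1 τ.2) ∧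
      (∀ u ∈ E, ∃ τ ∈ T, u ∈ M' τ.1 τ.2) ∧ (∀ τ ∈ T, (M' τ.1 τ.2).card ≤ m) ∧
      (∀ τ ∈ T, ∀ τ' ∈ T, τ.1 = τ'.1 → τ.2 < τ'.2 → Lt (M' τ.1 τ.2) (M' τ'.1 τ'.2)) ∧
      m * (W.card + p * (2 * ρ)) ≤ 11 * E.card ∧ m * (T.card + p' * (2 * ρ)) ≤ 11 * E.card := by
    intro T hT hTc E
    obtain ⟨hEc, hEV⟩ := hF'.card_union T hT
    have n1 := step_num L S.card (p * h * m) (p' * h * m) V.card E.card hL
      (by convert hc using 3; ring) (by rw [hVc]; nlinarith) (by convert hc' using 3; ring)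
      (by rw [hEc]; nlinarith)
    have n2 := step_num2 L S.card p h m ρ E.card hL hsz n1.2 hh
    have n3 := step_num2 L S.card p' h m ρ E.card hL hsz' n1.2 hh
    refine ⟨hEV.trans hVS, n1.2, ?_, fun u hu => mem_biUnion.1 (hEV hu),
      fun u hu => mem_biUnion.1 hu,
      fun τ hτ => ((hF'.1 _ (hT τ hτ).1).1 _ (hT τ hτ).2).2.2.2.1.le, ?_, ?_, ?_⟩
    · have : (20 * L) * (2 * ρ) ≤ (20 * L) * E.card := by nlinarith [n1.2]
      exact Nat.le_of_mul_le_mul_left this (by omega)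
    · intro τ hτ τ' hτ' e1 e2
      rw [← e1]
      exact (hF'.1 _ (hT τ hτ).1).lt ht e2 (hT τ' hτ').2
    · have := n1.1
      rw [hVc] at this
      nlinarith
    · have : m * T.card = E.card := by rw [hEc]; ring
      nlinarith
  have fin : ∀ E : Finset ℕ, E ⊆ S → S.card ≤ 20 * L * E.card →
      (∃ (e : ℕ) (F : ℕ → Finset ℕ), E.card ≤ 4 * ρ * e ∧ (∀ i < ρ, F i ⊆ E ∧ (F i).card = e) ∧
      ∀ i j, i < j → j < ρ → Lt (F i) (F j) ∧ 288 * ed r (F i) (F j) ≤ e ^ 2) →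
      ∃ (e : ℕ) (F : ℕ → Finset ℕ), S.card ≤ 80 * L * ρ * e ∧
        (∀ i < ρ, F i ⊆ S ∧ (F i).card = e) ∧
        ∀ i j, i < j → j < ρ → Lt (F i) (F j) ∧ 288 * ed r (F i) (F j) ≤ e ^ 2 := by
    rintro E hES hc ⟨e, F, a1, a2, a3⟩
    refine ⟨e, F, ?_, fun i hi => ⟨(a2 i hi).1.trans hES, (a2 i hi).2⟩, a3⟩
    calc S.card ≤ 20 * L * E.card := hc
      _ ≤ 20 * L * (4 * ρ * e) := Nat.mul_le_mul_left _ a1
      _ = _ := by ring
  by_cases hcase : p' ≤ 2 * Q1.card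
  · have hT : ∀ τ ∈ Q1 ×ˢ range h, τ.1 < p' ∧ τ.2 < 4 * h := by
      intro τ hτ
      have := mem_product.1 hτ
      exact ⟨mem_range.1 (mem_filter.1 this.1).1, by have := mem_range.1 this.2; omega⟩
    obtain ⟨m1, m2, m3, m4, m5, m6, m7, m8, m9⟩ := main (Q1 ×ˢ range h) hT
      (by rw [card_product, card_range]; nlinarith)
    refine fin _ m1 m2 (split hK _ ρ hρ m3 W (Q1 ×ˢ range h) (fun τ => M τ.1 τ.2)
      (fun τ => M' τ.1 τ.2) p p' m4 m5 hWm m6 (fun τ hτ => (hWp τ hτ).1)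
      (fun τ hτ => (hT τ hτ).1) hordW m7 m8 m9 ?_)
    intro τ hτ σ hσ
    have := mem_product.1 hσ
    exact (mem_filter.1 this.1).2 τ hτ σ.2 (mem_range.1 this.2)
  · have hT : ∀ τ ∈ Q2 ×ˢ Ico (3 * h) (4 * h), τ.1 < p' ∧ τ.2 < 4 * h := by
      intro τ hτ
      have := mem_product.1 hτ
      exact ⟨mem_range.1 (mem_filter.1 this.1).1, (mem_Ico.1 this.2).2⟩
    have hcase' : p' ≤ 2 * Q2.card := by omega
    obtain ⟨m1, m2, m3, m4, m5, m6, m7, m8, m9⟩ := main (Q2 ×ˢ Ico (3 * h) (4 * h)) hT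
      (by
        rw [card_product, Nat.card_Ico, show 4 * h - 3 * h = h by omega]; nlinarith)
    refine fin _ m1 m2 (split hK _ ρ hρ m3 (Q2 ×ˢ Ico (3 * h) (4 * h)) W (fun τ => M' τ.1 τ.2)
      (fun τ => M τ.1 τ.2) p' p m5 m4 m6 hWm (fun τ hτ => (hT τ hτ).1)
      (fun τ hτ => (hWp τ hτ).1) m7 hordW m9 m8 ?_)
    intro σ hσ τ hτ
    have := mem_product.1 hσ
    exact (mem_filter.1 this.1).2 τ hτ σ.2 (mem_Ico.1 this.2).1 (mem_Ico.1 this.2).2

/-- the concatenation lemma. -/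
theorem concat {b : ℕ → ℕ → Prop} (hrb : ∀ u v, r u v ∨ b u v) (ht : 1 ≤ t) (hm : 1 ≤ m)
    (hK : KST t m (288 * 88 ^ 2)) (S : Finset ℕ) (ρ e g : ℕ) (hρ : 1 ≤ ρ) (hg : 1 ≤ g)
    (he : 1 ≤ e) (F : ℕ → Finset ℕ) (hF : ∀ i < ρ, F i ⊆ S ∧ (F i).card = e)
    (hFF : ∀ i j, i < j → j < ρ → Lt (F i) (F j) ∧ 288 * ed r (F i) (F j) ≤ e ^ 2)
    (hU : ∀ i < ρ, ∀ U ⊆ F i, e ≤ 2 * U.card → Has b t m U (3 * g)) :
    Has b t m S (ρ * g) := by
  classical
  have hcov : ∀ i, ∃ (p : ℕ) (X M Y : ℕ → ℕ → Finset ℕ), i < ρ →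
      Fam b t m (F i) (3 * g) p X M Y ∧ e < 6 * (p * g * m) := by
    intro i
    by_cases hi : i < ρ
    · obtain ⟨p, X, M, Y, h1, h2⟩ := cover ht hm (show 1 ≤ 3 * g by omega) e 2 _ (F i) rfl (hU i hi)
      refine ⟨p, X, M, Y, fun _ => ⟨h1, ?_⟩⟩
      rw [(hF i hi).2] at h2
      nlinarith
    · exact ⟨0, fun _ _ => ∅, fun _ _ => ∅, fun _ _ => ∅, fun h => absurd h hi⟩
  choose p X M Y hc using hcov
  have key : ∀ i < ρ, p i ≤ 2 * ((range (p i)).filter
      (fun q => ∃ y, Ch b t m S y (X i q (2 * g)) ((i + 1) * g))).card := by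
    intro i
    induction i with
    | zero =>
      intro hi
      rw [filter_true_of_mem, card_range]
      · omega
      · intro q hq
        have := (((hc 0 hi).1.1 q (mem_range.1 hq)).mono (hF 0 hi).1).2 (g - 1) (2 * g)
          (by omega) (by omega)
        exact ⟨_, this.drop _ (by omega)⟩
    | succ i ih =>
      intro hi
      have hi0 : i < ρ := by omega
      have ih := ih hi0
      set G := (range (p i)).filter
        (fun q => ∃ y, Ch b t m S y (X i q (2 * g)) ((i + 1) * g)) with hG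
      by_contra hcon
      have hsum := card_filter_add_card_filter_not (s := range (p (i + 1)))
        (fun q => ∃ y, Ch b t m S y (X (i + 1) q (2 * g)) ((i + 1 + 1) * g))
      set N := (range (p (i + 1))).filter
        (fun q => ¬ ∃ y, Ch b t m S y (X (i + 1) q (2 * g)) ((i + 1 + 1) * g)) with hN
      rw [card_range] at hsum
      have hNc : p (i + 1) ≤ 2 * N.card := by omega
      obtain ⟨f0, e0⟩ := hc i hi0
      obtain ⟨f1, e1⟩ := hc (i + 1) hi
      obtain ⟨hlt, hed⟩ := hFF i (i + 1) (by omega) hi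
      have hT : ∀ τ ∈ G ×ˢ Ico (2 * g) (3 * g), τ.1 < p i ∧ τ.2 < 3 * g := by
        intro τ hτ
        have := mem_product.1 hτ
        exact ⟨mem_range.1 (mem_filter.1 this.1).1, (mem_Ico.1 this.2).2⟩
      have hT' : ∀ τ ∈ N ×ˢ range g, τ.1 < p (i + 1) ∧ τ.2 < 3 * g := by
        intro τ hτ
        have := mem_product.1 hτ
        exact ⟨mem_range.1 (mem_filter.1 this.1).1, by have := mem_range.1 this.2; omega⟩
      have s1 := sum_le_ed (r := r) (F i) (F (i + 1)) (G ×ˢ Ico (2 * g) (3 * g)) (N ×ˢ range g)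
        (fun τ => M i τ.1 τ.2) (fun τ => M (i + 1) τ.1 τ.2)
        (fun τ hτ => ((f0.1 _ (hT τ hτ).1).1 _ (hT τ hτ).2).2.2.1)
        (fun τ hτ => ((f1.1 _ (hT' τ hτ).1).1 _ (hT' τ hτ).2).2.2.1)
        (fun τ hτ τ' hτ' hne => f0.2 _ (hT τ hτ).1 _ (hT τ' hτ').1 _ (hT τ hτ).2 _ (hT τ' hτ').2 hne)
        (fun τ hτ τ' hτ' hne =>
          f1.2 _ (hT' τ hτ).1 _ (hT' τ' hτ').1 _ (hT' τ hτ).2 _ (hT' τ' hτ').2 hne)
      have s2 : ((G ×ˢ Ico (2 * g) (3 * g)) ×ˢ (N ×ˢ range g)).card * m ^ 2 ≤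
          2 * ∑ x ∈ (G ×ˢ Ico (2 * g) (3 * g)) ×ˢ (N ×ˢ range g),
            ed r (M i x.1.1 x.1.2) (M (i + 1) x.2.1 x.2.2) := by
        rw [mul_sum, ← smul_eq_mul]
        apply card_nsmul_le_sum
        intro x hx
        obtain ⟨x1, x2⟩ := mem_product.1 hx
        have d0 := f0.1 _ (hT _ x1).1
        have d1 := f1.1 _ (hT' _ x2).1
        have b0 := d0.1 _ (hT _ x1).2
        have b1 := d1.1 _ (hT' _ x2).2
        have hfree : Free b t (M i x.1.1 x.1.2) (M (i + 1) x.2.1 x.2.2) := by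
          rintro ⟨z, hz, z', hz', c1, c2, c3⟩
          obtain ⟨y, hy⟩ := (mem_filter.1 (mem_product.1 x1).1).2
          have j1 := mem_Ico.1 (mem_product.1 x1).2
          have j2 := mem_range.1 (mem_product.1 x2).2
          have k1 := (d0.mono (hF i hi0).1).xx j1.1 j1.2
          have k2 := jump (b0.mono (hF i hi0).1) (b1.mono (hF (i + 1) hi).1) hz hz' c1 c2 c3
          have k3 := (d1.mono (hF (i + 1) hi).1).2 x.2.2 (2 * g) (by omega) (by omega)
          refine (mem_filter.1 (mem_product.1 x2).1).2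
            ⟨y, (((hy.trans k1).trans k2).trans k3).drop _ ?_⟩
          have : (i + 1 + 1) * g = (i + 1) * g + g := by ring
          omega
        have k1 := hK b _ _ b0.2.2.2.1.le b1.2.2.2.1.le
          (fun u hu v hv => hlt u (b0.2.2.1 hu) v (b1.2.2.1 hv)) hfree
        have k2 := ed_add hrb (M i x.1.1 x.1.2) (M (i + 1) x.2.1 x.2.2)
        rw [b0.2.2.2.1, b1.2.2.2.1] at k2
        have : m * m = m ^ 2 := by ring
        omega
      simp only [card_product, Nat.card_Ico, card_range, show 3 * g - 2 * g = g by omega] at s2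
      have s3 : G.card * g * (N.card * g) * m ^ 2 ≤ 2 * ed r (F i) (F (i + 1)) := by omega
      have a0 : e < 12 * (G.card * g * m) := by
        have := Nat.mul_le_mul_right (g * m) ih
        nlinarith
      have a1 : e < 12 * (N.card * g * m) := by
        have := Nat.mul_le_mul_right (g * m) hNc
        nlinarith
      have a2 : e * e < (12 * (G.card * g * m)) * (12 * (N.card * g * m)) :=
        Nat.mul_lt_mul'' a0 a1
      nlinarith
  have k := key (ρ - 1) (by omega)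
  have hp : 1 ≤ p (ρ - 1) := by
    have := (hc (ρ - 1) (by omega)).2
    by_contra hcon
    have : p (ρ - 1) = 0 := by omega
    simp_all
  obtain ⟨q, hq⟩ := card_pos.1 (show 0 < ((range (p (ρ - 1))).filter
      (fun q => ∃ y, Ch b t m S y (X (ρ - 1) q (2 * g)) ((ρ - 1 + 1) * g))).card by omega)
  obtain ⟨y, hy⟩ := (mem_filter.1 hq).2
  rw [show ρ - 1 + 1 = ρ by omega] at hy
  exact ⟨_, _, hy⟩

end Pool.Agent.H4Z.OR
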