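import Pool.Agent.H4Z.ORC

/-! The two inductions: few vertices without long red chains and large blue cliques, and few
vertices without long chains of either colour. -/

set_option autoImplicit false

namespace Pool.Agent.H4Z.OR

open Finset

variable {t m : ℕ}

theorem scale (c d L x a j : ℕ) (hx : L * x ≤ d * a) (hL : c ^ j * d ^ (j + 1) ≤ L)
    (hL1 : 1 ≤ L) : (c * L) ^ j * x ^ (j + 1) ≤ a ^ (j + 1) := by
  have h1 : L ^ (j + 1) * ((c * L) ^ j * x ^ (j + 1)) ≤ L ^ (j + 1) * a ^ (j + 1) := by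
    calc L ^ (j + 1) * ((c * L) ^ j * x ^ (j + 1)) = (c * L) ^ j * (L * x) ^ (j + 1) := by
          rw [mul_pow L x]; ring
      _ ≤ (c * L) ^ j * (d * a) ^ (j + 1) := Nat.mul_le_mul_left _ (Nat.pow_le_pow_left hx _)
      _ = (c ^ j * d ^ (j + 1)) * (L ^ j * a ^ (j + 1)) := by rw [mul_pow, mul_pow]; ring
      _ ≤ L * (L ^ j * a ^ (j + 1)) := Nat.mul_le_mul_right _ hL
      _ = _ := by ring
  exact Nat.le_of_mul_le_mul_left h1 (pow_pos (by omega) _)

theorem no_clique {r : ℕ → ℕ → Prop} (ht : 1 ≤ t) {S : Finset ℕ} {a A : ℕ}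
    (hno : ¬ Has r t m S a) (ha : a ≤ A) :
    ¬ ∃ C ⊆ S, Cl r C ∧ C.card = t + A * (m + t) := by
  rintro ⟨C, hC, h1, h2⟩
  exact hno (((has_of_clique ht A C h1 h2).mono hC).drop ha)

theorem h_facts (a L A : ℕ) (hL : 9 ≤ L) (hA : L * A ≤ a) (hA1 : 1 ≤ A) :
    a ≤ L * (a / L + 1) ∧ A ≤ a / L + 1 ∧ L * (4 * (a / L + 1)) ≤ 8 * a ∧ 4 * (a / L + 1) < a := by
  have h1 : a < L * (a / L + 1) := Nat.lt_mul_div_succ _ (by omega)
  have h2 : L * (a / L) ≤ a := Nat.mul_div_le _ _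
  have h3 : A ≤ a / L := (Nat.le_div_iff_mul_le (by omega)).2 (by rw [mul_comm]; exact hA)
  have h4 : L ≤ a := le_trans (Nat.le_mul_of_pos_right _ (by omega)) hA
  have h5 : L * (4 * (a / L + 1)) ≤ 8 * a := by nlinarith
  refine ⟨h1.le, by omega, h5, ?_⟩
  have : L * (4 * (a / L + 1)) < L * a := by nlinarith
  exact Nat.lt_of_mul_lt_mul_left this

theorem thmA (ht : 1 ≤ t) (hm : 1 ≤ m) (hK : KST t m (288 * 88 ^ 2)) (j s : ℕ) :
    ∃ K : ℕ, ∀ (r b : ℕ → ℕ → Prop), (∀ u v, r u v ∨ b u v) → ∀ a : ℕ, 1 ≤ a →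
      ∀ S : Finset ℕ, (¬ ∃ C ⊆ S, Cl b C ∧ C.card = s) → ¬ Has r t m S a →
        S.card ^ j ≤ K * a ^ (j + 1) := by
  classical
  induction s with
  | zero =>
    refine ⟨0, fun r b _ a _ S h _ => absurd ⟨∅, empty_subset _, fun u hu => by simp at hu, rfl⟩ h⟩
  | succ s ihs =>
    obtain ⟨K, hKs⟩ := ihs
    obtain ⟨L, hL, hL9⟩ : ∃ L, 16 ^ j * 8 ^ (j + 1) ≤ L ∧ 9 ≤ L :=
      ⟨_ + 9, Nat.le_add_right _ _, Nat.le_add_left _ _⟩
    obtain ⟨A, hA⟩ : ∃ A, A = L * (10 * L * 2) := ⟨_, rfl⟩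
    obtain ⟨B, hB, hB'⟩ : ∃ B, 2 ^ (t + A * (m + t) + (s + 1)) ≤ B ∧ 40 * L * 2 ≤ B :=
      ⟨_ + _, Nat.le_add_right _ _, Nat.le_add_left _ _⟩
    refine ⟨B ^ j + (320 * L) ^ j * K, ?_⟩
    intro r b hrb a
    induction a using Nat.strong_induction_on with
    | _ a ih =>
    intro ha S hb hno
    have small : S.card ≤ B → S.card ^ j ≤ (B ^ j + (320 * L) ^ j * K) * a ^ (j + 1) := by
      intro h
      calc S.card ^ j ≤ B ^ j := Nat.pow_le_pow_left h _
        _ ≤ (B ^ j + (320 * L) ^ j * K) * 1 := by rw [mul_one]; exact Nat.le_add_right _ _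
        _ ≤ _ := Nat.mul_le_mul_left _ (Nat.one_le_pow _ _ ha)
    by_cases haA : a ≤ A
    · apply small
      by_contra hcon
      rcases ramsey hrb _ (t + A * (m + t)) (s + 1) rfl S (hB.trans (by omega)) with h | h
      · exact no_clique ht hno haA h
      · exact hb h
    by_cases hS : S.card ≤ B
    · exact small hS
    obtain ⟨f1, f2, f3, f4⟩ := h_facts a L (10 * L * 2) (by omega) (by omega) (by omega)
    rcases step ht hm hK S a L 2 (a / L + 1) (by omega) (by omega) f1 f2 (by omega) hno with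
      ⟨U, hU, h1, h2⟩ | ⟨e, F, h1, h2, h3⟩
    · have k1 := ih _ f4 (by omega) U (fun ⟨C, hC, h⟩ => hb ⟨C, hC.trans hU, h⟩) h2
      have k2 := scale 16 8 L _ a j f3 (by omega) (by omega)
      calc S.card ^ j ≤ (16 * L * U.card) ^ j := Nat.pow_le_pow_left h1 _
        _ = (16 * L) ^ j * U.card ^ j := by rw [mul_pow]
        _ ≤ (16 * L) ^ j * ((B ^ j + (320 * L) ^ j * K) * (4 * (a / L + 1)) ^ (j + 1)) :=
          Nat.mul_le_mul_left _ k1
        _ = (B ^ j + (320 * L) ^ j * K) * ((16 * L) ^ j * (4 * (a / L + 1)) ^ (j + 1)) := by ring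
        _ ≤ _ := Nat.mul_le_mul_left _ k2
    · obtain ⟨hlt, hed⟩ := h3 0 1 (by omega) (by omega)
      obtain ⟨s0, c0⟩ := h2 0 (by omega)
      obtain ⟨s1, c1⟩ := h2 1 (by omega)
      have he : 1 ≤ e := by
        by_contra hcon
        have : e = 0 := by omega
        rw [this] at h1
        omega
      have hv : ∃ v ∈ F 0, 2 * ((F 1).filter (r v)).card ≤ e := by
        by_contra hcon
        push Not at hcon
        have k1 : (F 0).card * e ≤ 2 * ed r (F 0) (F 1) := by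
          rw [ed_eq_sum, mul_sum, ← smul_eq_mul]
          apply card_nsmul_le_sum
          intro v hv
          exact (hcon v hv).le
        rw [c0] at k1
        nlinarith
      obtain ⟨v, hv, hvd⟩ := hv
      have hsum := card_filter_add_card_filter_not (s := F 1) (r v)
      set N := (F 1).filter (fun u => ¬ r v u) with hN
      have k1 := hKs r b hrb a ha N (by
        rintro ⟨C, hC, d1, d2⟩
        have hvC : ∀ u ∈ C, v < u := fun u hu => hlt v hv u (mem_filter.1 (hC hu)).1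
        refine hb ⟨insert v C, insert_subset (s0 hv) (hC.trans ((filter_subset _ _).trans s1)),
          ?_, ?_⟩
        · intro x hx y hy hxy
          rcases mem_insert.1 hx with rfl | hx <;> rcases mem_insert.1 hy with hy | hy
          · omega
          · exact (hrb _ _).resolve_left (mem_filter.1 (hC hy)).2
          · have := hvC x hx; omega
          · exact d1 x hx y hy hxy
        · rw [card_insert_of_notMem (fun h => lt_irrefl _ (hvC v h)), d2])
        (fun h => hno (h.mono ((filter_subset _ _).trans s1)))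
      have k2 : S.card ≤ 320 * L * N.card := by
        have : e ≤ 2 * N.card := by omega
        calc S.card ≤ 80 * L * 2 * e := h1
          _ ≤ 80 * L * 2 * (2 * N.card) := Nat.mul_le_mul_left _ this
          _ = _ := by ring
      calc S.card ^ j ≤ (320 * L * N.card) ^ j := Nat.pow_le_pow_left k2 _
        _ = (320 * L) ^ j * N.card ^ j := by rw [mul_pow]
        _ ≤ (320 * L) ^ j * (K * a ^ (j + 1)) := Nat.mul_le_mul_left _ k1
        _ = ((320 * L) ^ j * K) * a ^ (j + 1) := by ring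
        _ ≤ _ := Nat.mul_le_mul_right _ (by omega)

theorem thmB (ht : 1 ≤ t) (hm : 1 ≤ m) (hK : KST t m (288 * 88 ^ 2)) (j : ℕ) :
    ∃ K : ℕ, ∀ (r b : ℕ → ℕ → Prop), (∀ u v, r u v ∨ b u v) → ∀ n a c : ℕ, a + c = n → 1 ≤ a →
      1 ≤ c → ∀ S : Finset ℕ, ¬ Has r t m S a → ¬ Has b t m S c →
        S.card ^ j ≤ K * (a * c) ^ (j + 1) := by
  classical
  obtain ⟨L, hL, hL9⟩ : ∃ L, 16 ^ j * 8 ^ (j + 1) ≤ L ∧ 9 ≤ L :=
    ⟨_ + 9, Nat.le_add_right _ _, Nat.le_add_left _ _⟩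
  obtain ⟨ρ, hρ, hρ9⟩ : ∃ ρ, (160 * L) ^ j * 6 ^ (j + 1) ≤ ρ ∧ 9 ≤ ρ :=
    ⟨_ + 9, Nat.le_add_right _ _, Nat.le_add_left _ _⟩
  obtain ⟨A, hA⟩ : ∃ A, A = L * (10 * L * ρ) + ρ := ⟨_, rfl⟩
  obtain ⟨K, hKs⟩ := thmA ht hm hK j (t + A * (m + t))
  obtain ⟨B, hB⟩ : ∃ B, B = 40 * L * ρ := ⟨_, rfl⟩
  refine ⟨B ^ j + K, ?_⟩
  intro r b hrb n
  induction n using Nat.strong_induction_on with
  | _ n ih =>
  intro a c hn ha hc S hr hb
  by_cases haA : a ≤ A
  · have := hKs b r (fun u v => (hrb u v).symm) c hc S (no_clique ht hr haA) hb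
    refine this.trans (Nat.mul_le_mul (by omega) (Nat.pow_le_pow_left ?_ _))
    exact Nat.le_mul_of_pos_left _ (by omega)
  by_cases hcA : c ≤ A
  · have := hKs r b hrb a ha S (no_clique ht hb hcA) hr
    refine this.trans (Nat.mul_le_mul (by omega) (Nat.pow_le_pow_left ?_ _))
    exact Nat.le_mul_of_pos_right _ (by omega)
  by_cases hS : S.card ≤ B
  · calc S.card ^ j ≤ B ^ j := Nat.pow_le_pow_left hS _
      _ ≤ (B ^ j + K) * 1 := by omega
      _ ≤ _ := Nat.mul_le_mul_left _ (pow_pos (Nat.mul_pos ha hc) _)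
  have hLρ : 1 ≤ 10 * L * ρ := Nat.mul_pos (by omega) (by omega)
  obtain ⟨f1, f2, f3, f4⟩ := h_facts a L (10 * L * ρ) (by omega) (by omega) hLρ
  rcases step ht hm hK S a L ρ (a / L + 1) (by omega) (by omega) f1 f2 (by omega) hr with
    ⟨U, hU, h1, h2⟩ | ⟨e, F, h1, h2, h3⟩
  · have k1 := ih _ (by omega) (4 * (a / L + 1)) c rfl (by omega) hc U h2
      (fun h => hb (h.mono hU))
    have k2 := scale 16 8 L _ a j f3 (by omega) (by omega)
    calc S.card ^ j ≤ (16 * L * U.card) ^ j := Nat.pow_le_pow_left h1 _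
      _ = (16 * L) ^ j * U.card ^ j := by rw [mul_pow]
      _ ≤ (16 * L) ^ j * ((B ^ j + K) * (4 * (a / L + 1) * c) ^ (j + 1)) :=
        Nat.mul_le_mul_left _ k1
      _ = (B ^ j + K) * (((16 * L) ^ j * (4 * (a / L + 1)) ^ (j + 1)) * c ^ (j + 1)) := by
        rw [mul_pow _ c]; ring
      _ ≤ (B ^ j + K) * (a ^ (j + 1) * c ^ (j + 1)) :=
        Nat.mul_le_mul_left _ (Nat.mul_le_mul_right _ k2)
      _ = _ := by rw [mul_pow a c]
  · have he : 1 ≤ e := by
      by_contra hcon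
      have : e = 0 := by omega
      rw [this] at h1
      omega
    have g1 : c < ρ * (c / ρ + 1) := Nat.lt_mul_div_succ _ (by omega)
    have g2 : ρ * (c / ρ) ≤ c := Nat.mul_div_le _ _
    have g3 : ρ * (3 * (c / ρ + 1)) ≤ 6 * c := by
      have : ρ ≤ c := by omega
      nlinarith
    have g4 : 3 * (c / ρ + 1) < c := by
      have h9 : 9 ≤ ρ := by omega
      have : ρ * (3 * (c / ρ + 1)) < ρ * c := by nlinarith
      exact Nat.lt_of_mul_lt_mul_left this
    by_cases hU : ∀ i < ρ, ∀ U ⊆ F i, e ≤ 2 * U.card → Has b t m U (3 * (c / ρ + 1))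
    · exact absurd ((concat hrb ht hm hK S ρ e (c / ρ + 1) (by omega) (Nat.le_add_left _ _) he F h2 h3
        hU).drop g1.le) hb
    push Not at hU
    obtain ⟨i, hi, U, hU, u1, u2⟩ := hU
    have k1 := ih _ (by omega) a (3 * (c / ρ + 1)) rfl ha
      (Nat.mul_pos (by omega) (Nat.succ_pos _)) U
      (fun h => hr (h.mono (hU.trans (h2 i hi).1))) u2
    have k2 := scale (160 * L) 6 ρ _ c j g3 (by omega) (by omega)
    have k3 : S.card ≤ 160 * L * ρ * U.card := by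
      calc S.card ≤ 80 * L * ρ * e := h1
        _ ≤ 80 * L * ρ * (2 * U.card) := Nat.mul_le_mul_left _ u1
        _ = _ := by ring
    calc S.card ^ j ≤ (160 * L * ρ * U.card) ^ j := Nat.pow_le_pow_left k3 _
      _ = (160 * L * ρ) ^ j * U.card ^ j := by rw [mul_pow]
      _ ≤ (160 * L * ρ) ^ j * ((B ^ j + K) * (a * (3 * (c / ρ + 1))) ^ (j + 1)) :=
        Nat.mul_le_mul_left _ k1
      _ = (B ^ j + K) * (a ^ (j + 1) * ((160 * L * ρ) ^ j * (3 * (c / ρ + 1)) ^ (j + 1))) := by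
        rw [mul_pow a]; ring
      _ ≤ (B ^ j + K) * (a ^ (j + 1) * c ^ (j + 1)) :=
        Nat.mul_le_mul_left _ (Nat.mul_le_mul_left _ k2)
      _ = _ := by rw [mul_pow a c]

/-- the upper bound in terms of path powers. -/
theorem upper (t : ℕ) (ht : 1 ≤ t) (j : ℕ) :
    ∃ K : ℕ, ∀ n N : ℕ, 1 ≤ n → K * (n * n) ^ (j + 1) < N ^ j →
      ∀ G : SimpleGraph (Fin N), ∃ f : Fin n → Fin N, StrictMono f ∧
        ((∀ i j : Fin n, i < j → (j : ℕ) ≤ (i : ℕ) + t → G.Adj (f i) (f j)) ∨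
         (∀ i j : Fin n, i < j → (j : ℕ) ≤ (i : ℕ) + t → Gᶜ.Adj (f i) (f j))) := by
  obtain ⟨m, hm, hK⟩ := exists_kst t (288 * 88 ^ 2) ht (by norm_num)
  obtain ⟨K, hB⟩ := thmB ht hm hK j
  refine ⟨K, fun n N hn hN G => ?_⟩
  have get : ∀ ρ : ℕ → ℕ → Prop, Has ρ t m (range N) n → ∃ f : Fin n → Fin N, StrictMono f ∧
      ∀ i j : Fin n, i < j → (j : ℕ) ≤ (i : ℕ) + t → ρ (f i) (f j) := by
    rintro ρ ⟨x, y, hc⟩
    obtain ⟨k, f, h0, h1, h2, h3, -⟩ := hc.path ht
    refine ⟨fun i => ⟨f i, mem_range.1 (h1 i (by omega))⟩, ?_, ?_⟩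
    · intro i j hij
      exact h2 i j hij (by omega)
    · intro i j hij hji
      exact h3 i j hij (by omega) hji
  set r : ℕ → ℕ → Prop := fun u v => ∃ (hu : u < N) (hv : v < N), G.Adj ⟨u, hu⟩ ⟨v, hv⟩ with hr
  by_cases h1 : Has r t m (range N) n
  · obtain ⟨f, f1, f2⟩ := get r h1
    refine ⟨f, f1, Or.inl fun i j hij hji => ?_⟩
    obtain ⟨_, _, h⟩ := f2 i j hij hji
    exact h
  by_cases h2 : Has (fun u v => ¬ r u v) t m (range N) n
  · obtain ⟨f, f1, f2⟩ := get _ h2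
    refine ⟨f, f1, Or.inr fun i j hij hji => ?_⟩
    rw [SimpleGraph.compl_adj]
    exact ⟨(f1 hij).ne, fun h => f2 i j hij hji ⟨(f i).2, (f j).2, h⟩⟩
  have := hB r (fun u v => ¬ r u v) (fun u v => em _) _ n n rfl hn hn _ h1 h2
  rw [card_range] at this
  omega

/-- the product colouring lower bound. -/
theorem lower (t : ℕ) (ht : 1 ≤ t) (k N : ℕ) (hk : 1 ≤ k) (hN : N ≤ k * k) :
    ¬ ∀ G : SimpleGraph (Fin N), ∃ f : Fin (k + 1) → Fin N, StrictMono f ∧
        ((∀ i j : Fin (k + 1), i < j → (j : ℕ) ≤ (i : ℕ) + t → G.Adj (f i) (f j)) ∨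
         (∀ i j : Fin (k + 1), i < j → (j : ℕ) ≤ (i : ℕ) + t → Gᶜ.Adj (f i) (f j))) := by
  intro h
  obtain ⟨f, hf, h⟩ := h (SimpleGraph.fromRel (fun u v => (u : ℕ) / k = (v : ℕ) / k))
  rcases h with h | h
  · have key : ∀ i (hi : i < k + 1), (f 0 : ℕ) + i ≤ f ⟨i, hi⟩ ∧
        (f ⟨i, hi⟩ : ℕ) / k = (f 0 : ℕ) / k := by
      intro i
      induction i with
      | zero => intro hi; exact ⟨le_rfl, rfl⟩
      | succ i ih =>
        intro hi
        have i1 := ih (by omega)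
        have lt : (⟨i, by omega⟩ : Fin (k + 1)) < ⟨i + 1, hi⟩ := by simp [Fin.lt_def]
        have i2 : (f ⟨i, by omega⟩ : ℕ) < f ⟨i + 1, hi⟩ := hf lt
        have i3 := h _ _ lt (by simp; omega)
        rw [SimpleGraph.fromRel_adj] at i3
        refine ⟨by omega, ?_⟩
        rcases i3.2 with e | e <;> omega
    obtain ⟨k1, k2⟩ := key k (by omega)
    have := Nat.div_le_div_right (c := k) k1
    rw [Nat.add_div_right _ (by omega)] at this
    omega
  · have key : ∀ i (hi : i < k + 1), i ≤ (f ⟨i, hi⟩ : ℕ) / k := by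
      intro i
      induction i with
      | zero => intro hi; exact Nat.zero_le _
      | succ i ih =>
        intro hi
        have i1 := ih (by omega)
        have lt : (⟨i, by omega⟩ : Fin (k + 1)) < ⟨i + 1, hi⟩ := by simp [Fin.lt_def]
        have i2 : (f ⟨i, by omega⟩ : ℕ) < f ⟨i + 1, hi⟩ := hf lt
        have i3 := h _ _ lt (by simp; omega)
        rw [SimpleGraph.compl_adj, SimpleGraph.fromRel_adj] at i3
        have i4 := Nat.div_le_div_right (c := k) i2.le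
        have i5 : ¬ (f ⟨i, by omega⟩ : ℕ) / k = (f ⟨i + 1, hi⟩ : ℕ) / k :=
          fun e => i3.2 ⟨i3.1, Or.inl e⟩
        omega
    have k1 := key k (by omega)
    rw [Nat.le_div_iff_mul_le (by omega)] at k1
    have := (f ⟨k, by omega⟩).2
    omega

end Pool.Agent.H4Z.OR
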