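import Mathlib
import Pool.Agent.H391Z.UniqB

/-! Exponential sums over shifted rationals with a fixed denominator. -/

set_option autoImplicit false

open Finset Real

namespace Pool.Agent.H4Z.TN

open Pool.Agent.H391Z.Uniq

theorem E_one (h : ℤ) (x : ℝ) : E h x = E 1 (h * x) := by
  unfold E; congr 1; push_cast; ring

theorem E_conj (h : ℤ) (x : ℝ) : (starRingEnd ℂ) (E h x) = E h (-x) := by
  rw [E_eq, E_eq, ← Complex.exp_conj]
  congr 1
  simp only [map_mul, Complex.conj_ofReal, Complex.conj_I]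
  push_cast; ring

theorem E_lip (h : ℤ) (x y : ℝ) : ‖E h x - E h y‖ ≤ 2 * π * |(h : ℝ)| * |x - y| := by
  have e : E h x - E h y = E h y * (E h (x - y) - 1) := by
    rw [mul_sub, ← E_add, mul_one]; congr 2; ring
  rw [e, norm_mul, norm_E, one_mul, E_eq, mul_comm _ Complex.I]
  refine Real.norm_exp_I_mul_ofReal_sub_one_le.trans (le_of_eq ?_)
  rw [Real.norm_eq_abs, abs_mul, abs_mul, abs_of_pos (by positivity : (0 : ℝ) < 2 * π)]

theorem E_sub_one (β : ℝ) : 4 * |β - round β| ≤ ‖E 1 β - 1‖ := by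
  have e : E 1 β = E 1 (β - round β) := by
    have : β = (β - round β) + ((round β : ℤ) : ℝ) := by ring
    conv_lhs => rw [this, E_add, E_int, mul_one]
  rw [e]
  set γ := β - round β with hγ
  have h1 : |γ| ≤ 1 / 2 := abs_sub_round β
  rw [E_eq, mul_comm _ Complex.I, Complex.norm_exp_I_mul_ofReal_sub_one, Real.norm_eq_abs, abs_mul]
  have e2 : 2 * π * ((1 : ℤ) : ℝ) * γ / 2 = π * γ := by push_cast; ring
  rw [e2]
  have h2 : 2 / π * (π * |γ|) ≤ sin (π * |γ|) :=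
    Real.mul_le_sin (by positivity) (by nlinarith [Real.pi_pos])
  have h3 : 2 / π * (π * |γ|) = 2 * |γ| := by field_simp
  have h4 : sin (π * |γ|) ≤ |sin (π * γ)| := by
    rcases abs_cases γ with h | h
    · rw [h.1]; exact le_abs_self _
    · rw [h.1, mul_neg, Real.sin_neg]; exact neg_le_abs _
  rw [abs_two]
  linarith

theorem geom_Icc (β : ℝ) (u v : ℤ) (hβ : β - round β ≠ 0) :
    ‖∑ n ∈ Icc u v, E 1 (n * β)‖ ≤ 1 / (2 * |β - round β|) := by
  have hpos : 0 < |β - round β| := abs_pos.2 hβ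
  have h1 := E_sub_one β
  have e : ∑ n ∈ Icc u v, E 1 (n * β) =
      E 1 (u * β) * ∑ i ∈ range (v + 1 - u).toNat, E 1 β ^ i := by
    rw [Int.Icc_eq_finset_map, sum_map, mul_sum]
    refine sum_congr rfl fun i _ => ?_
    rw [← E_nat_mul, ← E_add]
    congr 1
    simp only [Function.Embedding.trans_apply, Nat.castEmbedding_apply, addLeftEmbedding_apply]
    push_cast; ring
  rw [e, norm_mul, norm_E, one_mul]
  have h2 := geom_sum_mul (E 1 β) (v + 1 - u).toNat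
  have h3 : ‖∑ i ∈ range (v + 1 - u).toNat, E 1 β ^ i‖ * ‖E 1 β - 1‖ ≤ 2 := by
    rw [← norm_mul, h2]
    refine (norm_sub_le _ _).trans ?_
    rw [norm_pow, norm_E]; norm_num
  rw [le_div_iff₀ (by positivity)]
  have h4 := norm_nonneg (∑ i ∈ range (v + 1 - u).toNat, E 1 β ^ i)
  nlinarith

theorem pow_diff_ge (b : ℕ) (hb : 2 ≤ b) (j l : ℕ) (hjl : j ≠ l) :
    (b : ℝ) ^ j / 2 ≤ |(b : ℝ) ^ j - (b : ℝ) ^ l| := by
  have hb2 : (2 : ℝ) ≤ b := by exact_mod_cast hb
  have key : ∀ j l : ℕ, j < l → 2 * (b : ℝ) ^ j ≤ (b : ℝ) ^ l := by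
    intro j l h
    calc 2 * (b : ℝ) ^ j ≤ b * (b : ℝ) ^ j := by gcongr
      _ = (b : ℝ) ^ (j + 1) := by ring
      _ ≤ _ := pow_le_pow_right₀ (by linarith) h
  have hp : 0 < (b : ℝ) ^ j := by positivity
  rcases lt_or_gt_of_ne hjl with h | h
  · have := key j l h
    rw [abs_sub_comm]
    refine le_trans ?_ (le_abs_self _)
    linarith
  · have := key l j h
    refine le_trans ?_ (le_abs_self _)
    linarith

theorem half_sum (T0 T : ℕ) : ∑ j ∈ Ico T0 T, (1 / 2 : ℝ) ^ (j - T0) ≤ 2 := by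
  rw [sum_Ico_eq_sum_range]
  simp only [Nat.add_sub_cancel_left]
  exact sum_geometric_two_le _

/-- the partial Weyl sum -/
noncomputable def WS (b : ℕ) (h : ℤ) (T0 T : ℕ) (α : ℝ) : ℂ :=
  ∑ j ∈ Ico T0 T, E h (α * (b : ℝ) ^ j)

theorem second_moment (b : ℕ) (hb : 2 ≤ b) (h : ℤ) (hh : h ≠ 0) (T0 T N : ℕ) (hN : 0 < N)
    (hT : 1 ≤ T) (w D θ : ℝ) (hw : 0 < w) (hD : 0 < D) (u v : ℤ)
    (hcard : ((Icc u v).card : ℝ) ≤ 2 * (w * N)) (hT0 : 1 ≤ w * (b : ℝ) ^ T0)
    (hTD : (T : ℝ) ^ 2 ≤ D * w)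
    (hfar : ∀ j < T, ∀ l < T, ∀ c : ℤ, c ≠ 0 →
      D ≤ |((h * ((b : ℤ) ^ j - (b : ℤ) ^ l) - c * N : ℤ) : ℝ)|) :
    ∑ n ∈ Icc u v, ‖WS b h T0 T (θ + n / N)‖ ^ 2 ≤ 5 * T * (w * N) := by
  have hNr : (0 : ℝ) < N := by exact_mod_cast hN
  have hb2 : (2 : ℝ) ≤ b := by exact_mod_cast hb
  have e1 : ((∑ n ∈ Icc u v, ‖WS b h T0 T (θ + n / N)‖ ^ 2 : ℝ) : ℂ) =
      ∑ j ∈ Ico T0 T, ∑ l ∈ Ico T0 T, E h (θ * ((b : ℝ) ^ j - (b : ℝ) ^ l)) *
        ∑ n ∈ Icc u v, E 1 (n * (h * ((b : ℝ) ^ j - (b : ℝ) ^ l) / N)) := by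
    push_cast
    have e2 : ∀ n : ℤ, ((‖WS b h T0 T (θ + n / N)‖ : ℝ) : ℂ) ^ 2 =
        ∑ j ∈ Ico T0 T, ∑ l ∈ Ico T0 T, E h (θ * ((b : ℝ) ^ j - (b : ℝ) ^ l)) *
          E 1 (n * (h * ((b : ℝ) ^ j - (b : ℝ) ^ l) / N)) := by
      intro n
      rw [← Complex.mul_conj', WS, map_sum, sum_mul_sum]
      refine sum_congr rfl fun j _ => sum_congr rfl fun l _ => ?_
      rw [E_conj, ← E_add, E_one h, E_one h, ← E_add]
      congr 1
      field_simp
      ring
    rw [sum_congr rfl fun n _ => e2 n, sum_comm]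
    refine sum_congr rfl fun j _ => ?_
    rw [sum_comm]
    refine sum_congr rfl fun l _ => ?_
    rw [mul_sum]
  have hb1 : ∀ j ∈ Ico T0 T, ∀ l ∈ Ico T0 T,
      ‖∑ n ∈ Icc u v, E 1 (n * (h * ((b : ℝ) ^ j - (b : ℝ) ^ l) / N))‖ ≤
        (if j = l then 2 * (w * N) else 0) + N / (2 * D) + w * N * (1 / 2) ^ (j - T0) := by
    intro j hj l hl
    rw [mem_Ico] at hj hl
    have p1 : 0 ≤ (N : ℝ) / (2 * D) := by positivity
    have p2 : 0 ≤ w * N * (1 / 2 : ℝ) ^ (j - T0) := by positivity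
    split_ifs with hjl
    · refine (norm_sum_le _ _).trans ?_
      simp only [norm_E, sum_const, nsmul_eq_mul, mul_one]
      linarith
    · set β : ℝ := h * ((b : ℝ) ^ j - (b : ℝ) ^ l) / N with hβ
      have e3 : |β - round β| =
          |((h * ((b : ℤ) ^ j - (b : ℤ) ^ l) - round β * N : ℤ) : ℝ)| / N := by
        rw [← abs_of_pos hNr, ← abs_div]
        congr 1
        generalize round β = c
        rw [hβ]; push_cast; field_simp
      by_cases hc : round β = 0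
      · have h1 : (1 : ℝ) ≤ |(h : ℝ)| := by exact_mod_cast Int.one_le_abs hh
        have h2 := pow_diff_ge b hb j l hjl
        have h3 : (b : ℝ) ^ j = (b : ℝ) ^ T0 * (b : ℝ) ^ (j - T0) := by
          rw [← pow_add]; congr 1; omega
        have h4 : (2 : ℝ) ^ (j - T0) ≤ (b : ℝ) ^ (j - T0) := by gcongr
        have h5 : (2 : ℝ) ^ (j - T0) ≤ w * (b : ℝ) ^ j := by
          rw [h3, ← mul_assoc]
          calc (2 : ℝ) ^ (j - T0) = 1 * 2 ^ (j - T0) := (one_mul _).symm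
            _ ≤ _ := by gcongr
        have h6 : (2 : ℝ) ^ (j - T0) / (2 * (w * N)) ≤ |β - round β| := by
          rw [hc, Int.cast_zero, sub_zero, hβ, abs_div, abs_mul, abs_of_pos hNr,
            div_le_div_iff₀ (by positivity) hNr]
          have h7 : (b : ℝ) ^ j / 2 ≤ |(h : ℝ)| * |(b : ℝ) ^ j - (b : ℝ) ^ l| := by
            calc (b : ℝ) ^ j / 2 ≤ 1 * |(b : ℝ) ^ j - (b : ℝ) ^ l| := by linarith
              _ ≤ _ := by gcongr
          calc (2 : ℝ) ^ (j - T0) * N ≤ (w * (b : ℝ) ^ j) * N := by gcongr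
            _ = ((b : ℝ) ^ j / 2) * (2 * (w * N)) := by ring
            _ ≤ _ := by gcongr
        have h8 : 0 < (2 : ℝ) ^ (j - T0) / (2 * (w * N)) := by positivity
        refine (geom_Icc β u v (abs_pos.1 (h8.trans_le h6))).trans ?_
        have h9 : 1 / (2 * |β - round β|) ≤ w * N * (1 / 2) ^ (j - T0) := by
          calc 1 / (2 * |β - round β|) ≤ 1 / (2 * ((2 : ℝ) ^ (j - T0) / (2 * (w * N)))) := by
                gcongr
            _ = _ := by rw [one_div_pow]; field_simp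
        linarith
      · have h1 := hfar j hj.2 l hl.2 _ hc
        have h2 : D / N ≤ |β - round β| := by rw [e3]; gcongr
        have h3 : 0 < D / N := by positivity
        refine (geom_Icc β u v (abs_pos.1 (h3.trans_le h2))).trans ?_
        have h9 : 1 / (2 * |β - round β|) ≤ N / (2 * D) := by
          calc 1 / (2 * |β - round β|) ≤ 1 / (2 * (D / N)) := by gcongr
            _ = _ := by field_simp
        linarith
  have hcT : ((Ico T0 T).card : ℝ) ≤ T := by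
    rw [Nat.card_Ico]; exact_mod_cast Nat.sub_le _ _
  have hTr : (1 : ℝ) ≤ T := by exact_mod_cast hT
  have hwN : 0 < w * N := by positivity
  calc ∑ n ∈ Icc u v, ‖WS b h T0 T (θ + n / N)‖ ^ 2
      ≤ ‖((∑ n ∈ Icc u v, ‖WS b h T0 T (θ + n / N)‖ ^ 2 : ℝ) : ℂ)‖ := by
        rw [Complex.norm_real]; exact le_abs_self _
    _ ≤ ∑ j ∈ Ico T0 T, ∑ l ∈ Ico T0 T, ((if j = l then 2 * (w * N) else 0) + N / (2 * D) +
          w * N * (1 / 2) ^ (j - T0)) := by
        rw [e1]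
        refine (norm_sum_le _ _).trans (sum_le_sum fun j hj => ?_)
        refine (norm_sum_le _ _).trans (sum_le_sum fun l hl => ?_)
        rw [norm_mul, norm_E, one_mul]
        exact hb1 j hj l hl
    _ ≤ ∑ j ∈ Ico T0 T, (2 * (w * N) + T * (N / (2 * D)) +
          T * (w * N) * (1 / 2) ^ (j - T0)) := by
        refine sum_le_sum fun j hj => ?_
        rw [sum_add_distrib, sum_add_distrib, sum_ite_eq, if_pos hj, sum_const, sum_const,
          nsmul_eq_mul, nsmul_eq_mul, mul_assoc (T : ℝ)]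
        gcongr
    _ ≤ T * (2 * (w * N) + T * (N / (2 * D))) + T * (w * N) * 2 := by
        rw [sum_add_distrib, sum_const, nsmul_eq_mul, ← mul_sum]
        have := half_sum T0 T
        gcongr
    _ ≤ 5 * T * (w * N) := by
        have h1 : (T : ℝ) * (T * (N / (2 * D))) ≤ w * N / 2 := by
          have : (T : ℝ) * (T * (N / (2 * D))) = T ^ 2 * N / (2 * D) := by ring
          rw [this, div_le_div_iff₀ (by positivity) (by norm_num)]
          nlinarith
        nlinarith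

theorem markov_card (S : Finset ℤ) (f : ℤ → ℝ) (B c : ℝ) (hc : 0 < c)
    (hB : ∑ n ∈ S, f n ^ 2 ≤ B) : ((S.filter fun n => c < f n).card : ℝ) ≤ B / c ^ 2 := by
  rw [le_div_iff₀ (by positivity)]
  calc ((S.filter fun n => c < f n).card : ℝ) * c ^ 2
      = ∑ _n ∈ S.filter (fun n => c < f n), c ^ 2 := by rw [sum_const, nsmul_eq_mul]
    _ ≤ ∑ n ∈ S.filter (fun n => c < f n), f n ^ 2 := by
        refine sum_le_sum fun n hn => ?_
        have := (mem_filter.1 hn).2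
        gcongr
    _ ≤ ∑ n ∈ S, f n ^ 2 :=
        sum_le_sum_of_subset_of_nonneg (filter_subset _ _) fun _ _ _ => by positivity
    _ ≤ B := hB

end Pool.Agent.H4Z.TN
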