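import Pool.Agent.H4Z.TNA

/-! Choice of a prime for which most numerators give small Weyl sums. -/

set_option autoImplicit false

open Finset Real

namespace Pool.Agent.H4Z.TN

open Pool.Agent.H391Z.Uniq

/-- the least `T` with `1 ≤ w * b ^ T` -/
noncomputable def Tb (b : ℕ) (w : ℝ) : ℕ := Nat.clog b ⌈1 / w⌉₊

theorem Tb_lower {b : ℕ} (hb : 2 ≤ b) {w : ℝ} (hw : 0 < w) : 1 ≤ w * (b : ℝ) ^ Tb b w := by
  have h1 : ⌈1 / w⌉₊ ≤ b ^ Tb b w := Nat.le_pow_clog (by omega) _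
  have h2 : 1 / w ≤ (b : ℝ) ^ Tb b w := (Nat.le_ceil _).trans (by exact_mod_cast h1)
  rw [div_le_iff₀ hw] at h2
  linarith

theorem Tb_upper {b : ℕ} (hb : 2 ≤ b) {w : ℝ} (hw : 0 < w) (hw1 : w ≤ 1) :
    w * (b : ℝ) ^ Tb b w ≤ 2 * b := by
  have hb2 : (2 : ℝ) ≤ b := by exact_mod_cast hb
  rcases Nat.eq_zero_or_pos (Tb b w) with h | h
  · rw [h]; simp only [pow_zero, mul_one]; linarith
  · obtain ⟨m, hm⟩ : ∃ m, Tb b w = m + 1 := ⟨Tb b w - 1, by omega⟩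
    have h1 : b ^ m < ⌈1 / w⌉₊ := Nat.pow_lt_of_lt_clog (by unfold Tb at hm; omega)
    have h2 : (b : ℝ) ^ m < 1 / w + 1 :=
      lt_trans (by exact_mod_cast h1) (Nat.ceil_lt_add_one (by positivity))
    have h3 : w * (b : ℝ) ^ m ≤ 2 := by
      have : w * (b : ℝ) ^ m ≤ w * (1 / w + 1) := by gcongr
      rw [mul_add, mul_one_div_cancel hw.ne'] at this
      linarith
    rw [hm, pow_succ, ← mul_assoc]
    gcongr

theorem Tb_ge {b : ℕ} (hb : 2 ≤ b) {w : ℝ} (hw : 0 < w) {m : ℕ} (h : w * (b : ℝ) ^ m ≤ 1) :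
    m ≤ Tb b w := by
  have h1 := Tb_lower hb hw
  have h2 : (b : ℝ) ^ m ≤ (b : ℝ) ^ Tb b w := le_of_mul_le_mul_left (h.trans h1) hw
  have hb2 : (1 : ℝ) < b := by exact_mod_cast (by omega : 1 < b)
  exact (pow_le_pow_iff_right₀ hb2).1 h2

theorem Tb_le {b : ℕ} (hb : 2 ≤ b) {w : ℝ} (hw : 0 < w) {m : ℕ} (h : 1 ≤ w * (b : ℝ) ^ m) :
    Tb b w ≤ m := by
  unfold Tb
  rw [Nat.clog_le_iff_le_pow (by omega), Nat.ceil_le, div_le_iff₀ hw]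
  push_cast; linarith

theorem many_primes (C : ℕ) : ∃ s : ℕ, 1 ≤ s ∧ C * s ^ 6 < Nat.primeCounting (2 ^ s) := by
  have h1 := tendsto_pow_const_div_const_pow_of_one_lt 7 (r := 2) (by norm_num)
  have h2 := h1.eventually (gt_mem_nhds (show (0 : ℝ) < 1 / (C + 2) by positivity))
  obtain ⟨s, hs1, hs2⟩ := (h2.and (Filter.eventually_ge_atTop 1)).exists
  refine ⟨s, hs2, ?_⟩
  have hs : (1 : ℝ) ≤ s := by exact_mod_cast hs2
  rw [div_lt_div_iff₀ (by positivity) (by positivity)] at hs1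
  have h3 := Chebyshev.pi_ge (2 ^ s)
  have hl : 0 < Real.log 2 := Real.log_pos (by norm_num)
  have h4 : Real.log ((2 ^ s : ℕ) : ℝ) = s * Real.log 2 := by push_cast; rw [Real.log_pow]
  have h5 : Real.log (((2 ^ s : ℕ) : ℝ) + 1) ≤ (s + 1) * Real.log 2 := by
    have : ((s : ℝ) + 1) * Real.log 2 = Real.log (2 ^ (s + 1)) := by
      rw [Real.log_pow]; push_cast; ring
    rw [this]
    apply Real.log_le_log (by positivity)
    push_cast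
    have : (1 : ℝ) ≤ 2 ^ s := one_le_pow₀ (by norm_num)
    rw [pow_succ]; linarith
  rw [h4, div_le_iff₀ (by positivity)] at h3
  have h6 : ((2 : ℝ) ^ s - (s + 1)) * Real.log 2 ≤
      ((Nat.primeCounting (2 ^ s) : ℝ) * s) * Real.log 2 := by
    push_cast at h3 h5
    nlinarith
  have h7 := le_of_mul_le_mul_right h6 hl
  have h8 : (s : ℝ) ≤ (s : ℝ) ^ 7 := le_self_pow₀ hs (by norm_num)
  have h9 : ((C : ℝ) * s ^ 6) * s < (Nat.primeCounting (2 ^ s) : ℝ) * s := by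
    have : ((C : ℝ) * s ^ 6) * s = C * s ^ 7 := by ring
    rw [this]
    nlinarith
  have h10 := lt_of_mul_lt_mul_right h9 (by linarith)
  exact_mod_cast h10

theorem card_primeFactors_le (m B : ℕ) (h : m ≤ 2 ^ B) : m.primeFactors.card ≤ B := by
  rcases Nat.eq_zero_or_pos m with rfl | hm
  · simp
  · have h1 : 2 ^ m.primeFactors.card ≤ ∏ p ∈ m.primeFactors, p :=
      Finset.pow_card_le_prod _ _ _ fun p hp => (Nat.prime_of_mem_primeFactors hp).two_le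
    have h2 : ∏ p ∈ m.primeFactors, p ≤ m := Nat.le_of_dvd hm (Nat.prod_primeFactors_dvd m)
    exact (Nat.pow_le_pow_iff_right (by norm_num)).1 (h1.trans (h2.trans h))

theorem exists_prime_avoid (X : Finset ℤ) (B M0 n : ℕ) (hX : ∀ x ∈ X, x.natAbs ≤ 2 ^ B)
    (h : M0 + X.card * B < Nat.primeCounting n) :
    ∃ p : ℕ, p.Prime ∧ M0 ≤ p ∧ p ≤ n ∧ ∀ x ∈ X, x ≠ 0 → ¬ (p : ℤ) ∣ x := by
  by_contra hcon
  push Not at hcon
  have hsub : Nat.primesLE n ⊆ range M0 ∪ X.biUnion fun x => x.natAbs.primeFactors := by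
    intro p hp
    rw [Nat.mem_primesLE] at hp
    rw [mem_union, mem_range, mem_biUnion]
    by_cases hM : p < M0
    · exact Or.inl hM
    · obtain ⟨x, hx, hx0, hpx⟩ := hcon p hp.2 (by omega) hp.1
      refine Or.inr ⟨x, hx, Nat.mem_primeFactors.2 ⟨hp.2, ?_, Int.natAbs_ne_zero.2 hx0⟩⟩
      exact Int.natCast_dvd.1 hpx
  have h1 := card_le_card hsub
  rw [Nat.primesLE_card_eq_primeCounting] at h1
  have h2 := card_union_le (range M0) (X.biUnion fun x => x.natAbs.primeFactors)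
  have h3 := card_biUnion_le_card_mul X (fun x => x.natAbs.primeFactors) B
    fun x hx => card_primeFactors_le _ _ (hX x hx)
  rw [card_range] at h2
  omega

theorem good_prime (k τ c M0 : ℕ) (hτ : 1 ≤ τ) : ∃ s p : ℕ, 1 ≤ s ∧ p.Prime ∧ M0 ≤ p ∧ p ≤ 2 ^ s ∧
    ∀ b ≤ k + 2, ∀ h : ℤ, |h| ≤ k → ∀ j < τ * s, ∀ l < τ * s, ∀ m : ℤ,
      |m| ≤ (c * (τ * s) ^ 2 : ℕ) → h * ((b : ℤ) ^ j - (b : ℤ) ^ l) - m ≠ 0 →
      ¬ (p : ℤ) ∣ h * ((b : ℤ) ^ j - (b : ℤ) ^ l) - m := by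
  classical
  obtain ⟨s, hs, hs'⟩ := many_primes
    (M0 + ((k + 3) * (2 * k + 1) * (2 * c + 1)) * (2 * k + 4 + c) * τ ^ 6)
  obtain ⟨Z, hZ⟩ : ∃ Z, Z = τ * s := ⟨_, rfl⟩
  have hZ1 : 1 ≤ Z := by rw [hZ]; exact Nat.mul_pos hτ hs
  have hZ2 : Z ≤ Z ^ 2 := Nat.le_self_pow (by norm_num) _
  let Y : Finset (ℕ × ℤ × ℕ × ℕ × ℤ) := range (k + 3) ×ˢ Icc (-(k : ℤ)) k ×ˢ range Z ×ˢ range Z ×ˢ
    Icc (-((c * Z ^ 2 : ℕ) : ℤ)) (c * Z ^ 2 : ℕ)
  let g : ℕ × ℤ × ℕ × ℕ × ℤ → ℤ := fun y =>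
    y.2.1 * ((y.1 : ℤ) ^ y.2.2.1 - (y.1 : ℤ) ^ y.2.2.2.1) - y.2.2.2.2
  have hYc : Y.card ≤ (k + 3) * (2 * k + 1) * (2 * c + 1) * Z ^ 4 := by
    simp only [Y, card_product, card_range, Int.card_Icc]
    have e1 : ((k : ℤ) + 1 - -(k : ℤ)).toNat = 2 * k + 1 := by omega
    have e2 : (((c * Z ^ 2 : ℕ) : ℤ) + 1 - -((c * Z ^ 2 : ℕ) : ℤ)).toNat = 2 * (c * Z ^ 2) + 1 := by
      omega
    rw [e1, e2]
    have h1 : 2 * (c * Z ^ 2) + 1 ≤ (2 * c + 1) * Z ^ 2 := by nlinarith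
    calc (k + 3) * ((2 * k + 1) * (Z * (Z * (2 * (c * Z ^ 2) + 1))))
        ≤ (k + 3) * ((2 * k + 1) * (Z * (Z * ((2 * c + 1) * Z ^ 2)))) := by gcongr
      _ = _ := by ring
  obtain ⟨p, hp, hpM, hpn, hpx⟩ := exists_prime_avoid (Y.image g) ((2 * k + 4 + c) * Z ^ 2) M0
    (2 ^ s) (by
      intro x hx
      obtain ⟨⟨b, h, j, l, m⟩, hy, rfl⟩ := mem_image.1 hx
      simp only [Y, mem_product, mem_range, mem_Icc] at hy
      obtain ⟨hb, hh, hj, hl, hm⟩ := hy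
      simp only [g]
      have hb2 : b ≤ 2 ^ (k + 2) := (by omega : b ≤ k + 2).trans Nat.lt_two_pow_self.le
      have hpw : ∀ i < Z, b ^ i ≤ 2 ^ ((k + 2) * Z) := fun i hi => by
        calc b ^ i ≤ (2 ^ (k + 2)) ^ i := Nat.pow_le_pow_left hb2 _
          _ ≤ (2 ^ (k + 2)) ^ Z := Nat.pow_le_pow_right (by positivity) hi.le
          _ = _ := by rw [← pow_mul]
      have h1 : ((b : ℤ) ^ j - (b : ℤ) ^ l).natAbs ≤ 2 ^ ((k + 2) * Z) := by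
        have a1 := hpw j hj
        have a2 := hpw l hl
        have a3 : ((b : ℤ) ^ j - (b : ℤ) ^ l) = ((b ^ j : ℕ) : ℤ) - ((b ^ l : ℕ) : ℤ) := by
          push_cast; ring
        rw [a3]; omega
      have h2 : h.natAbs ≤ 2 ^ k := (by omega : h.natAbs ≤ k).trans Nat.lt_two_pow_self.le
      have h3 : m.natAbs ≤ 2 ^ (c * Z ^ 2) :=
        (by omega : m.natAbs ≤ c * Z ^ 2).trans Nat.lt_two_pow_self.le
      have h4 : (h * ((b : ℤ) ^ j - (b : ℤ) ^ l)).natAbs ≤ 2 ^ (k + (k + 2) * Z) := by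
        rw [Int.natAbs_mul, pow_add]; gcongr
      have h5 : k + (k + 2) * Z + c * Z ^ 2 + 1 ≤ (2 * k + 4 + c) * Z ^ 2 := by nlinarith
      have h6 : 2 ^ (k + (k + 2) * Z) ≤ 2 ^ (k + (k + 2) * Z + c * Z ^ 2) :=
        Nat.pow_le_pow_right (by norm_num) (by omega)
      have h7 : 2 ^ (c * Z ^ 2) ≤ 2 ^ (k + (k + 2) * Z + c * Z ^ 2) :=
        Nat.pow_le_pow_right (by norm_num) (by omega)
      have h8 : 2 ^ (k + (k + 2) * Z + c * Z ^ 2 + 1) ≤ 2 ^ ((2 * k + 4 + c) * Z ^ 2) :=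
        Nat.pow_le_pow_right (by norm_num) h5
      have h9 := Int.natAbs_sub_le (h * ((b : ℤ) ^ j - (b : ℤ) ^ l)) m
      rw [pow_succ] at h8
      omega) (by
      refine lt_of_le_of_lt ?_ hs'
      have h1 : (Y.image g).card ≤ (k + 3) * (2 * k + 1) * (2 * c + 1) * Z ^ 4 :=
        card_image_le.trans hYc
      have h2 : M0 ≤ M0 * s ^ 6 := Nat.le_mul_of_pos_right _ (by positivity)
      calc M0 + (Y.image g).card * ((2 * k + 4 + c) * Z ^ 2)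
          ≤ M0 * s ^ 6 + ((k + 3) * (2 * k + 1) * (2 * c + 1) * Z ^ 4) *
            ((2 * k + 4 + c) * Z ^ 2) := by gcongr
        _ = _ := by rw [hZ]; ring)
  refine ⟨s, p, hs, hp, hpM, hpn, fun b hb h hh j hj l hl m hm hne => ?_⟩
  rw [← hZ] at hj hl hm
  refine hpx _ (mem_image.2 ⟨(b, h, j, l, m), ?_, rfl⟩) hne
  simp only [Y, mem_product, mem_range, mem_Icc]
  exact ⟨by omega, abs_le.1 hh, hj, hl, abs_le.1 hm⟩

/-- The normality property of one stage. -/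
def Q (k : ℕ) (w w' α : ℝ) : Prop :=
  ∀ b : ℕ, 2 ≤ b → b ≤ k + 2 → 1 ≤ Tb b w ∧ (k + 1) * Tb b w ≤ Tb b w' ∧
    ∀ h : ℤ, h ≠ 0 → |h| ≤ k → ∀ t : ℕ, Tb b w ≤ t ^ 2 → t ^ 2 ≤ Tb b w' →
      ‖WS b h (Tb b w) (t ^ 2) α‖ ≤ (t : ℝ) ^ 2 / (k + 1)

theorem selector (k A W : ℕ) (hA : 1 ≤ A) (hW : 1 ≤ W) : ∃ w1 : ℝ, 0 < w1 ∧ ∀ w : ℝ, 0 < w →
    w ≤ w1 → ∀ (a θ : ℝ) (M0 : ℕ), ∃ p : ℕ, p.Prime ∧ M0 ≤ p ∧ ∃ NB : Finset ℤ,
      (NB.card : ℝ) ≤ w * ((p ^ A : ℕ) : ℝ) / 2 ∧ ∀ n : ℤ,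
        a ≤ θ + (n : ℝ) / ((p ^ A : ℕ) : ℝ) → θ + (n : ℝ) / ((p ^ A : ℕ) : ℝ) ≤ a + w → n ∉ NB →
        Q k w (1 / ((p ^ A : ℕ) : ℝ) ^ W / 2) (θ + (n : ℝ) / ((p ^ A : ℕ) : ℝ)) := by
  classical
  obtain ⟨t0, ht0⟩ : ∃ t0 : ℕ, t0 = 40 * (k + 1) ^ 4 := ⟨_, rfl⟩
  have ht0pos : 1 ≤ t0 := by rw [ht0]; exact Nat.mul_pos (by norm_num) (by positivity)
  have hk2 : (1 : ℝ) ≤ (k : ℝ) + 2 := by have : (0 : ℝ) ≤ k := Nat.cast_nonneg _; linarith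
  refine ⟨1 / ((k : ℝ) + 2) ^ (t0 ^ 2), by positivity, fun w hw hw1 a θ M0 => ?_⟩
  rw [le_div_iff₀ (by positivity)] at hw1
  have hwle : w ≤ 1 := by
    have : (1 : ℝ) ≤ ((k : ℝ) + 2) ^ (t0 ^ 2) := one_le_pow₀ hk2
    nlinarith
  obtain ⟨s, p, hs, hp, hpM, hps, hav⟩ := good_prime k (A * W + 1) ⌈1 / w⌉₊
    (M0 + ⌈1 / w⌉₊ + ⌈(2 * ((k : ℝ) + 2) / w) ^ (k + 1)⌉₊) (by omega)
  obtain ⟨Z, hZ⟩ : ∃ Z, Z = (A * W + 1) * s := ⟨_, rfl⟩
  rw [← hZ] at hav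
  obtain ⟨N, hN⟩ : ∃ N, N = p ^ A := ⟨_, rfl⟩
  refine ⟨p, hp, by omega, ?_⟩
  rw [← hN]
  have hpN : p ≤ N := by rw [hN]; exact Nat.le_self_pow (by omega) _
  have hNpos : 0 < N := lt_of_lt_of_le hp.pos hpN
  have hNr : (0 : ℝ) < N := by exact_mod_cast hNpos
  have hN1 : (1 : ℝ) ≤ N := by exact_mod_cast hNpos
  have hwN : 1 ≤ w * N := by
    have h1 : 1 / w ≤ N := (Nat.le_ceil _).trans (by exact_mod_cast (by omega))
    rw [div_le_iff₀ hw] at h1; linarith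
  have hw' : 0 < 1 / (N : ℝ) ^ W / 2 := by positivity
  have hTZ : ∀ b, 2 ≤ b → Tb b (1 / (N : ℝ) ^ W / 2) ≤ Z := by
    intro b hb
    apply Tb_le hb hw'
    have h1 : 2 * N ^ W ≤ b ^ Z := by
      calc 2 * N ^ W = 2 * p ^ (A * W) := by rw [hN, ← pow_mul]
        _ ≤ 2 ^ s * (2 ^ s) ^ (A * W) := by
          gcongr
          exact Nat.le_self_pow (by omega) 2
        _ = 2 ^ Z := by rw [hZ, ← pow_succ', ← pow_mul, mul_comm]
        _ ≤ b ^ Z := Nat.pow_le_pow_left hb _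
    have h2 : 2 * (N : ℝ) ^ W ≤ (b : ℝ) ^ Z := by exact_mod_cast h1
    rw [div_div, div_mul_eq_mul_div, one_mul, le_div_iff₀ (by positivity)]
    linarith
  have hT0 : ∀ b, 2 ≤ b → b ≤ k + 2 → t0 ^ 2 ≤ Tb b w := by
    intro b hb hbk
    apply Tb_ge hb hw
    refine le_trans ?_ hw1
    have : (b : ℝ) ≤ (k : ℝ) + 2 := by exact_mod_cast hbk
    gcongr
  have hgrow : ∀ b, 2 ≤ b → b ≤ k + 2 → (k + 1) * Tb b w ≤ Tb b (1 / (N : ℝ) ^ W / 2) := by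
    intro b hb hbk
    apply Tb_ge hb hw'
    have h1 := Tb_upper hb hw hwle
    have h2 : (b : ℝ) ≤ (k : ℝ) + 2 := by exact_mod_cast hbk
    have h3 : (b : ℝ) ^ Tb b w ≤ 2 * ((k : ℝ) + 2) / w := by
      rw [le_div_iff₀ hw]; linarith
    have h4 : (2 * ((k : ℝ) + 2) / w) ^ (k + 1) ≤ N :=
      (Nat.le_ceil _).trans (Nat.cast_le.2 (by omega))
    have h5 : (N : ℝ) ≤ (N : ℝ) ^ W := le_self_pow₀ hN1 (by omega)
    have h6 : (b : ℝ) ^ ((k + 1) * Tb b w) ≤ (N : ℝ) ^ W := by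
      rw [mul_comm, pow_mul]
      refine le_trans ?_ (h4.trans h5)
      gcongr
    rw [div_div, div_mul_eq_mul_div, one_mul, div_le_one (by positivity)]
    have : 0 < (N : ℝ) ^ W := by positivity
    linarith
  obtain ⟨u, hu⟩ : ∃ u : ℤ, u = ⌈(a - θ) * N⌉ := ⟨_, rfl⟩
  obtain ⟨v, hv⟩ : ∃ v : ℤ, v = ⌊(a - θ + w) * N⌋ := ⟨_, rfl⟩
  have hcard : ((Icc u v).card : ℝ) ≤ 2 * (w * N) := by
    rw [Int.card_Icc]
    have h1 : (a - θ) * N ≤ u := by rw [hu]; exact Int.le_ceil _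
    have h2 : (v : ℝ) ≤ (a - θ + w) * N := by rw [hv]; exact Int.floor_le _
    rcases le_or_gt (v + 1 - u) 0 with h | h
    · rw [Int.toNat_of_nonpos h]; simp only [Nat.cast_zero]; linarith
    · have : (((v + 1 - u).toNat : ℕ) : ℝ) = ((v + 1 - u : ℤ) : ℝ) := by
        exact_mod_cast Int.toNat_of_nonneg h.le
      rw [this]; push_cast; nlinarith
  let Idx : Finset (ℕ × ℤ × ℕ) := Icc 2 (k + 2) ×ˢ Icc (-(k : ℤ)) k ×ˢ Ioo (t0 - 1) (Z + 1)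
  let bad : ℕ × ℤ × ℕ → Finset ℤ := fun y => if y.2.1 ≠ 0 ∧ y.2.2 ^ 2 ≤ Z then
    (Icc u v).filter fun n : ℤ => (y.2.2 : ℝ) ^ 2 / (k + 1) <
      ‖WS y.1 y.2.1 (Tb y.1 w) (y.2.2 ^ 2) (θ + n / N)‖ else ∅
  have hbad : ∀ y ∈ Idx, ((bad y).card : ℝ) ≤
      5 * ((k : ℝ) + 1) ^ 2 * (w * N) * ((y.2.2 : ℝ) ^ 2)⁻¹ := by
    rintro ⟨b, h, t⟩ hy
    simp only [Idx, mem_product, mem_Icc, mem_Ioo] at hy
    obtain ⟨⟨hb, hbk⟩, hh, ht1, ht2⟩ := hy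
    simp only [bad]
    split_ifs with hc
    · have ht : 1 ≤ t := by omega
      have htr : (1 : ℝ) ≤ t := by exact_mod_cast ht
      have hZ1 : 1 ≤ Z := le_trans (Nat.one_le_pow _ _ ht) hc.2
      have hZr : (1 : ℝ) ≤ Z := by exact_mod_cast hZ1
      have hsm := second_moment b hb h hc.1 (Tb b w) (t ^ 2) N hNpos (Nat.one_le_pow _ _ ht) w
        ((Z : ℝ) ^ 2 / w) θ hw (by positivity) u v hcard (Tb_lower hb hw) (by
          rw [div_mul_cancel₀ _ hw.ne']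
          have : ((t ^ 2 : ℕ) : ℝ) ≤ Z := by exact_mod_cast hc.2
          gcongr) (by
          intro j hj l hl c hc0
          by_contra hlt
          push Not at hlt
          have h1 : (Z : ℝ) ^ 2 / w ≤ ((⌈1 / w⌉₊ * Z ^ 2 : ℕ) : ℝ) := by
            push_cast
            rw [div_eq_mul_one_div, mul_comm]
            gcongr
            exact Nat.le_ceil _
          have h2 : |h * ((b : ℤ) ^ j - (b : ℤ) ^ l) - c * N| ≤ ((⌈1 / w⌉₊ * Z ^ 2 : ℕ) : ℤ) := by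
            have := hlt.le.trans h1
            exact_mod_cast this
          have h3 := hav b hbk h (abs_le.2 hh) j (by omega) l (by omega) _ h2
          rw [sub_sub_cancel] at h3
          refine h3 (mul_ne_zero hc0 (by exact_mod_cast hNpos.ne')) ?_
          apply Dvd.dvd.mul_left
          rw [hN]; push_cast
          exact dvd_pow_self _ (by omega))
      refine (markov_card _ _ _ _ (by positivity) hsm).trans (le_of_eq ?_)
      push_cast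
      field_simp
    · simp only [card_empty, Nat.cast_zero]; positivity
  refine ⟨Idx.biUnion bad, ?_, fun n hn1 hn2 hnb b hb hbk => ⟨?_, hgrow b hb hbk, ?_⟩⟩
  · have h1 : ((Idx.biUnion bad).card : ℝ) ≤ ∑ y ∈ Idx, ((bad y).card : ℝ) := by
      exact_mod_cast card_biUnion_le
    refine h1.trans ((sum_le_sum hbad).trans ?_)
    simp only [Idx, sum_product, sum_const, Nat.card_Icc, Int.card_Icc, nsmul_eq_mul]
    rw [← mul_sum]
    have h2 := sum_Ioo_inv_sq_le (α := ℝ) (t0 - 1) (Z + 1)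
    have h3 : (((t0 - 1 : ℕ) : ℝ) + 1) = 40 * ((k : ℝ) + 1) ^ 4 := by
      rw [Nat.cast_sub ht0pos, ht0]; push_cast; ring
    rw [h3] at h2
    have e1 : ((k : ℤ) + 1 - -(k : ℤ)).toNat = 2 * k + 1 := by omega
    have e2 : k + 2 + 1 - 2 = k + 1 := by omega
    rw [e1, e2]
    have hk0 : (0 : ℝ) ≤ k := Nat.cast_nonneg _
    calc ((k + 1 : ℕ) : ℝ) * (((2 * k + 1 : ℕ) : ℝ) * (5 * ((k : ℝ) + 1) ^ 2 * (w * N) *
          ∑ t ∈ Ioo (t0 - 1) (Z + 1), ((t : ℝ) ^ 2)⁻¹))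
        ≤ ((k : ℝ) + 1) * ((2 * ((k : ℝ) + 1)) * (5 * ((k : ℝ) + 1) ^ 2 * (w * N) *
          (2 / (40 * ((k : ℝ) + 1) ^ 4)))) := by
          push_cast
          gcongr
          linarith
      _ = w * N / 2 := by field_simp; ring
  · have := hT0 b hb hbk
    have h1 : 1 ≤ t0 ^ 2 := Nat.one_le_pow _ _ ht0pos
    omega
  · intro h hh hhk t ht1 ht2
    by_contra hlt
    push Not at hlt
    apply hnb
    have h1 := hT0 b hb hbk
    have h2 := hTZ b hb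
    have h3 : t0 ≤ t := by
      by_contra h4
      have : t ^ 2 < t0 ^ 2 := Nat.pow_lt_pow_left (by omega) (by norm_num)
      omega
    have h4 : t ≤ t ^ 2 := Nat.le_self_pow (by norm_num) _
    refine mem_biUnion.2 ⟨(b, h, t), ?_, ?_⟩
    · simp only [Idx, mem_product, mem_Icc, mem_Ioo]
      exact ⟨⟨hb, hbk⟩, abs_le.1 hhk, by omega, by omega⟩
    · simp only [bad]
      rw [if_pos ⟨hh, by omega⟩, mem_filter, mem_Icc]
      refine ⟨⟨?_, ?_⟩, hlt⟩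
      · rw [hu, Int.ceil_le, ← le_div_iff₀ hNr]; linarith
      · rw [hv, Int.le_floor, ← div_le_iff₀ hNr]; linarith

end Pool.Agent.H4Z.TN
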