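import Pool.Agent.H4Z.TNB

/-! From the stage properties to vanishing Weyl sums. -/

set_option autoImplicit false

open Finset Real Filter Topology

namespace Pool.Agent.H4Z.TN

open Pool.Agent.H391Z.Uniq

theorem WS_trivial (b : ℕ) (h : ℤ) (T0 T : ℕ) (α : ℝ) : ‖WS b h T0 T α‖ ≤ ((T - T0 : ℕ) : ℝ) := by
  refine (norm_sum_le _ _).trans ?_
  simp [norm_E]

theorem WS_split (b : ℕ) (h : ℤ) {T0 T1 T : ℕ} (h1 : T0 ≤ T1) (h2 : T1 ≤ T) (α : ℝ) :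
    WS b h T0 T α = WS b h T0 T1 α + WS b h T1 T α :=
  (sum_Ico_consecutive _ h1 h2).symm

theorem WS_pert (b : ℕ) (hb : 2 ≤ b) (h : ℤ) (T0 T : ℕ) (α ξ : ℝ) :
    ‖WS b h T0 T ξ‖ ≤ ‖WS b h T0 T α‖ + 2 * π * |(h : ℝ)| * (|ξ - α| * (b : ℝ) ^ T) := by
  have hb2 : (2 : ℝ) ≤ b := by exact_mod_cast hb
  have h1 : ‖WS b h T0 T ξ - WS b h T0 T α‖ ≤ 2 * π * |(h : ℝ)| * (|ξ - α| * (b : ℝ) ^ T) := by
    unfold WS
    rw [← sum_sub_distrib]
    refine (norm_sum_le _ _).trans ((sum_le_sum fun j _ => E_lip h _ _).trans ?_)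
    rw [← mul_sum]
    gcongr
    have e : ∀ j : ℕ, |ξ * (b : ℝ) ^ j - α * (b : ℝ) ^ j| = |ξ - α| * (b : ℝ) ^ j := fun j => by
      rw [← sub_mul, abs_mul, abs_of_pos (by positivity : (0 : ℝ) < (b : ℝ) ^ j)]
    simp only [e]
    rw [← mul_sum]
    gcongr
    have h2 : ∑ j ∈ Ico T0 T, (b : ℝ) ^ j ≤ ∑ j ∈ range T, (b : ℝ) ^ j := by
      refine sum_le_sum_of_subset_of_nonneg ?_ fun _ _ _ => by positivity
      intro j hj
      rw [mem_Ico] at hj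
      exact mem_range.2 hj.2
    refine h2.trans ?_
    have h3 := geom_sum_mul (b : ℝ) T
    have h4 : 0 ≤ ∑ j ∈ range T, (b : ℝ) ^ j := sum_nonneg fun _ _ => by positivity
    nlinarith
  have h2 := norm_le_insert' (WS b h T0 T ξ) (WS b h T0 T α)
  linarith

theorem stage_bound (k : ℕ) (w w' α ξ : ℝ) (hw' : 0 < w') (hw1 : w' ≤ 1) (hξ : |ξ - α| ≤ 4 * w')
    (hQ : Q k w w' α) (b : ℕ) (hb : 2 ≤ b) (hbk : b ≤ k + 2) (h : ℤ) (hh : h ≠ 0) (hhk : |h| ≤ k)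
    (T : ℕ) (h1 : Tb b w ≤ T) (h2 : T ≤ Tb b w') :
    ‖WS b h (Tb b w) T ξ‖ ≤ (T : ℝ) / (k + 1) + 2 * √T + 16 * π * |(h : ℝ)| * b := by
  have hb2 : (2 : ℝ) ≤ b := by exact_mod_cast hb
  obtain ⟨-, -, hq⟩ := hQ b hb hbk
  have hp := WS_pert b hb h (Tb b w) T α ξ
  have h3 : |ξ - α| * (b : ℝ) ^ T ≤ 8 * b := by
    have h4 := Tb_upper hb hw' hw1
    have h5 : (b : ℝ) ^ T ≤ (b : ℝ) ^ Tb b w' := pow_le_pow_right₀ (by linarith) h2
    calc |ξ - α| * (b : ℝ) ^ T ≤ (4 * w') * (b : ℝ) ^ Tb b w' := by gcongr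
      _ = 4 * (w' * (b : ℝ) ^ Tb b w') := by ring
      _ ≤ _ := by linarith
  have h4 : 2 * π * |(h : ℝ)| * (|ξ - α| * (b : ℝ) ^ T) ≤ 16 * π * |(h : ℝ)| * b := by
    calc 2 * π * |(h : ℝ)| * (|ξ - α| * (b : ℝ) ^ T) ≤ 2 * π * |(h : ℝ)| * (8 * b) := by gcongr
      _ = _ := by ring
  obtain ⟨t, ht⟩ : ∃ t, t = Nat.sqrt T := ⟨_, rfl⟩
  have ht1 : t ^ 2 ≤ T := by rw [ht]; exact Nat.sqrt_le' T
  have ht2 : T < (t + 1) ^ 2 := by rw [ht]; exact Nat.lt_succ_sqrt' T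
  have ht3 : (t : ℝ) ≤ √T := by
    apply Real.le_sqrt_of_sq_le
    exact_mod_cast ht1
  have ht4 : T - t ^ 2 ≤ 2 * t := by
    have : (t + 1) ^ 2 = t ^ 2 + 2 * t + 1 := by ring
    omega
  have hT0 : 0 ≤ (T : ℝ) / (k + 1) := by positivity
  have h5 : ‖WS b h (Tb b w) T α‖ ≤ (T : ℝ) / (k + 1) + 2 * √T := by
    by_cases hc : Tb b w ≤ t ^ 2
    · rw [WS_split b h hc ht1]
      refine (norm_add_le _ _).trans (add_le_add ?_ ?_)
      · refine (hq h hh hhk t hc (ht1.trans h2)).trans ?_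
        have : (t : ℝ) ^ 2 ≤ T := by exact_mod_cast ht1
        gcongr
      · refine (WS_trivial _ _ _ _ _).trans ?_
        have : ((T - t ^ 2 : ℕ) : ℝ) ≤ 2 * t := by exact_mod_cast ht4
        linarith
    · refine (WS_trivial _ _ _ _ _).trans ?_
      have : ((T - Tb b w : ℕ) : ℝ) ≤ 2 * t := by exact_mod_cast (by omega : T - Tb b w ≤ 2 * t)
      linarith
  linarith

theorem weyl_of_stages (ξ : ℝ) (w α : ℕ → ℝ) (hw : ∀ k, 0 < w k) (hw1 : ∀ k, w k ≤ 1)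
    (hξ : ∀ k, |ξ - α k| ≤ 4 * w (k + 1)) (hQ : ∀ k, Q k (w k) (w (k + 1)) (α k))
    (b : ℕ) (hb : 2 ≤ b) (h : ℤ) (hh : h ≠ 0) :
    Tendsto (fun N : ℕ => (∑ n ∈ range N, E h (ξ * (b : ℝ) ^ n)) / (N : ℂ)) atTop (𝓝 0) := by
  obtain ⟨c, hc⟩ : ∃ c : ℝ, c = 16 * π * |(h : ℝ)| * b := ⟨_, rfl⟩
  have hc0 : 0 ≤ c := by rw [hc]; positivity
  let T : ℕ → ℕ := fun k => Tb b (w k)
  have hT1 : ∀ k, b ≤ k → 1 ≤ T k := fun k hk => (hQ k b hb (by omega)).1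
  have hT2 : ∀ k, b ≤ k → (k + 1) * T k ≤ T (k + 1) := fun k hk => (hQ k b hb (by omega)).2.1
  have hT3 : ∀ k, b ≤ k → T k ≤ T (k + 1) := fun k hk =>
    le_trans (Nat.le_mul_of_pos_left _ (by omega)) (hT2 k hk)
  have hT4 : ∀ k, b ≤ k → k + 1 ≤ T (k + 1) := fun k hk =>
    le_trans (Nat.le_mul_of_pos_right _ (hT1 k hk)) (hT2 k hk)
  have main : ∀ K : ℕ, b ≤ K → h.natAbs ≤ K → ∀ N : ℕ, T (K + 1) ≤ N →
      ‖∑ n ∈ range N, E h (ξ * (b : ℝ) ^ n)‖ ≤ 3 * N / (K + 1) + 4 * √N + 2 * c := by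
    intro K hK hK' N hN
    have hex : ∃ i, N < T (K + 1 + i + 1) := ⟨N, by have := hT4 (K + 1 + N) (by omega); omega⟩
    obtain ⟨k, hk1, hk2, hk3⟩ : ∃ k, K ≤ k ∧ T (k + 1) ≤ N ∧ N < T (k + 1 + 1) := by
      refine ⟨K + Nat.find hex, by omega, ?_, ?_⟩
      · rcases Nat.eq_zero_or_pos (Nat.find hex) with h0 | h0
        · rw [h0]; exact hN
        · have := Nat.find_min hex (m := Nat.find hex - 1) (by omega)
          have e : K + 1 + (Nat.find hex - 1) + 1 = K + Nat.find hex + 1 := by omega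
          rw [e] at this
          omega
      · have := Nat.find_spec hex
        have e : K + 1 + Nat.find hex + 1 = K + Nat.find hex + 1 + 1 := by omega
        rwa [e] at this
    have hhk : ∀ i, K ≤ i → |h| ≤ (i : ℤ) := fun i hi => by
      rw [Int.abs_eq_natAbs]; exact_mod_cast hK'.trans hi
    have a1 := stage_bound k (w k) (w (k + 1)) (α k) ξ (hw _) (hw1 _) (hξ k) (hQ k) b hb (by omega)
      h hh (hhk k hk1) (T (k + 1)) (hT3 k (by omega)) le_rfl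
    have a2 := stage_bound (k + 1) (w (k + 1)) (w (k + 1 + 1)) (α (k + 1)) ξ (hw _) (hw1 _)
      (hξ (k + 1)) (hQ (k + 1)) b hb (by omega) h hh (hhk (k + 1) (by omega)) N hk2 hk3.le
    have a3 := WS_trivial b h 0 (T k) ξ
    have e : ∑ n ∈ range N, E h (ξ * (b : ℝ) ^ n) =
        WS b h 0 (T k) ξ + WS b h (T k) (T (k + 1)) ξ + WS b h (T (k + 1)) N ξ := by
      rw [← WS_split b h (Nat.zero_le _) (hT3 k (by omega)), ← WS_split b h (Nat.zero_le _) hk2,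
        WS, range_eq_Ico]
    rw [e]
    rw [← hc] at a1 a2
    have hK0 : (0 : ℝ) < (K : ℝ) + 1 := by positivity
    have hKk : (K : ℝ) + 1 ≤ (k : ℝ) + 1 := by
      have : (K : ℝ) ≤ k := by exact_mod_cast hk1
      linarith
    have hTN : ((T (k + 1) : ℕ) : ℝ) ≤ N := by exact_mod_cast hk2
    have b1 : ((T k - 0 : ℕ) : ℝ) ≤ N / (K + 1) := by
      rw [Nat.sub_zero, le_div_iff₀ hK0]
      have h1 : (((k + 1) * T k : ℕ) : ℝ) ≤ N := by exact_mod_cast (hT2 k (by omega)).trans hk2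
      push_cast at h1
      have h2 : (0 : ℝ) ≤ T k := Nat.cast_nonneg _
      nlinarith
    have b2 : ((T (k + 1) : ℕ) : ℝ) / (k + 1) ≤ N / (K + 1) := by gcongr
    have b3 : (N : ℝ) / (((k + 1 : ℕ) : ℝ) + 1) ≤ N / (K + 1) := by
      push_cast
      gcongr
      linarith
    have b4 : √((T (k + 1) : ℕ) : ℝ) ≤ √N := Real.sqrt_le_sqrt hTN
    have b5 : 3 * (N : ℝ) / (K + 1) = N / (K + 1) + N / (K + 1) + N / (K + 1) := by ring
    have b6 := norm_add₃_le (a := WS b h 0 (T k) ξ) (b := WS b h (T k) (T (k + 1)) ξ)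
      (c := WS b h (T (k + 1)) N ξ)
    simp only [T] at *
    linarith
  rw [tendsto_zero_iff_norm_tendsto_zero, Metric.tendsto_atTop]
  intro ε hε
  obtain ⟨K0, hK0⟩ := exists_nat_one_div_lt (show 0 < ε / 6 by positivity)
  obtain ⟨K, hK⟩ : ∃ K, K = K0 + b + h.natAbs := ⟨_, rfl⟩
  have hl1 : Tendsto (fun N : ℕ => 4 * (√(N : ℝ))⁻¹ + 2 * c * ((N : ℝ))⁻¹) atTop (𝓝 0) := by
    have g1 : Tendsto (fun N : ℕ => (√(N : ℝ))⁻¹) atTop (𝓝 0) :=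
      tendsto_inv_atTop_zero.comp (Real.tendsto_sqrt_atTop.comp tendsto_natCast_atTop_atTop)
    have g2 : Tendsto (fun N : ℕ => ((N : ℝ))⁻¹) atTop (𝓝 0) := tendsto_inv_atTop_nhds_zero_nat
    simpa using (g1.const_mul 4).add (g2.const_mul (2 * c))
  obtain ⟨N1, hN1⟩ := eventually_atTop.1 (hl1.eventually (gt_mem_nhds (show 0 < ε / 2 by positivity)))
  refine ⟨N1 + T (K + 1) + 1, fun N hN => ?_⟩
  have hN0 : (0 : ℝ) < N := by exact_mod_cast (by omega : 0 < N)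
  have h1 := main K (by omega) (by omega) N (by omega)
  have h2 := hN1 N (by omega)
  rw [Real.dist_eq, sub_zero, abs_norm, norm_div, Complex.norm_natCast, div_lt_iff₀ hN0]
  have h3 : 1 / ((K : ℝ) + 1) ≤ 1 / ((K0 : ℝ) + 1) := by
    have : (K0 : ℝ) ≤ K := by exact_mod_cast (by omega : K0 ≤ K)
    gcongr
  have h4 : 3 * (N : ℝ) / (K + 1) ≤ ε / 2 * N := by
    have : 3 * (N : ℝ) / (K + 1) = 3 * (1 / ((K : ℝ) + 1)) * N := by ring
    rw [this]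
    gcongr
    linarith
  have h5 : 4 * √(N : ℝ) + 2 * c = (4 * (√(N : ℝ))⁻¹ + 2 * c * ((N : ℝ))⁻¹) * N := by
    have hs : 0 < √(N : ℝ) := Real.sqrt_pos.2 hN0
    have hs2 := Real.mul_self_sqrt hN0.le
    field_simp
    nlinarith
  have h6 : (4 * (√(N : ℝ))⁻¹ + 2 * c * ((N : ℝ))⁻¹) * N < ε / 2 * N := by gcongr
  linarith

end Pool.Agent.H4Z.TN
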