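import Mathlib
import Pool.Agent.Helper35.TFinal
import Pool.Agent.H4Z.TNC

set_option autoImplicit false

/-! The stage lemma of the T-number construction of Helper35, with the normality property added. -/

namespace Pool.Agent.H4Z.TN

open Polynomial Pool.Agent.Helper35

theorem stepQ {d r0 : ℕ} (D : ThetaData d r0) (k W : ℕ) (hW : 1 ≤ W) : ∃ w0 : ℝ, 0 < w0 ∧ ∀ w : ℝ, 0 < w →
    w ≤ w0 → ∀ a : ℝ, 0 ≤ a → a + w ≤ 1 → ∀ M0 : ℕ, ∃ p : ℕ, p.Prime ∧ M0 ≤ p ∧ ∃ n : ℤ,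
    ¬ (p : ℤ) ∣ n ∧ ¬ (p : ℤ) ∣ D.T.leadingCoeff ∧
    a ≤ D.θ + (n : ℝ) / ((p ^ (4 * (k + 2) ^ 2 + 1) : ℕ) : ℝ) ∧
    D.θ + (n : ℝ) / ((p ^ (4 * (k + 2) ^ 2 + 1) : ℕ) : ℝ) ≤ a + w ∧
    Q k w (1 / ((p ^ (4 * (k + 2) ^ 2 + 1) : ℕ) : ℝ) ^ W / 2)
      (D.θ + (n : ℝ) / ((p ^ (4 * (k + 2) ^ 2 + 1) : ℕ) : ℝ)) ∧
    ∀ r : ℝ, 0 < r → r * ((p ^ (4 * (k + 2) ^ 2 + 1) : ℕ) : ℝ) ^ 22 ≤ 1 →
      Good k w r (D.θ + (n : ℝ) / ((p ^ (4 * (k + 2) ^ 2 + 1) : ℕ) : ℝ))
        (SP D.T (p ^ (4 * (k + 2) ^ 2 + 1)) n) := by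
  classical
  set A : ℕ := 4 * (k + 2) ^ 2 + 1 with hA
  have hA6 : 6 ≤ A := by
    have : 2 ^ 2 ≤ (k + 2) ^ 2 := Nat.pow_le_pow_left (by omega) 2
    omega
  set SK : ℝ := ∑ m ∈ Finset.range (k + 1), Kc m with hSK
  set SC : ℝ := ∑ m ∈ Finset.range (k + 1), cc m with hSC
  set SD : ℝ := ∑ m ∈ Finset.range (k + 1), (m : ℝ) * 3 ^ (m + 1) with hSD
  set SS : ℝ := ∑ m ∈ Finset.range (k + 1), Sc m with hSS
  have hKnn : ∀ m, 0 ≤ Kc m := fun m => by unfold Kc; positivity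
  have hSK0 : 0 ≤ SK := Finset.sum_nonneg (fun m _ => hKnn m)
  have hSC0 : 0 ≤ SC := Finset.sum_nonneg (fun m _ => cc_nonneg m)
  have hSD0 : 0 ≤ SD := Finset.sum_nonneg (fun m _ => by positivity)
  have hSS0 : 0 ≤ SS := Finset.sum_nonneg (fun m _ => Sc_nonneg m)
  -- constants of the theta regime
  have hCex : ∀ m : ℕ, ∃ C : ℝ, 1 ≤ C ∧ (1 ≤ m → ∀ (N : ℕ) (n : ℤ), 1 ≤ N →
      |D.θ + (n : ℝ) / N| ≤ 1 →
      ∀ P : ℤ[X], IrrQ P → P.natDegree = m → aeval (D.θ + (n : ℝ) / N) P ≠ 0 →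
        1 ≤ C * (|aeval (D.θ + (n : ℝ) / N) P| * (ht P : ℝ) ^ (4 * m + 4) *
          (N : ℝ) ^ (m * (4 * m + 5)))) := by
    intro m
    by_cases hm : 1 ≤ m
    · obtain ⟨C, h1, h2⟩ := theta_regime D m hm
      exact ⟨C, h1, fun _ => h2⟩
    · exact ⟨1, le_rfl, fun h => absurd h hm⟩
  choose C1 hC1a hC1b using hCex
  set SQ : ℝ := ∑ m ∈ Finset.range (k + 1), (2 * C1 m) ^ 4 with hSQ
  have hSQ0 : 0 ≤ SQ := Finset.sum_nonneg (fun m _ => by
    have := hC1a m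
    positivity)
  set Y : ℝ := 2 * SK + 64 * SC + 1 with hY
  have hY1 : 1 ≤ Y := by rw [hY]; linarith
  obtain ⟨w1, hw1pos, hsel⟩ := selector k A W (by omega) hW
  refine ⟨min (1 / Y ^ 36) w1, lt_min (by positivity) hw1pos,
    fun w hwpos hwmin a ha haw M0 => ?_⟩
  have hw : w ≤ 1 / Y ^ 36 := hwmin.trans (min_le_left _ _)
  have hwY : w * Y ^ 36 ≤ 1 := by
    rw [le_div_iff₀ (by positivity)] at hw
    exact hw
  have hw1 : w ≤ 1 := by linarith
  set L : ℕ := 96 * (k + 1) * (A * (k + 1) + 1) with hL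
  have hLr : (L : ℝ) = 96 * ((k : ℝ) + 1) * (A * ((k : ℝ) + 1) + 1) := by
    rw [hL]; push_cast; ring
  have hLpos : (0 : ℝ) < L := by rw [hLr]; positivity
  obtain ⟨p, hp, hpbig, NB, hNBcard, hNB⟩ := hsel w hwpos (hwmin.trans (min_le_right _ _)) a D.θ
    (M0 + L + ⌈(L : ℝ) / w⌉₊ + ⌈SS⌉₊ + ⌈SQ⌉₊ + (4 * (k + 1) ^ 2 + 2) +
      D.T.leadingCoeff.natAbs + ⌈32 * SD / w⌉₊ + ⌈64 / w⌉₊ + 64)
  have hp1r : (1 : ℝ) < p := by exact_mod_cast hp.one_lt
  have hp0r : (0 : ℝ) < p := by linarith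
  have hceil : ∀ x : ℝ, (⌈x⌉₊ : ℕ) ≤ p → x ≤ p := fun x hx =>
    (Nat.le_ceil x).trans (by exact_mod_cast hx)
  have hpL : L ≤ p := by omega
  have hpLw : (L : ℝ) ≤ w * p := by
    have h1 := hceil ((L : ℝ) / w) (by omega)
    rw [div_le_iff₀ hwpos] at h1
    linarith
  have hpSS : SS < p := by
    have h1 : (⌈SS⌉₊ : ℝ) + 1 ≤ p := by exact_mod_cast (by omega : ⌈SS⌉₊ + 1 ≤ p)
    have := Nat.le_ceil SS
    linarith
  have hpSQ : SQ ≤ p := hceil _ (by omega)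
  have hpSD : 32 * SD / w ≤ p := hceil _ (by omega)
  have hp64w : 64 ≤ w * p := by
    have h1 := hceil (64 / w) (by omega)
    rw [div_le_iff₀ hwpos] at h1
    linarith
  have hp64 : (64 : ℝ) ≤ p := by exact_mod_cast (by omega : 64 ≤ p)
  have hplead : ¬ (p : ℤ) ∣ D.T.leadingCoeff := by
    intro hd
    have hne : D.T.leadingCoeff ≠ 0 := leadingCoeff_ne_zero.mpr D.irr.ne_zero
    have h1 := Int.natAbs_dvd_natAbs.mpr hd
    have h2 := Nat.le_of_dvd (Int.natAbs_pos.mpr hne) h1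
    simp at h2
    omega
  set N : ℕ := p ^ A with hN
  have hN1 : 1 ≤ N := Nat.one_le_iff_ne_zero.mpr (pow_ne_zero A hp.ne_zero)
  have hNpos : 0 < N := hN1
  have hNrpos : (0 : ℝ) < N := by exact_mod_cast hNpos
  have hNr : (N : ℝ) = (p : ℝ) ^ A := by rw [hN]; push_cast; rfl
  have hpN : (p : ℝ) ≤ N := by rw [hNr]; exact le_self_pow₀ hp1r.le (by omega)
  have hwN : 64 ≤ w * N := by
    calc (64 : ℝ) ≤ w * p := hp64w
      _ ≤ w * N := by gcongr
  refine ⟨p, hp, by omega, ?_⟩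
  by_contra hcon
  push Not at hcon
  set All := Finset.Icc ⌈(a - D.θ) * N⌉ ⌊(a - D.θ + w) * N⌋ with hAll
  have hmem : ∀ n ∈ All, a ≤ D.θ + (n : ℝ) / N ∧ D.θ + (n : ℝ) / N ≤ a + w := by
    intro n hn
    rw [hAll, Finset.mem_Icc] at hn
    have h1 : a - D.θ ≤ (n : ℝ) / N := by
      rw [le_div_iff₀ hNrpos]; exact Int.ceil_le.mp hn.1
    have h2 : (n : ℝ) / N ≤ a - D.θ + w := by
      rw [div_le_iff₀ hNrpos]; exact Int.le_floor.mp hn.2
    constructor <;> linarith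
  have habs : ∀ n ∈ All, |D.θ + (n : ℝ) / N| ≤ 1 := by
    intro n hn
    obtain ⟨h1, h2⟩ := hmem n hn
    rw [abs_le]; constructor <;> linarith
  have hcardAll : w * N - 1 ≤ (All.card : ℝ) := by
    rw [hAll, Int.card_Icc]
    have h1 : ((⌊(a - D.θ + w) * N⌋ + 1 - ⌈(a - D.θ) * N⌉ : ℤ) : ℝ) ≤
        (((⌊(a - D.θ + w) * N⌋ + 1 - ⌈(a - D.θ) * N⌉).toNat : ℕ) : ℝ) := by
      exact_mod_cast Int.self_le_toNat _
    refine le_trans ?_ h1
    push_cast
    have h2 := Int.lt_floor_add_one ((a - D.θ + w) * N)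
    have h3 := Int.ceil_lt_add_one ((a - D.θ) * N)
    linarith
  set LB : ℕ → Finset ℤ := fun m => All.filter (fun n : ℤ => ∃ P : ℤ[X], IrrQ P ∧
    P.natDegree = m ∧ 1 ≤ w * (ht P : ℝ) ^ (36 * (m + 1)) ∧ (ht P) ^ (2 * (m + 1)) ≤ N ∧
      |aeval (D.θ + (n : ℝ) / N) P| ≤ 2 / (ht P : ℝ) ^ ((36 + 4) * (m + 1))) with hLB
  set SB : ℕ × ℕ → Finset ℤ := fun q => All.filter (fun n : ℤ => ∃ P : ℤ[X], IrrQ P ∧
    P.natDegree = q.1 ∧ ht P ≤ p ^ (q.2 + 1) ∧
      |aeval (D.θ + (n : ℝ) / (p : ℝ) ^ A) P| ≤ 1 / (p : ℝ) ^ (10 * (q.1 + 1) * q.2)) with hSB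
  set PB : Finset ℤ := All.filter (fun n : ℤ => (p : ℤ) ∣ n) with hPB
  set Lev : Finset (ℕ × ℕ) := (Finset.Icc 1 k ×ˢ Finset.Icc 0 (A * k)).filter
    (fun q => 2 * q.1 + 2 ≤ q.2 ∧ 4 * q.2 ≤ A * q.1) with hLev
  have hsub : All \ NB ⊆ ((Finset.Icc 1 k).biUnion LB ∪ Lev.biUnion SB) ∪ PB := by
    intro n hn0
    obtain ⟨hn, hnNB⟩ := Finset.mem_sdiff.1 hn0
    obtain ⟨hn1, hn2⟩ := hmem n hn
    rw [Finset.mem_union, Finset.mem_union, Finset.mem_biUnion, Finset.mem_biUnion]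
    by_cases hpn : (p : ℤ) ∣ n
    · right
      rw [hPB, Finset.mem_filter]
      exact ⟨hn, hpn⟩
    left
    by_cases hlow : ∀ P : ℤ[X], IrrQ P → P.natDegree ≤ k →
      1 ≤ w * (ht P : ℝ) ^ (36 * (P.natDegree + 1)) → (ht P) ^ (2 * (P.natDegree + 1)) ≤ N →
      2 < |aeval (D.θ + (n : ℝ) / N) P| * (ht P : ℝ) ^ (40 * (P.natDegree + 1))
    · right
      by_cases hsh : ∀ P : ℤ[X], IrrQ P → P.natDegree ≤ k → ∀ h : ℕ, 2 * P.natDegree + 2 ≤ h →
        4 * h ≤ A * P.natDegree → ht P ≤ p ^ (h + 1) →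
        1 < |aeval (D.θ + (n : ℝ) / N) P| * (p : ℝ) ^ (10 * (P.natDegree + 1) * h)
      · exfalso
        obtain ⟨r, hr0, hr1, hr2⟩ := hcon n hpn hplead hn1 hn2 (hNB n hn1 hn2 hnNB)
        apply hr2
        refine good_of D k p A hp hA w n C1 (fun m h1 h2 => ⟨hC1a m, hC1b m h1⟩) ?_ (by omega)
          hpn hplead (by rw [← hN]; linarith) (by rw [← hN]; linarith) hlow hsh r hr0 hr1
        intro m h1 h2
        have h3 : (2 * C1 m) ^ 4 ≤ SQ := Finset.single_le_sum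
          (f := fun m => (2 * C1 m) ^ 4) (fun i _ => by
            have := hC1a i
            positivity) (Finset.mem_range.mpr (by omega))
        linarith
      · push Not at hsh
        obtain ⟨P, hP1, hP2, h, hh1, hh2, hh3, hh4⟩ := hsh
        refine ⟨(P.natDegree, h), ?_, ?_⟩
        · rw [hLev, Finset.mem_filter, Finset.mem_product, Finset.mem_Icc, Finset.mem_Icc]
          refine ⟨⟨⟨hP1.natDegree_pos, hP2⟩, Nat.zero_le _, ?_⟩, hh1, hh2⟩
          have : A * P.natDegree ≤ A * k := Nat.mul_le_mul_left _ hP2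
          simp only
          omega
        · rw [hSB, Finset.mem_filter]
          refine ⟨hn, P, hP1, rfl, hh3, ?_⟩
          rw [← hNr, le_div_iff₀ (by positivity)]
          exact hh4
    · left
      push Not at hlow
      obtain ⟨P, hP1, hP2, hP3, hP4, hP5⟩ := hlow
      refine ⟨P.natDegree, Finset.mem_Icc.mpr ⟨hP1.natDegree_pos, hP2⟩, ?_⟩
      rw [hLB, Finset.mem_filter]
      refine ⟨hn, P, hP1, rfl, hP3, hP4, ?_⟩
      have hhp : (0 : ℝ) < ht P := by exact_mod_cast ht_pos hP1.ne_zero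
      rw [le_div_iff₀ (by positivity)]
      exact hP5
  have hLBcard : ∀ m ∈ Finset.Icc 1 k, ((LB m).card : ℝ) ≤
      2 * cc m * N * w / Y + m * 3 ^ (m + 1) * N / (Nat.sqrt (Nat.sqrt N)) := by
    intro m hm
    rw [Finset.mem_Icc] at hm
    refine low_count' D.θ m hm.1 36 (by norm_num) N hNpos w Y hwpos hY1 hwY ?_ (LB m) ?_
    · have h1 : Kc m ≤ SK := Finset.single_le_sum (f := Kc) (fun i _ => hKnn i)
        (Finset.mem_range.mpr (by omega))
      rw [hY]; linarith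
    · intro n hn
      rw [hLB, Finset.mem_filter] at hn
      exact ⟨habs n hn.1, hn.2⟩
  have hSBcard : ∀ q ∈ Lev, ((SB q).card : ℝ) ≤ 3 * (w * N) / L := by
    intro q hq
    rw [hLev, Finset.mem_filter, Finset.mem_product, Finset.mem_Icc, Finset.mem_Icc] at hq
    obtain ⟨⟨⟨hq1, hq2⟩, _, _⟩, hq3, hq4⟩ := hq
    have hScm : Sc q.1 < p := by
      have h1 : Sc q.1 ≤ SS := Finset.single_le_sum (f := Sc) (fun i _ => Sc_nonneg i)
        (Finset.mem_range.mpr (by omega))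
      linarith
    have key := shift_count D.θ q.1 p q.2 A L hq1 hp hq3 hScm hA6 hq4 hpL a w ha hwpos haw hpLw
      (SB q) (by
        intro n hn
        rw [hSB, Finset.mem_filter] at hn
        obtain ⟨g1, g2⟩ := hmem n hn.1
        rw [← hNr]
        exact ⟨g1, g2, by rw [hNr]; exact hn.2⟩)
    rw [← hNr] at key
    rw [le_div_iff₀ hLpos]
    linarith
  have hPBcard : (PB.card : ℝ) ≤ w * N / 32 := by
    have h1 := card_multiples PB ((a - D.θ) * N) ((a - D.θ + w) * N) p hp.pos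
      (mul_le_mul_of_nonneg_right (by linarith) hNrpos.le) (by
      intro n hn
      rw [hPB, Finset.mem_filter, hAll, Finset.mem_Icc] at hn
      exact ⟨Int.ceil_le.mp hn.1.1, Int.le_floor.mp hn.1.2, hn.2⟩)
    have h2 : ((a - D.θ + w) * N - (a - D.θ) * N) / p ≤ w * N / 64 := by
      have e : (a - D.θ + w) * N - (a - D.θ) * N = w * N := by ring
      rw [e]
      gcongr
    linarith
  have hcardNB : (All.card : ℝ) ≤ ((All \ NB).card : ℝ) + NB.card := by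
    exact_mod_cast Finset.card_le_card_sdiff_add_card
  have hcardle : ((All \ NB).card : ℝ) ≤ (∑ m ∈ Finset.Icc 1 k, ((LB m).card : ℝ) +
      ∑ q ∈ Lev, ((SB q).card : ℝ)) + PB.card := by
    have h1 : (All \ NB).card ≤ (∑ m ∈ Finset.Icc 1 k, (LB m).card +
        ∑ q ∈ Lev, (SB q).card) + PB.card :=
      (Finset.card_le_card hsub).trans ((Finset.card_union_le _ _).trans
        (add_le_add ((Finset.card_union_le _ _).trans
        (add_le_add Finset.card_biUnion_le Finset.card_biUnion_le)) le_rfl))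
    exact_mod_cast h1
  have hT4 : (p : ℝ) ≤ (Nat.sqrt (Nat.sqrt N) : ℝ) := by
    exact_mod_cast sqrt_sqrt_pow p A (by omega) hp.one_lt.le
  have hT4pos : (0 : ℝ) < (Nat.sqrt (Nat.sqrt N) : ℝ) := lt_of_lt_of_le hp0r hT4
  have hs1 : ∑ m ∈ Finset.Icc 1 k, ((LB m).card : ℝ) ≤ w * N / 32 + w * N / 32 := by
    have hsubset : Finset.Icc 1 k ⊆ Finset.range (k + 1) := by
      intro m hm
      rw [Finset.mem_Icc] at hm
      exact Finset.mem_range.mpr (by omega)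
    calc ∑ m ∈ Finset.Icc 1 k, ((LB m).card : ℝ)
        ≤ ∑ m ∈ Finset.Icc 1 k, (2 * cc m * N * w / Y +
          m * 3 ^ (m + 1) * N / (Nat.sqrt (Nat.sqrt N))) := Finset.sum_le_sum hLBcard
      _ ≤ ∑ m ∈ Finset.range (k + 1), (2 * cc m * N * w / Y +
          m * 3 ^ (m + 1) * N / (Nat.sqrt (Nat.sqrt N))) := by
          apply Finset.sum_le_sum_of_subset_of_nonneg hsubset
          intro m _ _
          have := cc_nonneg m
          positivity
      _ = 2 * SC * N * w / Y + SD * N / (Nat.sqrt (Nat.sqrt N)) := by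
          rw [Finset.sum_add_distrib, hSC, hSD, Finset.mul_sum, Finset.sum_mul, Finset.sum_mul,
            Finset.sum_div, Finset.sum_mul, Finset.sum_div]
      _ ≤ w * N / 32 + w * N / 32 := by
          have h1 : 2 * SC * N * w / Y ≤ w * N / 32 := by
            rw [div_le_div_iff₀ (by linarith) (by norm_num)]
            have h2 : 64 * SC ≤ Y := by rw [hY]; linarith
            calc 2 * SC * N * w * 32 = (w * N) * (64 * SC) := by ring
              _ ≤ (w * N) * Y := by gcongr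
          have h4 : SD * N / (Nat.sqrt (Nat.sqrt N)) ≤ w * N / 32 := by
            rw [div_le_div_iff₀ hT4pos (by norm_num)]
            rw [div_le_iff₀ hwpos] at hpSD
            have h5 : 32 * SD ≤ w * (Nat.sqrt (Nat.sqrt N) : ℝ) := by
              calc 32 * SD ≤ p * w := hpSD
                _ ≤ (Nat.sqrt (Nat.sqrt N) : ℝ) * w := by gcongr
                _ = _ := mul_comm _ _
            calc SD * N * 32 = N * (32 * SD) := by ring
              _ ≤ N * (w * (Nat.sqrt (Nat.sqrt N) : ℝ)) := by gcongr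
              _ = _ := by ring
          linarith
  have hs2 : ∑ q ∈ Lev, ((SB q).card : ℝ) ≤ w * N / 32 := by
    have hLevcard : (Lev.card : ℝ) ≤ ((k : ℝ) + 1) * (A * ((k : ℝ) + 1) + 1) := by
      have h1 : Lev.card ≤ k * (A * k + 1) := by
        refine (Finset.card_filter_le _ _).trans ?_
        rw [Finset.card_product, Nat.card_Icc, Nat.card_Icc]
        simp
      have h2 : (Lev.card : ℝ) ≤ k * (A * k + 1) := by exact_mod_cast h1
      refine h2.trans ?_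
      gcongr
      · linarith
      · linarith
    calc ∑ q ∈ Lev, ((SB q).card : ℝ) ≤ ∑ q ∈ Lev, (3 * (w * N) / L) :=
          Finset.sum_le_sum hSBcard
      _ = Lev.card * (3 * (w * N) / L) := by rw [Finset.sum_const, nsmul_eq_mul]
      _ ≤ (((k : ℝ) + 1) * (A * ((k : ℝ) + 1) + 1)) * (3 * (w * N) / L) := by gcongr
      _ = w * N / 32 := by
          rw [hLr]
          field_simp
          ring
  linarith

end Pool.Agent.H4Z.TN
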